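import Pool.Agent.H177R3.CosC

/-! Properties of almost all windows. -/

open Complex Filter Topology Set MeasureTheory

namespace Pool.Agent.TH800.AH

/-- a property of almost all windows `(t, t + T / 8]`, `T ≤ t ≤ 2 T` -/
def AA (P : ℝ → ℝ → Prop) : Prop :=
  ∃ δ : ℝ, 0 < δ ∧ ∃ T0 : ℝ, 100 ≤ T0 ∧ ∀ T : ℝ, T0 ≤ T →
    volume {t : ℝ | t ∈ Set.Icc T (2 * T) ∧ ¬ P T t} ≤ ENNReal.ofReal (T ^ (1 - δ))

lemma AA.mono {P Q : ℝ → ℝ → Prop} (h : AA P) (T1 : ℝ)
    (hPQ : ∀ T t : ℝ, T1 ≤ T → 100 ≤ T → T ≤ t → t ≤ 2 * T → P T t → Q T t) : AA Q := by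
  obtain ⟨δ, hδ, T0, hT0, h⟩ := h
  refine ⟨δ, hδ, max T0 T1, hT0.trans (le_max_left _ _), fun T hT => ?_⟩
  have hTT0 := (le_max_left _ _).trans hT
  refine (measure_mono ?_).trans (h T hTT0)
  rintro t ⟨ht, hQ⟩
  exact ⟨ht, fun hP => hQ (hPQ T t ((le_max_right _ _).trans hT) (hT0.trans hTT0) ht.1 ht.2 hP)⟩

lemma AA.and {P Q : ℝ → ℝ → Prop} (hP : AA P) (hQ : AA Q) : AA (fun T t => P T t ∧ Q T t) := by
  obtain ⟨δ, hδ, T0, hT0, h⟩ := hP
  obtain ⟨δ', hδ', T0', hT0', h'⟩ := hQ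
  set δm : ℝ := min δ δ' with hδm
  have hδm0 : 0 < δm := lt_min hδ hδ'
  obtain ⟨T6, hT6⟩ := ((tendsto_rpow_atTop (by positivity : (0 : ℝ) < δm / 2)).eventually_ge_atTop
    2).exists_forall_of_atTop
  refine ⟨δm / 2, by positivity, max T0 (max T0' T6), hT0.trans (le_max_left _ _), fun T hT => ?_⟩
  have hT1 : T0 ≤ T := (le_max_left _ _).trans hT
  have hT2 : T0' ≤ T := ((le_max_left _ _).trans (le_max_right _ _)).trans hT
  have hT3 : T6 ≤ T := ((le_max_right _ _).trans (le_max_right _ _)).trans hT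
  have hTpos : 0 < T := by linarith
  have hunion : ENNReal.ofReal (T ^ (1 - δ)) + ENNReal.ofReal (T ^ (1 - δ')) ≤
      ENNReal.ofReal (T ^ (1 - δm / 2)) := by
    rw [← ENNReal.ofReal_add (by positivity) (by positivity)]
    apply ENNReal.ofReal_le_ofReal
    have g1 : T ^ (1 - δ) ≤ T ^ (1 - δm) :=
      Real.rpow_le_rpow_of_exponent_le (by linarith) (by linarith [min_le_left δ δ'])
    have g2 : T ^ (1 - δ') ≤ T ^ (1 - δm) :=
      Real.rpow_le_rpow_of_exponent_le (by linarith) (by linarith [min_le_right δ δ'])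
    have g3 : T ^ (1 - δm / 2) = T ^ (1 - δm) * T ^ (δm / 2) := by
      rw [← Real.rpow_add hTpos]
      congr 1
      ring
    have g4 := hT6 T hT3
    have g5 : 0 < T ^ (1 - δm) := Real.rpow_pos_of_pos hTpos _
    rw [g3]
    nlinarith
  refine le_trans ?_ (le_trans (add_le_add (h T hT1) (h' T hT2)) hunion)
  refine (measure_mono ?_).trans (measure_union_le _ _)
  rintro t ⟨ht, hn⟩
  by_cases hPt : P T t
  · right
    exact ⟨ht, fun hQt => hn ⟨hPt, hQt⟩⟩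
  · left
    exact ⟨ht, hPt⟩

lemma AA.of_all {P : ℝ → ℝ → Prop} (T1 : ℝ)
    (h : ∀ T t : ℝ, T1 ≤ T → 100 ≤ T → T ≤ t → t ≤ 2 * T → P T t) : AA P := by
  refine ⟨1, one_pos, max 100 T1, le_max_left _ _, fun T hT => ?_⟩
  have : {t : ℝ | t ∈ Set.Icc T (2 * T) ∧ ¬ P T t} = ∅ := by
    apply Set.eq_empty_of_forall_notMem
    rintro t ⟨ht, hn⟩
    exact hn (h T t ((le_max_right _ _).trans hT) ((le_max_left _ _).trans hT) ht.1 ht.2)
  rw [this, measure_empty]
  exact bot_le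

lemma AA.fin {P : ℕ → ℝ → ℝ → Prop} (s : Finset ℕ) (h : ∀ k ∈ s, AA (P k)) :
    AA (fun T t => ∀ k ∈ s, P k T t) := by
  classical
  induction s using Finset.induction_on with
  | empty =>
    exact AA.of_all 0 fun T t _ _ _ _ k hk => absurd hk (Finset.notMem_empty k)
  | insert a s ha ih =>
    have h1 := h a (Finset.mem_insert_self a s)
    have h2 := ih fun k hk => h k (Finset.mem_insert_of_mem hk)
    refine (h1.and h2).mono 0 fun T t _ _ _ _ hP k hk => ?_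
    rcases Finset.mem_insert.1 hk with rfl | hk
    · exact hP.1
    · exact hP.2 k hk

end Pool.Agent.TH800.AH
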