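import Pool.Agent.TH800.AH.Pl

/-! Comparison of block sums over windows in space and in the index. -/

open Complex Filter Topology Set MeasureTheory

namespace Pool.Agent.TH800.AH

/-- block sums in the index -/
noncomputable def BB (s : ℕ → ℝ) (L n : ℕ) : ℝ := ∑ j ∈ Finset.range L, s (n + j)

/-- the block sums as a step function -/
noncomputable def gg (s y : ℕ → ℝ) (L a b : ℕ) (x : ℝ) : ℝ :=
  ∑ n ∈ Finset.Ico (a + 1) b, (Set.Ico (y n) (y (n + 1))).indicator (fun _ => BB s L (n + 1)) x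

lemma seg (S : Finset ℕ) (n0 : ℕ) (h1 : ∀ m ∈ S, n0 ≤ m)
    (h2 : ∀ m ∈ S, ∀ m', n0 ≤ m' → m' ≤ m → m' ∈ S) : S = Finset.Ico n0 (n0 + S.card) := by
  rcases S.eq_empty_or_nonempty with h | h
  · rw [h]; simp
  · set M := S.max' h with hM
    have hMS : M ∈ S := S.max'_mem h
    have e : S = Finset.Ico n0 (M + 1) := by
      ext m
      rw [Finset.mem_Ico]
      constructor
      · intro hm
        have := S.le_max' m hm
        exact ⟨h1 m hm, by omega⟩
      · rintro ⟨g1, g2⟩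
        exact h2 M hMS m g1 (by omega)
    have hn := h1 M hMS
    have hc : S.card = M + 1 - n0 := by
      conv_lhs => rw [e]
      rw [Nat.card_Ico]
    rw [hc]
    have : n0 + (M + 1 - n0) = M + 1 := by omega
    rw [this]
    exact e

lemma seg_diff (s : ℕ → ℝ) (hs : ∀ n, |s n| ≤ 2) (n0 c L : ℕ) :
    |∑ m ∈ Finset.Ico n0 (n0 + c), s m - ∑ j ∈ Finset.range L, s (n0 + j)| ≤ 2 * |(c : ℝ) - L| := by
  have e1 : ∀ k : ℕ, ∑ m ∈ Finset.Ico n0 (n0 + k), s m = ∑ j ∈ Finset.range k, s (n0 + j) := by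
    intro k
    rw [Finset.sum_Ico_eq_sum_range]
    have : n0 + k - n0 = k := by omega
    rw [this]
  rw [e1]
  have key : ∀ p q : ℕ, p ≤ q → |∑ j ∈ Finset.range q, s (n0 + j) - ∑ j ∈ Finset.range p, s (n0 + j)| ≤
      2 * ((q : ℝ) - p) := by
    intro p q hpq
    rw [Finset.sum_range_add_sum_Ico (fun j => s (n0 + j)) hpq |>.symm, add_sub_cancel_left]
    refine (Finset.abs_sum_le_sum_abs _ _).trans ?_
    refine (Finset.sum_le_sum fun j _ => hs (n0 + j)).trans ?_
    rw [Finset.sum_const, Nat.card_Ico, nsmul_eq_mul, Nat.cast_sub hpq]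
    linarith
  rcases le_total L c with h | h
  · have h1 := key L c h
    have : (L : ℝ) ≤ c := by exact_mod_cast h
    rw [abs_of_nonneg (by linarith : (0 : ℝ) ≤ (c : ℝ) - L)]
    exact h1
  · have h1 := key c L h
    have : (c : ℝ) ≤ L := by exact_mod_cast h
    rw [abs_sub_comm, abs_of_nonpos (by linarith : (c : ℝ) - L ≤ 0)]
    linarith

/-- the pointwise comparison inside the window -/
lemma cmp_in (a b L : ℕ) (s y : ℕ → ℝ) (hs : ∀ n, |s n| ≤ 2)
    (hy : ∀ n m, a + 1 ≤ n → n ≤ m → m ≤ b → y n ≤ y m) (x : ℝ) (n : ℕ)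
    (hn : n ∈ Finset.Ico (a + 1) b) (h1 : y n ≤ x) (h2 : x < y (n + 1)) :
    |hh (Finset.Ioc a b) s y L x - BB s L (n + 1)| ≤
      2 * |hh (Finset.Ioc a b) (fun _ => 1) y L x - L| := by
  classical
  rw [Finset.mem_Ico] at hn
  set S := (Finset.Ioc a b).filter (fun m => x ∈ Set.Ico (y m - L) (y m)) with hS
  have hhS : ∀ s : ℕ → ℝ, hh (Finset.Ioc a b) s y L x = ∑ m ∈ S, s m := by
    intro s
    unfold hh
    rw [hS, Finset.sum_filter]
    refine Finset.sum_congr rfl fun m _ => ?_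
    by_cases h : x ∈ Set.Ico (y m - L) (y m)
    · rw [Set.indicator_of_mem h, if_pos h]
    · rw [Set.indicator_of_notMem h, if_neg h]
  have hge : ∀ m ∈ S, n + 1 ≤ m := by
    intro m hm
    rw [hS, Finset.mem_filter, Finset.mem_Ioc] at hm
    by_contra hcon
    push Not at hcon
    have h3 := hy m n (by omega) (by omega) (by omega)
    have h4 := hm.2.2
    linarith
  have hseg := seg S (n + 1) hge (by
    intro m hm m' hm1 hm2
    have hm0 := hm
    rw [hS, Finset.mem_filter, Finset.mem_Ioc] at hm ⊢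
    refine ⟨⟨by omega, by omega⟩, ?_, ?_⟩
    · have h3 := hy m' m (by omega) hm2 hm.1.2
      have h4 := hm.2.1
      linarith
    · have h3 := hy (n + 1) m' (by omega) hm1 (by omega)
      linarith)
  rw [hhS s, hhS (fun _ => 1), Finset.sum_const, nsmul_eq_mul, mul_one]
  unfold BB
  have h5 := seg_diff s hs (n + 1) S.card L
  rw [← hseg] at h5
  exact h5

/-- values of the step function -/
lemma gg_in (a b : ℕ) (y : ℕ → ℝ)
    (hy : ∀ n m, a + 1 ≤ n → n ≤ m → m ≤ b → y n ≤ y m) (x : ℝ) (n : ℕ)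
    (hn : n ∈ Finset.Ico (a + 1) b) (h1 : y n ≤ x) (h2 : x < y (n + 1)) (f : ℕ → ℝ) :
    ∑ m ∈ Finset.Ico (a + 1) b, (Set.Ico (y m) (y (m + 1))).indicator (fun _ => f m) x = f n := by
  rw [Finset.sum_eq_single n]
  · rw [Set.indicator_of_mem (Set.mem_Ico.2 ⟨h1, h2⟩)]
  · intro m hm hmn
    rw [Finset.mem_Ico] at hm hn
    rw [Set.indicator_of_notMem]
    rintro ⟨g1, g2⟩
    rcases lt_or_gt_of_ne hmn with h | h
    · have := hy (m + 1) n (by omega) (by omega) (by omega)
      linarith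
    · have := hy (n + 1) m (by omega) (by omega) (by omega)
      linarith
  · intro h
    exact absurd hn h

lemma gg_out (a b : ℕ) (y : ℕ → ℝ)
    (hy : ∀ n m, a + 1 ≤ n → n ≤ m → m ≤ b → y n ≤ y m) (x : ℝ)
    (hx : x < y (a + 1) ∨ y b ≤ x) (f : ℕ → ℝ) :
    ∑ m ∈ Finset.Ico (a + 1) b, (Set.Ico (y m) (y (m + 1))).indicator (fun _ => f m) x = 0 := by
  refine Finset.sum_eq_zero fun m hm => ?_
  rw [Finset.mem_Ico] at hm
  rw [Set.indicator_of_notMem]
  rintro ⟨g1, g2⟩
  rcases hx with h | h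
  · have := hy (a + 1) m le_rfl hm.1 (by omega)
    linarith
  · have := hy (m + 1) b (by omega) (by omega) le_rfl
    linarith

lemma find_n (a b : ℕ) (y : ℕ → ℝ) (x : ℝ) (hab : a < b) (h1 : y (a + 1) ≤ x) (h2 : x < y b) :
    ∃ n ∈ Finset.Ico (a + 1) b, y n ≤ x ∧ x < y (n + 1) := by
  classical
  by_contra hcon
  push Not at hcon
  have key : ∀ k : ℕ, a + 1 + k ≤ b → y (a + 1 + k) ≤ x := by
    intro k
    induction k with
    | zero => intro _; simpa using h1
    | succ k ih =>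
      intro hk
      have h3 := ih (by omega)
      have := hcon (a + 1 + k) (Finset.mem_Ico.2 ⟨by omega, by omega⟩) h3
      exact this
  have := key (b - (a + 1)) (by omega)
  have e : a + 1 + (b - (a + 1)) = b := by omega
  rw [e] at this
  linarith

/-- the pointwise comparison -/
theorem cmp_all (a b L : ℕ) (s y : ℕ → ℝ) (hs : ∀ n, |s n| ≤ 2) (hab : a < b)
    (hy : ∀ n m, a + 1 ≤ n → n ≤ m → m ≤ b → y n ≤ y m) (α β : ℝ) (h1 : α ≤ y (a + 1))
    (h2 : y b ≤ β) (x : ℝ) :
    (hh (Finset.Ioc a b) s y L x - gg s y L a b x) ^ 2 ≤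
      8 * (hh (Finset.Ioc a b) (fun _ => 1) y L x -
        (Set.Ico (α - L) β).indicator (fun _ => (L : ℝ)) x) ^ 2 +
      (Set.Ico (α - L) (y (a + 1))).indicator (fun _ => 8 * (L : ℝ) ^ 2) x := by
  have hL0 : (0 : ℝ) ≤ L := Nat.cast_nonneg L
  have hind0 : 0 ≤ (Set.Ico (α - L) (y (a + 1))).indicator (fun _ => 8 * (L : ℝ) ^ 2) x :=
    Set.indicator_nonneg (fun _ _ => by positivity) _
  have hab' : y (a + 1) ≤ y b := hy (a + 1) b le_rfl (by omega) le_rfl
  rcases lt_or_ge x (y (a + 1)) with hx1 | hx1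
  · -- left part
    have hg : gg s y L a b x = 0 := gg_out a b y hy x (Or.inl hx1) _
    rw [hg, sub_zero]
    rcases lt_or_ge x (α - L) with hx2 | hx2
    · have hz : hh (Finset.Ioc a b) s y L x = 0 := by
        unfold hh
        refine Finset.sum_eq_zero fun n hn => ?_
        rw [Finset.mem_Ioc] at hn
        rw [Set.indicator_of_notMem]
        rintro ⟨g1, g2⟩
        have := hy (a + 1) n le_rfl (by omega) hn.2
        linarith
      rw [hz]
      have := sq_nonneg (hh (Finset.Ioc a b) (fun _ => 1) y L x -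
        (Set.Ico (α - L) β).indicator (fun _ => (L : ℝ)) x)
      nlinarith
    · rw [Set.indicator_of_mem (Set.mem_Ico.2 ⟨hx2, hx1⟩),
        Set.indicator_of_mem (Set.mem_Ico.2 ⟨hx2, by linarith⟩)]
      set c := hh (Finset.Ioc a b) (fun _ => 1) y L x with hc
      have hb : |hh (Finset.Ioc a b) s y L x| ≤ 2 * c := by
        rw [hc]
        unfold hh
        rw [Finset.mul_sum]
        refine (Finset.abs_sum_le_sum_abs _ _).trans (Finset.sum_le_sum fun n _ => ?_)
        by_cases h : x ∈ Set.Ico (y n - L) (y n)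
        · rw [Set.indicator_of_mem h, Set.indicator_of_mem h, mul_one]; exact hs n
        · rw [Set.indicator_of_notMem h, Set.indicator_of_notMem h]; simp
      have h3 : hh (Finset.Ioc a b) s y L x ^ 2 ≤ (2 * c) ^ 2 := by
        rw [← sq_abs]
        exact pow_le_pow_left₀ (abs_nonneg _) hb 2
      nlinarith [sq_nonneg (c - 2 * L)]
  · rcases lt_or_ge x (y b) with hx3 | hx3
    · obtain ⟨n, hn, g1, g2⟩ := find_n a b y x hab hx1 hx3
      have hg : gg s y L a b x = BB s L (n + 1) :=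
        gg_in a b y hy x n hn g1 g2 (fun n => BB s L (n + 1))
      rw [hg, Set.indicator_of_mem (Set.mem_Ico.2 ⟨by linarith, by linarith⟩)]
      have h3 := cmp_in a b L s y hs hy x n hn g1 g2
      have h4 : (hh (Finset.Ioc a b) s y L x - BB s L (n + 1)) ^ 2 ≤
          (2 * |hh (Finset.Ioc a b) (fun _ => 1) y L x - L|) ^ 2 := by
        rw [← sq_abs]
        exact pow_le_pow_left₀ (abs_nonneg _) h3 2
      rw [mul_pow, sq_abs] at h4
      have := sq_nonneg (hh (Finset.Ioc a b) (fun _ => 1) y L x - L)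
      linarith
    · have hg : gg s y L a b x = 0 := gg_out a b y hy x (Or.inr hx3) _
      have hz : hh (Finset.Ioc a b) s y L x = 0 := by
        unfold hh
        refine Finset.sum_eq_zero fun n hn => ?_
        rw [Finset.mem_Ioc] at hn
        rw [Set.indicator_of_notMem]
        rintro ⟨g1, g2⟩
        have := hy n b (by omega) hn.2 le_rfl
        linarith
      rw [hg, hz]
      have := sq_nonneg (hh (Finset.Ioc a b) (fun _ => 1) y L x -
        (Set.Ico (α - L) β).indicator (fun _ => (L : ℝ)) x)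
      nlinarith

/-- the integral of the square of the step function -/
theorem gg_sq (a b L : ℕ) (s y : ℕ → ℝ) (hab : a < b)
    (hy : ∀ n m, a + 1 ≤ n → n ≤ m → m ≤ b → y n ≤ y m) :
    Integrable (fun x => gg s y L a b x ^ 2) ∧ ∫ x, gg s y L a b x ^ 2 =
      ∑ n ∈ Finset.Ico (a + 1) b, (y (n + 1) - y n) * BB s L (n + 1) ^ 2 := by
  have e1 : (fun x => gg s y L a b x ^ 2) = fun x => ∑ n ∈ Finset.Ico (a + 1) b,
      (Set.Ico (y n) (y (n + 1))).indicator (fun _ => BB s L (n + 1) ^ 2) x := by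
    funext x
    by_cases hx : y (a + 1) ≤ x ∧ x < y b
    · obtain ⟨n, hn, g1, g2⟩ := find_n a b y x hab hx.1 hx.2
      unfold gg
      rw [gg_in a b y hy x n hn g1 g2 (fun n => BB s L (n + 1)),
        gg_in a b y hy x n hn g1 g2 (fun n => BB s L (n + 1) ^ 2)]
    · have hx' : x < y (a + 1) ∨ y b ≤ x := by
        by_contra hcon
        push Not at hcon
        exact hx hcon
      unfold gg
      rw [gg_out a b y hy x hx' (fun n => BB s L (n + 1)),
        gg_out a b y hy x hx' (fun n => BB s L (n + 1) ^ 2)]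
      norm_num
  rw [e1]
  refine ⟨integrable_finsetSum _ fun n _ => ind_ico_int _ _ _, ?_⟩
  rw [integral_finsetSum _ fun n _ => ind_ico_int _ _ _]
  refine Finset.sum_congr rfl fun n hn => ?_
  rw [Finset.mem_Ico] at hn
  rw [integral_indicator measurableSet_Ico, setIntegral_const, smul_eq_mul,
    Real.volume_real_Ico_of_le (hy n (n + 1) hn.1 (by omega) (by omega))]

/-- the comparison of the mean squares -/
theorem cmp_int (a b L : ℕ) (s y : ℕ → ℝ) (hs : ∀ n, |s n| ≤ 2) (hab : a < b)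
    (hy : ∀ n m, a + 1 ≤ n → n ≤ m → m ≤ b → y n ≤ y m) (α β : ℝ) (h1 : α ≤ y (a + 1))
    (h2 : y b ≤ β) (δ : ℝ) (hδ : 0 < δ) :
    ∫ x, hh (Finset.Ioc a b) s y L x ^ 2 ≤
      (1 + δ) * ∑ n ∈ Finset.Ico (a + 1) b, (y (n + 1) - y n) * BB s L (n + 1) ^ 2 +
      (1 + 1 / δ) * (8 * (∫ x, (hh (Finset.Ioc a b) (fun _ => 1) y L x -
        (Set.Ico (α - L) β).indicator (fun _ => (L : ℝ)) x) ^ 2) +
        8 * (L : ℝ) ^ 2 * (y (a + 1) - α + L)) := by
  obtain ⟨hg, hgv⟩ := gg_sq a b L s y hab hy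
  have hh2 := sq_integrable (Finset.Ioc a b) s y L
  have hL0 : (0 : ℝ) ≤ L := Nat.cast_nonneg L
  set c : ℝ → ℝ := hh (Finset.Ioc a b) (fun _ => 1) y L with hc
  set J := Set.Ico (α - L) β with hJ
  have hci : Integrable c := hh_int _ _ _ _
  have hJi : Integrable (J.indicator (fun _ => (L : ℝ))) := ind_ico_int _ _ _
  have hcb : ∀ x, |c x - J.indicator (fun _ => (L : ℝ)) x| ≤ (Finset.Ioc a b).card + L := by
    intro x
    refine (abs_sub _ _).trans (add_le_add ?_ ?_)
    · rw [hc]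
      unfold hh
      refine (Finset.abs_sum_le_sum_abs _ _).trans ?_
      refine (Finset.sum_le_sum (g := fun _ => (1 : ℝ)) fun n _ => ?_).trans (by simp)
      by_cases h : x ∈ Set.Ico (y n - L) (y n)
      · rw [Set.indicator_of_mem h]; norm_num
      · rw [Set.indicator_of_notMem h]; norm_num
    · by_cases h : x ∈ J
      · rw [Set.indicator_of_mem h, abs_of_nonneg hL0]
      · rw [Set.indicator_of_notMem h]; simp
  have hdi : Integrable (fun x => (c x - J.indicator (fun _ => (L : ℝ)) x) ^ 2) := by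
    have h3 := (hci.sub hJi).bdd_mul (c := (Finset.Ioc a b).card + L)
      (hci.sub hJi).aestronglyMeasurable (Filter.Eventually.of_forall fun x => by
        rw [Real.norm_eq_abs]; exact hcb x)
    refine h3.congr (Filter.Eventually.of_forall fun x => ?_)
    simp only [Pi.sub_apply, sq]
  have hEi : Integrable ((Set.Ico (α - L) (y (a + 1))).indicator (fun _ => 8 * (L : ℝ) ^ 2)) :=
    ind_ico_int _ _ _
  have hEv : ∫ x, (Set.Ico (α - L) (y (a + 1))).indicator (fun _ => 8 * (L : ℝ) ^ 2) x =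
      8 * (L : ℝ) ^ 2 * (y (a + 1) - α + L) := by
    rw [integral_indicator measurableSet_Ico, setIntegral_const, smul_eq_mul,
      Real.volume_real_Ico_of_le (by linarith)]
    ring
  have hpt : ∀ x, hh (Finset.Ioc a b) s y L x ^ 2 ≤ (1 + δ) * gg s y L a b x ^ 2 +
      (1 + 1 / δ) * (8 * (c x - J.indicator (fun _ => (L : ℝ)) x) ^ 2 +
      (Set.Ico (α - L) (y (a + 1))).indicator (fun _ => 8 * (L : ℝ) ^ 2) x) := by
    intro x
    have h3 := cmp_all a b L s y hs hab hy α β h1 h2 x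
    set A := hh (Finset.Ioc a b) s y L x
    set B := gg s y L a b x
    have h4 : A ^ 2 ≤ (1 + δ) * B ^ 2 + (1 + 1 / δ) * (A - B) ^ 2 := by
      have h5 : 0 ≤ (δ * B - (A - B)) ^ 2 / δ := by positivity
      have h6 : (δ * B - (A - B)) ^ 2 / δ = δ * B ^ 2 - 2 * (B * (A - B)) + 1 / δ * (A - B) ^ 2 := by
        field_simp
        ring
      have h7 : A ^ 2 = B ^ 2 + 2 * (B * (A - B)) + (A - B) ^ 2 := by ring
      linarith
    have h5 : 0 ≤ 1 + 1 / δ := by positivity
    have h6 := mul_le_mul_of_nonneg_left h3 h5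
    linarith
  have hi1 : Integrable (fun x => (1 + δ) * gg s y L a b x ^ 2) := hg.const_mul _
  have hi2 : Integrable (fun x => 8 * (c x - J.indicator (fun _ => (L : ℝ)) x) ^ 2 +
      (Set.Ico (α - L) (y (a + 1))).indicator (fun _ => 8 * (L : ℝ) ^ 2) x) :=
    (hdi.const_mul 8).add hEi
  have hi3 : Integrable (fun x => (1 + 1 / δ) *
      (8 * (c x - J.indicator (fun _ => (L : ℝ)) x) ^ 2 +
      (Set.Ico (α - L) (y (a + 1))).indicator (fun _ => 8 * (L : ℝ) ^ 2) x)) :=
    hi2.const_mul (1 + 1 / δ)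
  have h3 : ∫ x, hh (Finset.Ioc a b) s y L x ^ 2 ≤ ∫ x, ((1 + δ) * gg s y L a b x ^ 2 +
      (1 + 1 / δ) * (8 * (c x - J.indicator (fun _ => (L : ℝ)) x) ^ 2 +
      (Set.Ico (α - L) (y (a + 1))).indicator (fun _ => 8 * (L : ℝ) ^ 2) x)) :=
    integral_mono hh2 (hi1.add hi3) hpt
  rw [integral_add hi1 hi3, integral_const_mul, integral_const_mul, hgv,
    integral_add (hdi.const_mul 8) hEi, integral_const_mul, hEv] at h3
  exact h3

end Pool.Agent.TH800.AH
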