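import Pool.Agent.TH800.AH.Mt
import Pool.Agent.H345R2.SI.Count

/-! The number of zeros in a window and the first gap. -/

open Complex Filter Topology Set MeasureTheory

namespace Pool.Agent.TH800.AH

open H177.Lat H370.A2
open SG (ord NZ zmult)

lemma NN_le (a b : ℝ) (ha : 1 ≤ a) (hab : a ≤ b) :
    NZ a + H370.NN riemannZeta a b ≤ NZ b := by
  have hfin : (H370.zset riemannZeta a b).Finite :=
    H370.zset_finite H370.good_zeta a b (by linarith)
  have h4 := SG.NZ_add_le a b hab hfin.toFinset (by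
    intro s hs
    rw [Set.Finite.mem_toFinset] at hs
    obtain ⟨s1, s2, s3, s4, s5⟩ := hs
    exact ⟨⟨s5, s1, s2, by linarith, s4⟩, s3⟩)
  have h5 : H370.NN riemannZeta a b = ∑ s ∈ hfin.toFinset, zmult s := by
    unfold H370.NN
    rw [finsum_mem_eq_finite_toFinset_sum _ hfin]
    rfl
  rw [h5]
  exact h4

/-- enough zeros in every interval of length `η T` -/
theorem cnt_low (η ε : ℝ) (hη : 0 < η) (hη1 : η ≤ 1) (hε : 0 < ε) : ∃ T1 : ℝ, 100 ≤ T1 ∧
    ∀ T t : ℝ, T1 ≤ T → T ≤ t → t ≤ 2 * T →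
      (1 - ε) * (η * T * Real.log T / (2 * Real.pi)) ≤ (NZ (t + η * T) : ℝ) - NZ t := by
  obtain ⟨C, hC, h⟩ := H370.SI.nn_short H370.good_zeta
  have hpi := Real.pi_pos
  have hpi4 := Real.pi_lt_four
  have ev1 : ∀ᶠ T : ℝ in atTop, 3 ≤ η * T :=
    (tendsto_id.const_mul_atTop hη).eventually_ge_atTop 3
  have ev2 : ∀ᶠ T : ℝ in atTop, 16 * C / ε ≤ Real.log T :=
    Real.tendsto_log_atTop.eventually_ge_atTop _
  have ev3 : ∀ᶠ T : ℝ in atTop, 64 * C * Real.log T ≤ ε * η * T := by
    have h1 := Real.isLittleO_log_id_atTop.bound (show (0 : ℝ) < ε * η / (64 * C) by positivity)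
    filter_upwards [h1, eventually_ge_atTop 1] with T h2 h3
    rw [Real.norm_of_nonneg (Real.log_nonneg h3), id, Real.norm_of_nonneg (by linarith)] at h2
    rw [div_mul_eq_mul_div, le_div_iff₀ (by positivity)] at h2
    linarith
  obtain ⟨T0, hT0⟩ := (ev1.and (ev2.and ev3)).exists_forall_of_atTop
  refine ⟨max 100 T0, le_max_left _ _, fun T t hT ht1 ht2 => ?_⟩
  have hT100 : 100 ≤ T := (le_max_left _ _).trans hT
  obtain ⟨g1, g2, g3⟩ := hT0 T ((le_max_right _ _).trans hT)
  have hTpos : 0 < T := by linarith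
  have hLpos : 0 < Real.log T := Real.log_pos (by linarith)
  have hηT : η * T ≤ T := by nlinarith
  have h1 := h t (by linarith) t (t + η * T) le_rfl (by linarith) (by linarith)
  have h2 := (abs_le.1 h1).1
  have e1 : t + η * T - t = η * T := by ring
  rw [e1] at h2
  have h3 : (NZ t : ℝ) + (H370.NN riemannZeta t (t + η * T) : ℝ) ≤ NZ (t + η * T) := by
    exact_mod_cast NN_le t (t + η * T) (by linarith) (by linarith)
  have hlt : Real.log T ≤ Real.log t := Real.log_le_log hTpos ht1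
  have hlt2 : Real.log t ≤ 2 * Real.log T := by
    have h4 : Real.log t ≤ Real.log (2 * T) := Real.log_le_log (by linarith) ht2
    rw [Real.log_mul (by norm_num) hTpos.ne'] at h4
    have h5 : Real.log 2 ≤ Real.log T := Real.log_le_log (by norm_num) (by linarith)
    linarith
  have h6 : η * T * Real.log T / (2 * Real.pi) ≤ η * T * Real.log t / (2 * Real.pi) := by
    gcongr
  have h7 : (Real.log t) ^ 2 ≤ 4 * Real.log T * Real.log T := by
    nlinarith
  have h8 : C * (η * T + Real.log t ^ 2) ≤ ε * (η * T * Real.log T / (2 * Real.pi)) := by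
    have h9 : ε * (η * T * Real.log T / (2 * Real.pi)) = ε * (η * T * Real.log T) / (2 * Real.pi) := by
      ring
    rw [h9, le_div_iff₀ (by positivity)]
    have h10 : C * (η * T + Real.log t ^ 2) * (2 * Real.pi) ≤
        C * (η * T + 4 * Real.log T * Real.log T) * 8 := by
      have : 0 ≤ C * (η * T + Real.log t ^ 2) := by positivity
      have h11 : C * (η * T + Real.log t ^ 2) ≤ C * (η * T + 4 * Real.log T * Real.log T) :=
        mul_le_mul_of_nonneg_left (by linarith) hC.le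
      nlinarith
    refine h10.trans ?_
    rw [div_le_iff₀ hε] at g2
    have h12 : 16 * C * (η * T) ≤ Real.log T * ε * (η * T) :=
      mul_le_mul_of_nonneg_right g2 (by positivity)
    have h13 : 64 * C * Real.log T * Real.log T ≤ ε * η * T * Real.log T :=
      mul_le_mul_of_nonneg_right g3 hLpos.le
    nlinarith
  linarith

lemma Mw_pos {T : ℝ} (hT : 100 ≤ T) : 0 < Mw T := by
  unfold Mw
  have := Real.log_pos (by linarith : (1 : ℝ) < T)
  have := Real.pi_pos
  positivity

/-- lower bound for the number of zeros in the window -/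
theorem card_low (ε : ℝ) (hε : 0 < ε) : ∃ T1 : ℝ, 100 ≤ T1 ∧
    ∀ T t : ℝ, T1 ≤ T → T ≤ t → t ≤ 2 * T → (1 - ε) * Mw T ≤ ((Iw T t).card : ℝ) := by
  obtain ⟨T1, hT1, h⟩ := cnt_low (1 / 8) ε (by norm_num) (by norm_num) hε
  refine ⟨T1, hT1, fun T t hT ht1 ht2 => ?_⟩
  have h1 := h T t hT ht1 ht2
  have e1 : t + 1 / 8 * T = t + T / 8 := by ring
  have e2 : 1 / 8 * T * Real.log T / (2 * Real.pi) = Mw T := by unfold Mw; ring
  rw [e1, e2] at h1
  unfold Iw
  rw [Nat.card_Ioc, Nat.cast_sub (SG.NZ_mono (by linarith))]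
  exact h1

/-- the first gap is small against the length of the window -/
theorem first_gap (η : ℝ) (hη : 0 < η) (hη1 : η ≤ 1 / 8) : ∃ T1 : ℝ, 100 ≤ T1 ∧
    ∀ T t : ℝ, T1 ≤ T → T ≤ t → t ≤ 2 * T →
      NZ t < NZ (t + T / 8) ∧ ord (NZ t + 1) ≤ t + η * T := by
  obtain ⟨T1, hT1, h⟩ := cnt_low η (1 / 2) hη (by linarith) (by norm_num)
  refine ⟨T1, hT1, fun T t hT ht1 ht2 => ?_⟩
  have h1 := h T t hT ht1 ht2
  have hTpos : 0 < T := by linarith
  have hLpos : 0 < Real.log T := Real.log_pos (by linarith)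
  have hpi := Real.pi_pos
  have h2 : 0 < (1 - 1 / 2) * (η * T * Real.log T / (2 * Real.pi)) := by
    have : 0 < η * T * Real.log T / (2 * Real.pi) := by positivity
    linarith
  have h3 : (NZ t : ℝ) < NZ (t + η * T) := by linarith
  have h4 : NZ t < NZ (t + η * T) := by exact_mod_cast h3
  refine ⟨h4.trans_le (SG.NZ_mono (by nlinarith)), ?_⟩
  exact (SG.ord_le_iff (by omega) _).mpr h4

end Pool.Agent.TH800.AH
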