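import Pool.Agent.TH800.AH.Rc

/-! The first `N` zeros. -/

open Complex Filter Topology Set MeasureTheory

namespace Pool.Agent.TH800.AH

open H177.Lat H370.A2
open SG (ord NZ)

lemma NZ_NN (T : ℝ) : (NZ T : ℝ) = H370.NN riemannZeta 0 T := by
  have h : {s : ℂ | riemannZeta s = 0 ∧ 0 < s.re ∧ s.re < 1 ∧ 0 < s.im ∧ s.im ≤ T} =
      H370.zset riemannZeta 0 T := by
    ext s
    simp only [H370.zset, Set.mem_ofPred_eq]
    tauto
  have h2 : NZ T = H370.NN riemannZeta 0 T := by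
    unfold SG.NZ H370.NN
    rw [h]; rfl
  exact_mod_cast h2

/-- upper bound for the number of zeros -/
lemma NZ_up (η : ℝ) (hη : 0 < η) (hη1 : η ≤ 1) : ∃ Y1 : ℝ, 100 ≤ Y1 ∧ ∀ y : ℝ, Y1 ≤ y →
    (NZ (y + 1) : ℝ) ≤ (1 + η) * (y * Real.log y / (2 * Real.pi)) := by
  obtain ⟨C, T0, hC, hT0, h⟩ := Pool.Agent.W54.TCF.NT_asymp
  have hpi := Real.pi_pos
  have hpi4 := Real.pi_lt_four
  obtain ⟨T2, hT2⟩ := (Real.tendsto_log_atTop.eventually_ge_atTop
    (max (4 / η) (64 * C / η))).exists_forall_of_atTop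
  refine ⟨max 100 (max T0 (max T2 (4 / η))), le_max_left _ _, fun y hy => ?_⟩
  have hy100 : 100 ≤ y := (le_max_left _ _).trans hy
  have hyT0 : T0 ≤ y := ((le_max_left _ _).trans (le_max_right _ _)).trans hy
  have hy3 : max T2 (4 / η) ≤ y := ((le_max_right _ _).trans (le_max_right _ _)).trans hy
  have hyT2 := hT2 y ((le_max_left _ _).trans hy3)
  have hy4 : 4 / η ≤ y := (le_max_right _ _).trans hy3
  have hl1 : 4 / η ≤ Real.log y := (le_max_left _ _).trans hyT2
  have hl2 : 64 * C / η ≤ Real.log y := (le_max_right _ _).trans hyT2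
  rw [div_le_iff₀ hη] at hy4 hl1 hl2
  have hy0 : 0 < y := by linarith
  have hly : 0 < Real.log y := Real.log_pos (by linarith)
  rw [NZ_NN]
  have h1 := (abs_le.1 (h (y + 1) (by linarith))).2
  have h2 : y + 1 ≤ (1 + η / 4) * y := by nlinarith
  have h3 : Real.log (y + 1) ≤ (1 + η / 4) * Real.log y := by
    have h4 : Real.log (y + 1) ≤ Real.log (2 * y) := Real.log_le_log (by linarith) (by linarith)
    rw [Real.log_mul (by norm_num) hy0.ne'] at h4
    have h5 : Real.log 2 ≤ 1 := by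
      have := Real.log_le_sub_one_of_pos (show (0 : ℝ) < 2 by norm_num)
      linarith
    nlinarith
  have h4 : (y + 1) * Real.log (y + 1) ≤ (1 + η / 4) ^ 2 * (y * Real.log y) := by
    have h5 : (y + 1) * Real.log (y + 1) ≤ ((1 + η / 4) * y) * ((1 + η / 4) * Real.log y) := by
      apply mul_le_mul h2 h3 (Real.log_nonneg (by linarith)) (by positivity)
    linarith
  have h5 : (y + 1) * Real.log (y + 1) / (2 * Real.pi) ≤
      (1 + η / 4) ^ 2 * (y * Real.log y / (2 * Real.pi)) := by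
    rw [← mul_div_assoc]
    exact div_le_div_of_nonneg_right h4 (by positivity)
  have h6 : C * (y + 1) ≤ η / 4 * (y * Real.log y / (2 * Real.pi)) := by
    rw [← mul_div_assoc, le_div_iff₀ (by positivity)]
    have h7 : C * (y + 1) * (2 * Real.pi) ≤ C * (2 * y) * 8 := by
      apply mul_le_mul _ (by linarith) (by positivity) (by positivity)
      exact mul_le_mul_of_nonneg_left (by linarith) hC.le
    have h8 : 64 * C * y ≤ Real.log y * η * y := mul_le_mul_of_nonneg_right hl2 hy0.le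
    linarith
  have h7 : 0 < y * Real.log y / (2 * Real.pi) := by positivity
  have h8 : ((1 + η / 4) ^ 2 + η / 4) * (y * Real.log y / (2 * Real.pi)) ≤
      (1 + η) * (y * Real.log y / (2 * Real.pi)) := by
    apply mul_le_mul_of_nonneg_right _ h7.le
    nlinarith
  linarith

/-- the main theorem for real signs -/
theorem main0 (hRH : RiemannHypothesis) (δ : ℝ) (hδ : 0 < δ) (hδ1 : δ ≤ 1) :
    ∃ L0 : ℕ, ∀ L : ℕ, L0 ≤ L → ∃ ε : ℝ, 0 < ε ∧ ∃ N0 : ℕ, ∀ N : ℕ, N0 ≤ N →
      ∀ σ : ℕ → ℝ, Sg σ → ∀ m0 : ℝ, |m0| ≤ 1 →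
        ∑ n ∈ Finset.Icc 1 N, BB (fun n => σ n - m0) L n ^ 2 ≤ (1 - δ) * L * N →
        ε * N ≤ ({n : ℕ | 1 ≤ n ∧ n ≤ N ∧ Ex σ ε n}.ncard : ℝ) := by
  set d : ℝ := δ / 20 with hd
  have hd0 : 0 < d := by positivity
  have hd1 : d ≤ 1 / 20 := by linarith
  obtain ⟨L0, hL0, hrec⟩ := rec_all hRH d hd0 hd1
  refine ⟨L0, fun L hL => ?_⟩
  have hL8 : (8 : ℝ) ≤ L := by exact_mod_cast hL0.trans hL
  -- the number of steps
  obtain ⟨k, hk⟩ : ∃ k : ℕ, (8 / (9 + d)) ^ k < d := by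
    apply exists_pow_lt_of_lt_one hd0
    rw [div_lt_one (by positivity)]
    linarith
  obtain ⟨c, hc, Y0, hY0, hmain⟩ := hrec L hL k
  obtain ⟨Y1, hY1, hNZ⟩ := NZ_up d hd0 (by linarith)
  set ε : ℝ := min c (c / 2) with hε
  have hε0 : 0 < ε := lt_min hc (by positivity)
  have hεc : ε ≤ c := min_le_left _ _
  refine ⟨ε, hε0, NZ (max Y0 Y1 + 1), fun N hN σ hσ m0 hm hvar => ?_⟩
  set Y : ℝ := ord (N + 1) - 1 with hY
  have hYbig : max Y0 Y1 < Y := by
    have h1 : max Y0 Y1 + 1 < ord (N + 1) := by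
      by_contra hcon
      push Not at hcon
      have := (SG.ord_le_iff (by omega : 1 ≤ N + 1) _).mp hcon
      omega
    rw [hY]
    linarith
  have hYY0 : Y0 ≤ Y := (le_max_left _ _).trans hYbig.le
  have hYY1 : Y1 ≤ Y := (le_max_right _ _).trans hYbig.le
  have hNZY : NZ Y ≤ N := by
    by_contra hcon
    push Not at hcon
    have h1 := (SG.ord_le_iff (by omega : 1 ≤ N + 1) Y).mpr hcon
    rw [hY] at h1
    linarith
  have hNup : (N : ℝ) ≤ (1 + d) * (Y * Real.log Y / (2 * Real.pi)) := by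
    have h1 : N + 1 ≤ NZ (Y + 1) := by
      have h2 := SG.le_NZ_ord (n := N + 1) (by omega)
      have h3 : Y + 1 = ord (N + 1) := by rw [hY]; ring
      rw [h3]
      exact h2
    have h2 : (N : ℝ) ≤ NZ (Y + 1) := by
      have : N ≤ NZ (Y + 1) := by omega
      exact_mod_cast this
    exact h2.trans (hNZ Y hYY1)
  have hpi := Real.pi_gt_three
  have hY100 : 100 ≤ Y := hY0.trans hYY0
  have hlY : 0 < Real.log Y := Real.log_pos (by linarith)
  have hf0 : 0 < Y * Real.log Y / (2 * Real.pi) := by positivity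
  rcases hmain Y hYY0 σ hσ m0 hm with hb | hb
  · have h1 : EY σ c Y ≤ ({n : ℕ | 1 ≤ n ∧ n ≤ N ∧ Ex σ ε n}.ncard : ℝ) := by
      unfold EY
      have hsub : {n : ℕ | 1 ≤ n ∧ ord n ≤ Y ∧ Ex σ c n} ⊆ {n : ℕ | 1 ≤ n ∧ n ≤ N ∧ Ex σ ε n} := by
        rintro n ⟨g1, g2, g3⟩
        exact ⟨g1, ((SG.ord_le_iff g1 _).mp g2).trans hNZY, Ex_anti hεc g3⟩
      have hfin : {n : ℕ | 1 ≤ n ∧ n ≤ N ∧ Ex σ ε n}.Finite :=
        (Set.finite_Iic N).subset fun n hn => hn.2.1
      exact_mod_cast Set.ncard_le_ncard hsub hfin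
    refine le_trans ?_ (hb.trans h1)
    have h2 : (N : ℝ) ≤ Y * Real.log Y := by
      refine hNup.trans ?_
      have h3 : Y * Real.log Y / (2 * Real.pi) ≤ Y * Real.log Y / 2 := by
        apply div_le_div_of_nonneg_left (by positivity) (by norm_num)
        linarith
      have h4 : (1 + d) * (Y * Real.log Y / (2 * Real.pi)) ≤ 2 * (Y * Real.log Y / 2) := by
        apply mul_le_mul (by linarith) h3 hf0.le (by norm_num)
      linarith
    exact mul_le_mul hεc h2 (Nat.cast_nonneg _) hc.le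
  · exfalso
    have h1 : SY σ m0 L Y ≤ ∑ n ∈ Finset.Icc 1 N, BB (fun n => σ n - m0) L n ^ 2 := by
      unfold SY
      apply Finset.sum_le_sum_of_subset_of_nonneg
      · intro n hn
        rw [Finset.mem_Icc] at hn ⊢
        omega
      · intro n _ _
        exact sq_nonneg _
    have h2 : (1 - δ) * L * N ≤ (1 - δ) * L * ((1 + d) * (Y * Real.log Y / (2 * Real.pi))) := by
      apply mul_le_mul_of_nonneg_left hNup
      have : 0 ≤ 1 - δ := by linarith
      positivity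
    have h3 : th d ((1 - 13 * d) * L) k * (Y * Real.log Y / (2 * Real.pi)) ≤
        (1 - δ) * L * ((1 + d) * (Y * Real.log Y / (2 * Real.pi))) :=
      hb.trans (h1.trans (hvar.trans h2))
    have h4 : th d ((1 - 13 * d) * L) k ≤ (1 - δ) * L * (1 + d) := by
      have h5 : th d ((1 - 13 * d) * L) k * (Y * Real.log Y / (2 * Real.pi)) ≤
        ((1 - δ) * L * (1 + d)) * (Y * Real.log Y / (2 * Real.pi)) := by linarith
      exact le_of_mul_le_mul_right h5 hf0
    unfold th at h4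
    have h5 : (1 - 13 * d) * L / (1 + d) * (1 - d) ≤
        (1 - 13 * d) * L / (1 + d) * (1 - (8 / (9 + d)) ^ k) := by
      apply mul_le_mul_of_nonneg_left (by linarith)
      have : 0 ≤ 1 - 13 * d := by linarith
      positivity
    have h6 : (1 - 13 * d) * L / (1 + d) * (1 - d) = ((1 - 13 * d) * (1 - d)) * L / (1 + d) := by
      ring
    rw [h6] at h5
    have h7 := h5.trans h4
    rw [div_le_iff₀ (by positivity)] at h7
    have h8 : (1 - 13 * d) * (1 - d) ≤ (1 - δ) * (1 + d) * (1 + d) := by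
      have h9 : ((1 - 13 * d) * (1 - d)) * L ≤ ((1 - δ) * (1 + d) * (1 + d)) * L := by linarith
      exact le_of_mul_le_mul_right h9 (by linarith)
    have h9 : δ = 20 * d := by rw [hd]; ring
    rw [h9] at h8
    nlinarith [pow_pos hd0 2, pow_pos hd0 3]

end Pool.Agent.TH800.AH
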