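import Pool.Agent.TH800.AH.Mj
import Pool.Agent.TH800.AH.Ct

/-! The variance of the number of zeros in windows of `L` mean spacings. -/

open Complex Filter Topology Set MeasureTheory

namespace Pool.Agent.TH800.AH

open H177.Lat H370.A2
open SG (ord NZ)

lemma KS_neg (I : Finset ℕ) (s y : ℕ → ℝ) (e τ : ℝ) : KS I s y e (-τ) = KS I s y e τ := by
  unfold KS
  refine Finset.sum_congr rfl fun n _ => Finset.sum_congr rfl fun n' _ => ?_
  have : 2 * Real.pi * -τ * (y n - y n') = -(2 * Real.pi * τ * (y n - y n')) := by ring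
  rw [this, Real.cos_neg]

lemma KS_le (I : Finset ℕ) (y : ℕ → ℝ) {e : ℝ} (he : 0 < e) (τ : ℝ) :
    KS I (fun _ => 1) y e τ ≤ KS I (fun _ => 1) y e 0 := by
  unfold KS
  refine Finset.sum_le_sum fun n _ => Finset.sum_le_sum fun n' _ => ?_
  have h1 := KK_nonneg he (y n - y n')
  have h2 := Real.cos_le_one (2 * Real.pi * τ * (y n - y n'))
  simp only [mul_zero, zero_mul, Real.cos_zero, mul_one, one_mul]
  nlinarith

lemma inv_sq_sum (N : ℕ) : ∑ j ∈ Finset.Icc 1 N, 1 / (j : ℝ) ^ 2 ≤ 2 := by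
  have h := sum_Ioo_inv_sq_le (α := ℝ) 0 (N + 1)
  have e1 : Finset.Ioo 0 (N + 1) = Finset.Icc 1 N := by
    ext j
    rw [Finset.mem_Ioo, Finset.mem_Icc]
    omega
  rw [e1] at h
  simp only [Nat.cast_zero, zero_add, div_one] at h
  refine le_trans (le_of_eq ?_) h
  exact Finset.sum_congr rfl fun j _ => one_div _

lemma inv_sum (N : ℕ) : ∑ j ∈ Finset.Icc 1 N, 1 / (j : ℝ) ≤ 1 + Real.log N := by
  have h := harmonic_le_one_add_log N
  rw [harmonic_eq_sum_Icc] at h
  refine le_trans (le_of_eq ?_) h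
  push_cast
  exact Finset.sum_congr rfl fun j _ => one_div _

/-- the mean square of the counting function against pair sums -/
theorem P_le (I : Finset ℕ) (y : ℕ → ℝ) (L K : ℕ) (hL : 4 ≤ L) (hK : L ≤ 4 * K) :
    ∫ w, sk L w * ‖GG I (fun _ => 1) y w‖ ^ 2 ≤ KS I (fun _ => 1) y (1 / L) 0 +
      2 * ∑ k ∈ Finset.Icc 1 K, 1 / (k : ℝ) ^ 2 * KS I (fun _ => 1) y (1 / L) (k * (1 / L)) +
      15 / (L : ℝ) ^ 2 * KS I (fun _ => 1) y (1 / 2) 0 := by
  have hL0 : (0 : ℝ) < L := by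
    have : (4 : ℝ) ≤ L := by exact_mod_cast hL
    linarith
  have he1 : (0 : ℝ) < 1 / L := by positivity
  have he2 : (0 : ℝ) < 1 / 2 := by norm_num
  set s : ℕ → ℝ := fun _ => 1 with hs
  set S : ℝ → ℝ := fun w => ‖GG I s y w‖ ^ 2 with hS
  have hS0 : ∀ w, 0 ≤ S w := fun w => by simp only [hS]; positivity
  have hSc : Continuous S := (GG_cont I s y).norm.pow 2
  obtain ⟨hint, _⟩ := planch I s y hL0
  have hk := fun (e : ℝ) (he : 0 < e) (τ : ℝ) => kernelG I s y he τ
  have hB0 : 0 ≤ KS I s y (1 / 2) 0 := by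
    rw [← (hk (1 / 2) he2 0).2]
    exact integral_nonneg fun w => mul_nonneg (tri_nonneg _ _) (hS0 w)
  have key : ∀ N : ℕ, ∫ w in (-((N : ℝ) / 4))..((N : ℝ) / 4), sk L w * S w ≤
      KS I s y (1 / L) 0 +
      2 * ∑ k ∈ Finset.Icc 1 K, 1 / (k : ℝ) ^ 2 * KS I s y (1 / L) (k * (1 / L)) +
      15 / (L : ℝ) ^ 2 * KS I s y (1 / 2) 0 := by
    intro N
    have hN0 : (0 : ℝ) ≤ N := Nat.cast_nonneg N
    -- the integral of the majorant
    have i1 := hk (1 / L) he1 0
    have i2 : ∀ k ∈ Finset.Icc 1 K, Integrable (fun w => 1 / (k : ℝ) ^ 2 *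
        (tri (1 / L) (w + -(k * (1 / L))) * S w + tri (1 / L) (w + k * (1 / L)) * S w)) :=
      fun k _ => (((hk (1 / L) he1 (-(k * (1 / L)))).1).add
        ((hk (1 / L) he1 (k * (1 / L))).1)).const_mul _
    have i3 : ∀ j ∈ Finset.Icc 1 N, Integrable (fun w => 32 / (9 * (L : ℝ) ^ 2) * (1 / (j : ℝ) ^ 2) *
        (tri (1 / 2) (w + -(j / 4)) * S w + tri (1 / 2) (w + j / 4) * S w)) :=
      fun j _ => (((hk (1 / 2) he2 (-(j / 4))).1).add ((hk (1 / 2) he2 (j / 4)).1)).const_mul _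
    let f1 : ℝ → ℝ := fun w => tri (1 / L) (w + 0) * S w
    let f2 : ℝ → ℝ := fun w => ∑ k ∈ Finset.Icc 1 K, 1 / (k : ℝ) ^ 2 *
        (tri (1 / L) (w + -(k * (1 / L))) * S w + tri (1 / L) (w + k * (1 / L)) * S w)
    let f3 : ℝ → ℝ := fun w => ∑ j ∈ Finset.Icc 1 N, 32 / (9 * (L : ℝ) ^ 2) * (1 / (j : ℝ) ^ 2) *
        (tri (1 / 2) (w + -(j / 4)) * S w + tri (1 / 2) (w + j / 4) * S w)
    have hf1 : Integrable f1 := i1.1
    have hf2 : Integrable f2 := integrable_finsetSum _ i2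
    have hf3 : Integrable f3 := integrable_finsetSum _ i3
    have hf12 : Integrable (fun w => f1 w + f2 w) := hf1.add hf2
    have eQ : (fun w => Qm L K N w * S w) = fun w => (f1 w + f2 w) + f3 w := by
      funext w
      simp only [f1, f2, f3]
      unfold Qm
      rw [add_mul, add_mul, Finset.sum_mul, Finset.sum_mul]
      congr 1
      · congr 1
        exact Finset.sum_congr rfl fun k _ => by ring
      · exact Finset.sum_congr rfl fun j _ => by ring
    have hQi : Integrable (fun w => Qm L K N w * S w) := by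
      rw [eQ]
      exact hf12.add hf3
    have hQ0 : ∀ w, 0 ≤ Qm L K N w * S w := by
      intro w
      refine mul_nonneg ?_ (hS0 w)
      unfold Qm
      refine add_nonneg (add_nonneg (tri_nonneg _ _) (Finset.sum_nonneg fun k _ => ?_))
        (Finset.sum_nonneg fun k _ => ?_)
      · have := tri_nonneg (1 / L) (w + -((k : ℝ) * (1 / L)))
        have := tri_nonneg (1 / L) (w + (k : ℝ) * (1 / L))
        positivity
      · have := tri_nonneg (1 / 2) (w + -((k : ℝ) / 4))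
        have := tri_nonneg (1 / 2) (w + (k : ℝ) / 4)
        positivity
    have h1 : ∫ w in (-((N : ℝ) / 4))..((N : ℝ) / 4), sk L w * S w ≤
        ∫ w in (-((N : ℝ) / 4))..((N : ℝ) / 4), Qm L K N w * S w := by
      apply intervalIntegral.integral_mono_on (by linarith)
      · exact ((sk_cont L).mul hSc).intervalIntegrable _ _
      · exact hQi.intervalIntegrable
      · intro w hw
        exact mul_le_mul_of_nonneg_right (Qm_maj L K N hL hK w (abs_le.2 hw)) (hS0 w)
    have h2 : ∫ w in (-((N : ℝ) / 4))..((N : ℝ) / 4), Qm L K N w * S w ≤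
        ∫ w, Qm L K N w * S w := by
      rw [intervalIntegral.integral_of_le (by linarith)]
      exact setIntegral_le_integral hQi (Filter.Eventually.of_forall hQ0)
    have h3 : ∫ w, Qm L K N w * S w = KS I s y (1 / L) 0 +
        ∑ k ∈ Finset.Icc 1 K, 1 / (k : ℝ) ^ 2 * (2 * KS I s y (1 / L) (k * (1 / L))) +
        ∑ j ∈ Finset.Icc 1 N, 32 / (9 * (L : ℝ) ^ 2) * (1 / (j : ℝ) ^ 2) *
          (2 * KS I s y (1 / 2) (j / 4)) := by
      have g1 : ∫ w, f1 w = KS I s y (1 / L) 0 := i1.2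
      have g2 : ∫ w, f2 w = ∑ k ∈ Finset.Icc 1 K, ∫ w, 1 / (k : ℝ) ^ 2 *
        (tri (1 / L) (w + -(k * (1 / L))) * S w + tri (1 / L) (w + k * (1 / L)) * S w) :=
        integral_finsetSum _ i2
      have g3 : ∫ w, f3 w = ∑ j ∈ Finset.Icc 1 N, ∫ w, 32 / (9 * (L : ℝ) ^ 2) * (1 / (j : ℝ) ^ 2) *
        (tri (1 / 2) (w + -(j / 4)) * S w + tri (1 / 2) (w + j / 4) * S w) :=
        integral_finsetSum _ i3
      rw [eQ, integral_add hf12 hf3, integral_add hf1 hf2, g1, g2, g3]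
      congr 1
      · congr 1
        refine Finset.sum_congr rfl fun k _ => ?_
        rw [integral_const_mul, integral_add (hk (1 / L) he1 (-(k * (1 / L)))).1
          (hk (1 / L) he1 (k * (1 / L))).1, (hk (1 / L) he1 (-(k * (1 / L)))).2,
          (hk (1 / L) he1 (k * (1 / L))).2, KS_neg]
        ring
      · refine Finset.sum_congr rfl fun j _ => ?_
        rw [integral_const_mul, integral_add (hk (1 / 2) he2 (-(j / 4))).1
          (hk (1 / 2) he2 (j / 4)).1, (hk (1 / 2) he2 (-(j / 4))).2,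
          (hk (1 / 2) he2 (j / 4)).2, KS_neg]
        ring
    have h4 : ∑ j ∈ Finset.Icc 1 N, 32 / (9 * (L : ℝ) ^ 2) * (1 / (j : ℝ) ^ 2) *
          (2 * KS I s y (1 / 2) (j / 4)) ≤ 15 / (L : ℝ) ^ 2 * KS I s y (1 / 2) 0 := by
      have h5 : ∀ j ∈ Finset.Icc 1 N, 32 / (9 * (L : ℝ) ^ 2) * (1 / (j : ℝ) ^ 2) *
          (2 * KS I s y (1 / 2) (j / 4)) ≤
          (64 / (9 * (L : ℝ) ^ 2) * KS I s y (1 / 2) 0) * (1 / (j : ℝ) ^ 2) := by
        intro j _
        have h6 := KS_le I y he2 (j / 4)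
        have h7 : 0 ≤ 32 / (9 * (L : ℝ) ^ 2) * (1 / (j : ℝ) ^ 2) := by positivity
        have h8 := mul_le_mul_of_nonneg_left (mul_le_mul_of_nonneg_left h6 (by norm_num : (0 : ℝ) ≤ 2)) h7
        refine h8.trans (le_of_eq ?_)
        ring
      refine (Finset.sum_le_sum h5).trans ?_
      rw [← Finset.mul_sum]
      have h6 : 0 ≤ 64 / (9 * (L : ℝ) ^ 2) * KS I s y (1 / 2) 0 := by positivity
      have h7 := mul_le_mul_of_nonneg_left (inv_sq_sum N) h6
      refine h7.trans ?_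
      have h8 : 64 / (9 * (L : ℝ) ^ 2) * KS I s y (1 / 2) 0 * 2 =
          (128 / 9) / (L : ℝ) ^ 2 * KS I s y (1 / 2) 0 := by
        field_simp
        ring
      rw [h8]
      apply mul_le_mul_of_nonneg_right _ hB0
      apply div_le_div_of_nonneg_right _ (by positivity)
      norm_num
    have h5 : ∑ k ∈ Finset.Icc 1 K, 1 / (k : ℝ) ^ 2 * (2 * KS I s y (1 / L) (k * (1 / L))) =
        2 * ∑ k ∈ Finset.Icc 1 K, 1 / (k : ℝ) ^ 2 * KS I s y (1 / L) (k * (1 / L)) := by
      rw [Finset.mul_sum]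
      exact Finset.sum_congr rfl fun k _ => by ring
    linarith
  have ht : Tendsto (fun N : ℕ => ∫ w in (-((N : ℝ) / 4))..((N : ℝ) / 4), sk L w * S w) atTop
      (𝓝 (∫ w, sk L w * S w)) := by
    have hN : Tendsto (fun N : ℕ => (N : ℝ) / 4) atTop atTop :=
      tendsto_natCast_atTop_atTop.atTop_div_const (by norm_num)
    exact intervalIntegral_tendsto_integral hint (tendsto_neg_atTop_atBot.comp hN) hN
  exact le_of_tendsto' ht key

/-- the interval carrying the windows of length `L` which meet the zeros of the window -/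
noncomputable def Jw (T t : ℝ) (L : ℕ) : Set ℝ :=
  Set.Ico (t * Real.log T / (2 * Real.pi) - L) ((t + T / 8) * Real.log T / (2 * Real.pi))

/-- the variance of the number of zeros in windows of `L` mean spacings -/
noncomputable def NV (T t : ℝ) (L : ℕ) : ℝ :=
  ∫ x, (hh (Iw T t) (fun _ => 1) (yy T) L x - (Jw T t L).indicator (fun _ => (L : ℝ)) x) ^ 2

lemma mem_Iw {T t : ℝ} (hT : 100 ≤ T) {n : ℕ} (hn : n ∈ Iw T t) :
    t * Real.log T / (2 * Real.pi) < yy T n ∧
      yy T n ≤ (t + T / 8) * Real.log T / (2 * Real.pi) := by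
  unfold Iw at hn
  rw [Finset.mem_Ioc] at hn
  have hn1 : 1 ≤ n := by omega
  have hL : 0 < Real.log T := Real.log_pos (by linarith)
  have hpi := Real.pi_pos
  have h1 : t < ord n := by
    by_contra hcon
    push Not at hcon
    have := (SG.ord_le_iff hn1 t).mp hcon
    omega
  have h2 : ord n ≤ t + T / 8 := (SG.ord_le_iff hn1 _).mpr hn.2
  unfold yy
  constructor
  · gcongr
  · gcongr

lemma NV_eq {T t : ℝ} (hT : 100 ≤ T) (L : ℕ) (hL : 1 ≤ L) :
    NV T t L = (L : ℝ) ^ 2 * (∫ w, sk L w * ‖GG (Iw T t) (fun _ => 1) (yy T) w‖ ^ 2) -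
      2 * (L : ℝ) ^ 2 * (Iw T t).card + (L : ℝ) ^ 2 * (Mw T + L) := by
  have hL0 : (0 : ℝ) < L := by exact_mod_cast hL
  have hlog : 0 < Real.log T := Real.log_pos (by linarith)
  have hpi := Real.pi_pos
  set I := Iw T t with hI
  set c : ℝ → ℝ := hh I (fun _ => 1) (yy T) L with hc
  set J := Jw T t L with hJ
  have hJm : MeasurableSet J := measurableSet_Ico
  obtain ⟨_, hpl⟩ := planch I (fun _ => 1) (yy T) hL0
  have hci : Integrable c := hh_int _ _ _ _
  have hc2 : Integrable (fun x => c x ^ 2) := sq_integrable _ _ _ _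
  have hsupp : ∀ x, x ∉ J → c x = 0 := by
    intro x hx
    simp only [hc, hh]
    refine Finset.sum_eq_zero fun n hn => ?_
    rw [Set.indicator_of_notMem]
    intro hx2
    apply hx
    obtain ⟨h1, h2⟩ := mem_Iw hT hn
    obtain ⟨h3, h4⟩ := Set.mem_Ico.1 hx2
    exact Set.mem_Ico.2 ⟨by linarith, by linarith⟩
  have e1 : ∀ x, (c x - J.indicator (fun _ => (L : ℝ)) x) ^ 2 =
      c x ^ 2 - 2 * L * c x + J.indicator (fun _ => (L : ℝ) ^ 2) x := by
    intro x
    by_cases h : x ∈ J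
    · rw [Set.indicator_of_mem h, Set.indicator_of_mem h]; ring
    · rw [Set.indicator_of_notMem h, Set.indicator_of_notMem h, hsupp x h]; ring
  have hJi : Integrable (J.indicator (fun _ => (L : ℝ) ^ 2)) := ind_ico_int _ _ _
  have hcint : ∫ x, c x = L * (I.card : ℝ) := by
    simp only [hc]
    unfold hh
    rw [integral_finsetSum _ fun n _ => ind_ico_int _ _ _]
    have : ∀ n ∈ I, ∫ x, (Set.Ico (yy T n - L) (yy T n)).indicator (fun _ => (1 : ℝ)) x = L := by
      intro n _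
      rw [integral_indicator measurableSet_Ico, setIntegral_const, smul_eq_mul, mul_one,
        Real.volume_real_Ico_of_le (by linarith)]
      ring
    rw [Finset.sum_congr rfl this, Finset.sum_const, nsmul_eq_mul]
    ring
  have hJint : ∫ x, J.indicator (fun _ => (L : ℝ) ^ 2) x = (Mw T + L) * (L : ℝ) ^ 2 := by
    rw [integral_indicator hJm, setIntegral_const, smul_eq_mul, hJ, Jw,
      Real.volume_real_Ico_of_le (by
        have : t * Real.log T / (2 * Real.pi) ≤ (t + T / 8) * Real.log T / (2 * Real.pi) := by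
          gcongr
          linarith
        linarith)]
    unfold Mw
    ring
  show ∫ x, (c x - J.indicator (fun _ => (L : ℝ)) x) ^ 2 = _
  simp_rw [e1]
  have hA : Integrable (fun x => c x ^ 2 - 2 * L * c x) := hc2.sub (hci.const_mul (2 * (L : ℝ)))
  rw [integral_add hA hJi, integral_sub hc2 (hci.const_mul (2 * (L : ℝ))),
    integral_const_mul, hcint, hJint, hpl]
  ring

/-- the number variance is small -/
theorem nv (hRH : RiemannHypothesis) (L : ℕ) (hL : 8 ≤ L) :
    AA (fun T t => NV T t L ≤ (60 + 2 * Real.log L) * Mw T) := by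
  have hL8 : (8 : ℝ) ≤ L := by exact_mod_cast hL
  have hL0 : (0 : ℝ) < L := by linarith
  set K : ℕ := (L + 3) / 4 with hK
  have hK1 : L ≤ 4 * K := by omega
  have hK2 : 2 * (K + 1) ≤ L := by omega
  have hK2r : 2 * ((K : ℝ) + 1) ≤ L := by exact_mod_cast hK2
  set ε : ℝ := 1 / (L : ℝ) ^ 2 with hε
  have hε0 : 0 < ε := by positivity
  have a1 := mt0 hRH (1 / L) ε (by positivity) (by rw [div_lt_one hL0]; linarith) hε0
  have a2 : AA (fun T t => ∀ k ∈ Finset.Icc 1 K, |KS (Iw T t) (fun _ => 1) (yy T) (1 / L)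
      (k * (1 / L)) - k * (1 / L) * (1 / L) * Mw T| ≤ ε * Mw T) := by
    apply AA.fin
    intro k hk
    rw [Finset.mem_Icc] at hk
    have hk1 : (1 : ℝ) ≤ k := by exact_mod_cast hk.1
    have hk2 : (k : ℝ) ≤ K := by exact_mod_cast hk.2
    apply mt hRH (1 / L) (k * (1 / L)) ε (by positivity) _ _ hε0
    · have : (0 : ℝ) < 1 / L := by positivity
      nlinarith
    · have e1 : (k : ℝ) * (1 / L) + 1 / L = (k + 1) / L := by ring
      rw [e1, div_lt_one hL0]
      linarith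
  have a3 := mt0 hRH (1 / 2) (1 / 2) (by norm_num) (by norm_num) (by norm_num)
  obtain ⟨T1, hT1, hcard⟩ := card_low ε hε0
  refine ((a1.and a2).and a3).mono (max T1 (64 * (L : ℝ) ^ 3)) fun T t hT hT100 ht1 ht2 h => ?_
  obtain ⟨⟨h1, h2⟩, h3⟩ := h
  have hM := Mw_pos hT100
  have hc := hcard T t ((le_max_left _ _).trans hT) ht1 ht2
  have hMbig : (L : ℝ) ^ 3 ≤ Mw T := by
    have h4 : 64 * (L : ℝ) ^ 3 ≤ T := (le_max_right _ _).trans hT
    have hlog : 1 ≤ Real.log T := by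
      rw [Real.le_log_iff_exp_le (by linarith)]
      have := Real.exp_one_lt_d9
      linarith
    have hpi4 := Real.pi_lt_four
    have hpi := Real.pi_pos
    unfold Mw
    rw [le_div_iff₀ (by positivity)]
    have h5 : (L : ℝ) ^ 3 * (2 * Real.pi) ≤ (L : ℝ) ^ 3 * 8 := by
      apply mul_le_mul_of_nonneg_left (by linarith) (by positivity)
    have h6 : T / 8 ≤ T / 8 * Real.log T := by
      have : 0 ≤ T / 8 := by linarith
      nlinarith
    linarith
  rw [NV_eq hT100 L (by omega)]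
  have hP := P_le (Iw T t) (yy T) L K (by omega) hK1
  set P := ∫ w, sk L w * ‖GG (Iw T t) (fun _ => 1) (yy T) w‖ ^ 2 with hPdef
  set M := Mw T with hMdef
  -- central terms
  have hcen : ∑ k ∈ Finset.Icc 1 K, 1 / (k : ℝ) ^ 2 *
      KS (Iw T t) (fun _ => 1) (yy T) (1 / L) (k * (1 / L)) ≤
      (1 + Real.log L) * ε * M + 2 * ε * M := by
    have g1 : ∀ k ∈ Finset.Icc 1 K, 1 / (k : ℝ) ^ 2 *
        KS (Iw T t) (fun _ => 1) (yy T) (1 / L) (k * (1 / L)) ≤
        (1 / (k : ℝ)) * (ε * M) + 1 / (k : ℝ) ^ 2 * (ε * M) := by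
      intro k hk
      have g2 := (abs_le.1 (h2 k hk)).2
      rw [Finset.mem_Icc] at hk
      have hk1 : (1 : ℝ) ≤ k := by exact_mod_cast hk.1
      have g3 : KS (Iw T t) (fun _ => 1) (yy T) (1 / L) (k * (1 / L)) ≤ k * (ε * M) + ε * M := by
        have e1 : (k : ℝ) * (1 / L) * (1 / L) * M = k * (ε * M) := by
          rw [hε]; field_simp
        linarith
      have g4 := mul_le_mul_of_nonneg_left g3 (by positivity : (0 : ℝ) ≤ 1 / (k : ℝ) ^ 2)
      refine g4.trans (le_of_eq ?_)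
      have hk0 : (k : ℝ) ≠ 0 := by positivity
      field_simp
    refine (Finset.sum_le_sum g1).trans ?_
    rw [Finset.sum_add_distrib, ← Finset.sum_mul, ← Finset.sum_mul]
    have g5 := inv_sum K
    have g6 := inv_sq_sum K
    have g7 : Real.log K ≤ Real.log L := by
      apply Real.log_le_log
      · have : 1 ≤ K := by omega
        exact_mod_cast this
      · linarith
    have g8 : 0 ≤ ε * M := by positivity
    have g9 := mul_le_mul_of_nonneg_right (g5.trans (by linarith : 1 + Real.log K ≤ 1 + Real.log L)) g8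
    have g10 := mul_le_mul_of_nonneg_right g6 g8
    linarith
  have htail : 15 / (L : ℝ) ^ 2 * KS (Iw T t) (fun _ => 1) (yy T) (1 / 2) 0 ≤ 30 * ε * M := by
    have g1 : KS (Iw T t) (fun _ => 1) (yy T) (1 / 2) 0 ≤ 2 * M := by
      refine h3.trans (le_of_eq ?_)
      norm_num
    have g2 := mul_le_mul_of_nonneg_left g1 (by positivity : (0 : ℝ) ≤ 15 / (L : ℝ) ^ 2)
    refine g2.trans (le_of_eq ?_)
    rw [hε]; ring
  have h1' : KS (Iw T t) (fun _ => 1) (yy T) (1 / L) 0 ≤ (1 + 3 * ε) * M := by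
    refine h1.trans (le_of_eq ?_)
    rw [hε]; ring
  have hPle : P ≤ (1 + (39 + 2 * Real.log L) * ε) * M := by
    have : (1 + 3 * ε) * M + 2 * ((1 + Real.log L) * ε * M + 2 * ε * M) + 30 * ε * M =
        (1 + (39 + 2 * Real.log L) * ε) * M := by ring
    linarith
  have hLε : (L : ℝ) ^ 2 * ε = 1 := by rw [hε]; field_simp
  have q1 : (L : ℝ) ^ 2 * P ≤ (L : ℝ) ^ 2 * M + (39 + 2 * Real.log L) * M := by
    have g1 := mul_le_mul_of_nonneg_left hPle (by positivity : (0 : ℝ) ≤ (L : ℝ) ^ 2)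
    refine g1.trans (le_of_eq ?_)
    have : (L : ℝ) ^ 2 * ((1 + (39 + 2 * Real.log L) * ε) * M) =
      (L : ℝ) ^ 2 * M + (39 + 2 * Real.log L) * M * ((L : ℝ) ^ 2 * ε) := by ring
    rw [this, hLε, mul_one]
  have q2 : (L : ℝ) ^ 2 * M - M ≤ (L : ℝ) ^ 2 * ((Iw T t).card : ℝ) := by
    have g1 := mul_le_mul_of_nonneg_left hc (by positivity : (0 : ℝ) ≤ (L : ℝ) ^ 2)
    have : (L : ℝ) ^ 2 * ((1 - ε) * M) = (L : ℝ) ^ 2 * M - ((L : ℝ) ^ 2 * ε) * M := by ring
    rw [this, hLε, one_mul] at g1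
    exact g1
  have q3 : (L : ℝ) ^ 2 * (M + L) = (L : ℝ) ^ 2 * M + (L : ℝ) ^ 3 := by ring
  rw [q3]
  nlinarith

end Pool.Agent.TH800.AH
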