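import Pool.Agent.TH800.AH.Lw
import Pool.Agent.TH800.AH.Nv
import Pool.Agent.TH800.AH.Cm

/-! The gap weighted lower bound in almost all windows. -/

open Complex Filter Topology Set MeasureTheory

namespace Pool.Agent.TH800.AH

open H177.Lat H370.A2
open SG (ord NZ)

lemma log_small (c : ℝ) (hc : 0 < c) : ∃ L1 : ℕ, ∀ L : ℕ, L1 ≤ L → 1 + Real.log L ≤ c * L := by
  have h1 := Real.isLittleO_log_id_atTop.bound (show (0 : ℝ) < c / 2 by positivity)
  have h2 : ∀ᶠ x : ℝ in atTop, 1 + Real.log x ≤ c * x := by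
    filter_upwards [h1, eventually_ge_atTop 1, eventually_ge_atTop (2 / c)] with x h2 h3 h4
    rw [Real.norm_of_nonneg (Real.log_nonneg h3), id, Real.norm_of_nonneg (by linarith)] at h2
    rw [div_le_iff₀ hc] at h4
    linarith
  exact (tendsto_natCast_atTop_atTop.eventually h2).exists_forall_of_atTop

/-- the gap weighted lower bound in almost all windows -/
theorem gw (hRH : RiemannHypothesis) (δ : ℝ) (hδ : 0 < δ) (hδ1 : δ ≤ 1 / 10) :
    ∃ L0 : ℕ, 8 ≤ L0 ∧ ∀ L : ℕ, L0 ≤ L → ∃ c εb : ℝ, 0 < c ∧ 0 < εb ∧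
      AA (fun T t => ∀ σ : ℕ → ℝ, Sg σ → ∀ m0 : ℝ, |m0| ≤ 1 →
        c * Mw T ≤ ((Bad (NZ t) (NZ (t + T / 8)) 1 εb (vs σ (yy T))).card : ℝ) ∨
        (1 - 7 * δ) * L * Mw T ≤ ∑ n ∈ Finset.Ico (NZ t + 1) (NZ (t + T / 8)),
          (yy T (n + 1) - yy T n) * BB (fun n => σ n - m0) L (n + 1) ^ 2) := by
  obtain ⟨L1, hL1, hlb⟩ := lbw hRH δ hδ hδ1
  have hc1 : 0 < δ ^ 2 / 2000 := by positivity
  obtain ⟨L2, hL2⟩ := log_small (δ ^ 2 / 2000) hc1
  refine ⟨max L1 L2, hL1.trans (le_max_left _ _), fun L hL => ?_⟩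
  have hLL1 : L1 ≤ L := (le_max_left _ _).trans hL
  have hlog := hL2 L ((le_max_right _ _).trans hL)
  have hL8 : 8 ≤ L := hL1.trans hLL1
  have hL8r : (8 : ℝ) ≤ L := by exact_mod_cast hL8
  have hL0 : (0 : ℝ) < L := by linarith
  obtain ⟨c, εb, hc, hεb, hAA⟩ := hlb L hLL1
  refine ⟨c, εb, hc, hεb, ?_⟩
  set η : ℝ := min (1 / 8) (δ ^ 2 / (600 * L)) with hη
  have hη0 : 0 < η := lt_min (by norm_num) (by positivity)
  have hη1 : η ≤ 1 / 8 := min_le_left _ _
  have hη2 : η * (600 * L) ≤ δ ^ 2 := by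
    have := min_le_right (1 / 8) (δ ^ 2 / (600 * (L : ℝ)))
    rw [← hη, le_div_iff₀ (by positivity)] at this
    exact this
  obtain ⟨T1, hT1, hgap⟩ := first_gap η hη0 hη1
  refine ((hAA.and (nv hRH L hL8))).mono (max T1 (64 * (600 * (L : ℝ) ^ 2 / δ ^ 2)))
    fun T t hT hT100 ht1 ht2 h σ hσ m0 hm => ?_
  obtain ⟨h1, h2⟩ := h
  rcases h1 σ hσ m0 hm with hb | hb
  · exact Or.inl hb
  right
  obtain ⟨hab, hg1⟩ := hgap T t ((le_max_left _ _).trans hT) ht1 ht2
  have hTbig : 64 * (600 * (L : ℝ) ^ 2 / δ ^ 2) ≤ T := (le_max_right _ _).trans hT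
  have hM := Mw_pos hT100
  have hTpos : 0 < T := by linarith
  have hlT : 0 < Real.log T := Real.log_pos (by linarith)
  have hlT1 : 1 ≤ Real.log T := by
    rw [Real.le_log_iff_exp_le (by linarith)]
    have := Real.exp_one_lt_d9
    linarith
  have hpi := Real.pi_pos
  have hpi4 := Real.pi_lt_four
  have hmemI : ∀ n, NZ t < n → n ≤ NZ (t + T / 8) → n ∈ Iw T t := by
    intro n g1 g2
    unfold Iw
    exact Finset.mem_Ioc.2 ⟨g1, g2⟩
  have hs : ∀ n, |(fun n => σ n - m0) n| ≤ 2 := by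
    intro n
    have g1 : |σ n| = 1 := by rcases hσ n with h | h <;> rw [h] <;> norm_num
    refine (abs_sub _ _).trans ?_
    rw [g1]
    linarith
  have hcmp := cmp_int (NZ t) (NZ (t + T / 8)) L (fun n => σ n - m0) (yy T) hs hab
    (fun n m g1 g2 _ => yy_mono hT100 (by omega) g2)
    (t * Real.log T / (2 * Real.pi)) ((t + T / 8) * Real.log T / (2 * Real.pi))
    (mem_Iw hT100 (hmemI _ (by omega) (by omega))).1.le
    (mem_Iw hT100 (hmemI _ hab le_rfl)).2 δ hδ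
  have hNV : ∫ x, (hh (Finset.Ioc (NZ t) (NZ (t + T / 8))) (fun _ => 1) (yy T) L x -
        (Set.Ico (t * Real.log T / (2 * Real.pi) - L)
          ((t + T / 8) * Real.log T / (2 * Real.pi))).indicator (fun _ => (L : ℝ)) x) ^ 2 ≤
        (60 + 2 * Real.log L) * Mw T := h2
  set NVv := ∫ x, (hh (Finset.Ioc (NZ t) (NZ (t + T / 8))) (fun _ => 1) (yy T) L x -
        (Set.Ico (t * Real.log T / (2 * Real.pi) - L)
          ((t + T / 8) * Real.log T / (2 * Real.pi))).indicator (fun _ => (L : ℝ)) x) ^ 2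
  have hb' : (1 - 5 * δ) * L * Mw T ≤ ∫ x, hh (Finset.Ioc (NZ t) (NZ (t + T / 8)))
      (fun n => σ n - m0) (yy T) L x ^ 2 := hb
  set Sgm := ∑ n ∈ Finset.Ico (NZ t + 1) (NZ (t + T / 8)),
          (yy T (n + 1) - yy T n) * BB (fun n => σ n - m0) L (n + 1) ^ 2 with hSgm
  set G1 := yy T (NZ t + 1) - t * Real.log T / (2 * Real.pi) with hG1
  have hG1b : G1 ≤ 8 * η * Mw T := by
    rw [hG1]
    have e1 : 8 * η * Mw T = (t + η * T) * Real.log T / (2 * Real.pi) -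
        t * Real.log T / (2 * Real.pi) := by
      unfold Mw
      ring
    rw [e1]
    unfold yy
    have : ord (NZ t + 1) * Real.log T / (2 * Real.pi) ≤
        (t + η * T) * Real.log T / (2 * Real.pi) := by gcongr
    linarith
  have hMbig : 600 * (L : ℝ) ^ 2 / δ ^ 2 ≤ Mw T := by
    unfold Mw
    rw [le_div_iff₀ (by positivity)]
    have g1 : 600 * (L : ℝ) ^ 2 / δ ^ 2 * (2 * Real.pi) ≤ 600 * (L : ℝ) ^ 2 / δ ^ 2 * 8 := by
      apply mul_le_mul_of_nonneg_left (by linarith) (by positivity)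
    have g2 : T / 8 * 1 ≤ T / 8 * Real.log T := mul_le_mul_of_nonneg_left hlT1 (by linarith)
    linarith
  -- collecting
  have c1 : (1 + 1 / δ) * (8 * NVv + 8 * (L : ℝ) ^ 2 * (G1 + L)) ≤ δ * L * Mw T := by
    have g0 : 1 + 1 / δ ≤ 2 / δ := by
      rw [le_div_iff₀ hδ]
      have : (1 + 1 / δ) * δ = δ + 1 := by field_simp
      rw [this]
      linarith
    have hG1' : G1 + L ≤ δ ^ 2 / (50 * L) * Mw T := by
      have q1 : 8 * η * Mw T ≤ 8 * (δ ^ 2 / (600 * L)) * Mw T := by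
        have : η ≤ δ ^ 2 / (600 * L) := min_le_right _ _
        have q2 : 8 * η ≤ 8 * (δ ^ 2 / (600 * L)) := by linarith
        exact mul_le_mul_of_nonneg_right q2 hM.le
      have q2 : (L : ℝ) ≤ δ ^ 2 / (600 * L) * Mw T := by
        have q3 := mul_le_mul_of_nonneg_left hMbig (by positivity : (0 : ℝ) ≤ δ ^ 2 / (600 * L))
        refine le_trans (le_of_eq ?_) q3
        field_simp
      have q3 : 8 * (δ ^ 2 / (600 * L)) * Mw T + δ ^ 2 / (600 * L) * Mw T ≤
          δ ^ 2 / (50 * L) * Mw T := by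
        have : 8 * (δ ^ 2 / (600 * (L : ℝ))) * Mw T + δ ^ 2 / (600 * L) * Mw T =
          9 / 600 * (δ ^ 2 / L) * Mw T := by field_simp; ring
        rw [this]
        have : δ ^ 2 / (50 * (L : ℝ)) * Mw T = 12 / 600 * (δ ^ 2 / L) * Mw T := by
          field_simp; ring
        rw [this]
        have : 0 ≤ δ ^ 2 / L * Mw T := by positivity
        nlinarith
      linarith
    have g2 : 8 * (L : ℝ) ^ 2 * (G1 + L) ≤ 8 / 50 * δ ^ 2 * L * Mw T := by
      have q1 := mul_le_mul_of_nonneg_left hG1' (by positivity : (0 : ℝ) ≤ 8 * (L : ℝ) ^ 2)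
      refine q1.trans (le_of_eq ?_)
      field_simp
    have g3 : 8 * NVv ≤ 8 * 60 / 2000 * δ ^ 2 * L * Mw T := by
      have q1 : (60 + 2 * Real.log L) ≤ 60 * (δ ^ 2 / 2000 * L) := by
        have : 0 ≤ Real.log L := Real.log_nonneg (by linarith)
        linarith
      have q2 := mul_le_mul_of_nonneg_right q1 hM.le
      have q3 : 8 * 60 / 2000 * δ ^ 2 * L * Mw T = 8 * (60 * (δ ^ 2 / 2000 * L) * Mw T) := by ring
      rw [q3]
      linarith
    have g4 : 8 * NVv + 8 * (L : ℝ) ^ 2 * (G1 + L) ≤ 1 / 2 * δ ^ 2 * L * Mw T := by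
      have : 0 ≤ δ ^ 2 * L * Mw T := by positivity
      nlinarith
    have g5 : (0 : ℝ) ≤ 2 / δ := by positivity
    have g6 := mul_le_mul_of_nonneg_left g4 g5
    have g7 : 2 / δ * (1 / 2 * δ ^ 2 * L * Mw T) = δ * L * Mw T := by field_simp
    rw [g7] at g6
    refine le_trans ?_ g6
    by_cases hsgn : 0 ≤ 8 * NVv + 8 * (L : ℝ) ^ 2 * (G1 + L)
    · exact mul_le_mul_of_nonneg_right g0 hsgn
    · exfalso
      apply hsgn
      have r1 : 0 ≤ NVv := integral_nonneg fun x => sq_nonneg _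
      have r2 : 0 ≤ G1 := by
        rw [hG1]
        have := (mem_Iw hT100 (hmemI (NZ t + 1) (by omega) (by omega))).1.le
        linarith
      positivity
  have c2 : (1 - 6 * δ) * L * Mw T ≤ (1 + δ) * Sgm := by
    have : (1 - 5 * δ) * L * Mw T - δ * L * Mw T = (1 - 6 * δ) * L * Mw T := by ring
    linarith
  have c3 : (1 + δ) * ((1 - 7 * δ) * L * Mw T) ≤ (1 - 6 * δ) * L * Mw T := by
    have e : (1 + δ) * ((1 - 7 * δ) * L * Mw T) = ((1 + δ) * (1 - 7 * δ)) * (L * Mw T) := by ring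
    rw [e, mul_assoc (1 - 6 * δ)]
    apply mul_le_mul_of_nonneg_right _ (by positivity)
    nlinarith
  exact le_of_mul_le_mul_left (c3.trans c2) (by linarith)

end Pool.Agent.TH800.AH
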