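import Pool.Agent.TH800.AH.Lb
import Pool.Agent.TH800.AH.Ct

/-! Lower bound for the mean square of block sums over almost all windows. -/

open Complex Filter Topology Set MeasureTheory

namespace Pool.Agent.TH800.AH

open H177.Lat H370.A2
open SG (ord NZ)

lemma yy_mono {T : ℝ} (hT : 100 ≤ T) {n m : ℕ} (hn : 1 ≤ n) (hnm : n ≤ m) : yy T n ≤ yy T m := by
  have h2 := SG.ord_mono hn hnm
  have hL : 0 < Real.log T := Real.log_pos (by linarith)
  have hpi := Real.pi_pos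
  unfold yy
  gcongr

/-- few bad gaps make the defect small -/
theorem ss_small (hRH : RiemannHypothesis) (e κ : ℝ) (he : 0 < e) (hκ : 0 < κ) :
    ∃ c εb T1 : ℝ, 0 < c ∧ 0 < εb ∧ ∀ T t : ℝ, T1 ≤ T → 100 ≤ T → T ≤ t → t ≤ 2 * T →
      ∀ σ : ℕ → ℝ, c * Mw T ≤ ((Bad (NZ t) (NZ (t + T / 8)) 1 εb (vs σ (yy T))).card : ℝ) ∨
        SS (Iw T t) σ (yy T) e ≤ κ * e * Mw T := by
  obtain ⟨C1, T2, hC1, hT2, h1⟩ := third hRH (1 / 2) 1 (by norm_num) (by norm_num) zero_le_one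
  set D : ℝ := 1 / e ^ 2 with hD
  have hD0 : 0 ≤ D := by positivity
  obtain ⟨R, hR2, hRb⟩ : ∃ R : ℕ, 2 ≤ R ∧ 64 * D * C1 / κ ≤ R := by
    refine ⟨max 2 ⌈64 * D * C1 / κ⌉₊, le_max_left _ _, (Nat.le_ceil _).trans ?_⟩
    exact_mod_cast le_max_right _ _
  obtain ⟨CR, T3, hCR, hT3, hk⟩ := third hRH (1 / 2) R (by norm_num) (by norm_num)
    (Nat.cast_nonneg _)
  obtain ⟨T4, hT4⟩ := (ev_pow (1 / 2) (by norm_num)).exists_forall_of_atTop
  refine ⟨κ ^ 4 / (16 * CR ^ 3), κ / (4 * CR), max T2 (max T3 T4), by positivity, by positivity,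
    fun T t hT hT100 ht1 ht2 σ => ?_⟩
  have hTT2 : T2 ≤ T := (le_max_left _ _).trans hT
  have hTT3 : T3 ≤ T := ((le_max_left _ _).trans (le_max_right _ _)).trans hT
  have hTT4 : T4 ≤ T := ((le_max_right _ _).trans (le_max_right _ _)).trans hT
  by_contra hcon
  rw [not_or] at hcon
  obtain ⟨hn1, hn2⟩ := hcon
  apply hn1
  push Not at hn2
  have hM := Mw_pos hT100
  have hR0 : (0 : ℝ) < R := by
    have : 0 < R := by omega
    exact_mod_cast this
  refine core2 (NZ t) (NZ (t + T / 8)) R hR2 1 κ D C1 CR (Mw T) hκ hD0 hCR hM ?_ (yy T)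
    (vs σ (yy T)) ?_
    (fun x => KK e x / e) (fun x => div_nonneg (KK_nonneg he x) he.le)
    (fun x => div_le_one_of_le₀ (KK_le he x) he.le) ?_
    (h1 T hTT2 (T / 8) (hT4 T hTT4) le_rfl t ht1 ht2)
    (hk T hTT3 (T / 8) (hT4 T hTT4) le_rfl t ht1 ht2) ?_
  · rw [div_le_iff₀ hκ] at hRb
    rw [div_le_iff₀ hR0]
    linarith
  · intro n hn m _ hnm
    rw [Finset.mem_Ioc] at hn
    exact yy_mono hT100 (by omega) hnm
  · intro x
    have h2 := KK_sq he x
    have h3 : KK e x / e * x ^ 2 = (KK e x * x ^ 2) / e := by ring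
    rw [h3, hD, div_le_iff₀ he]
    calc KK e x * x ^ 2 ≤ 1 / e := h2
      _ = 1 / e ^ 2 * e := by field_simp
  · have h2 : SS (Iw T t) σ (yy T) e = e * ∑ n ∈ Finset.Ioc (NZ t) (NZ (t + T / 8)),
        ∑ n' ∈ Finset.Ioc (NZ t) (NZ (t + T / 8)), KK e (yy T n - yy T n') / e *
          |Real.sin (Real.pi * 1 * (vs σ (yy T) n - vs σ (yy T) n'))| := by
      unfold SS Iw
      rw [Finset.mul_sum]
      refine Finset.sum_congr rfl fun n _ => ?_
      rw [Finset.mul_sum]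
      refine Finset.sum_congr rfl fun n' _ => ?_
      field_simp
    rw [h2] at hn2
    have h3 : e * (κ * Mw T) < e * ∑ n ∈ Finset.Ioc (NZ t) (NZ (t + T / 8)),
        ∑ n' ∈ Finset.Ioc (NZ t) (NZ (t + T / 8)), KK e (yy T n - yy T n') / e *
          |Real.sin (Real.pi * 1 * (vs σ (yy T) n - vs σ (yy T) n'))| := by
      linarith
    exact (lt_of_mul_lt_mul_left h3 he.le).le

/-- the lower bound in almost all windows -/
theorem lbw (hRH : RiemannHypothesis) (δ : ℝ) (hδ : 0 < δ) (hδ1 : δ ≤ 1 / 10) :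
    ∃ L0 : ℕ, 8 ≤ L0 ∧ ∀ L : ℕ, L0 ≤ L → ∃ c εb : ℝ, 0 < c ∧ 0 < εb ∧
      AA (fun T t => ∀ σ : ℕ → ℝ, Sg σ → ∀ m0 : ℝ, |m0| ≤ 1 →
        c * Mw T ≤ ((Bad (NZ t) (NZ (t + T / 8)) 1 εb (vs σ (yy T))).card : ℝ) ∨
        (1 - 5 * δ) * L * Mw T ≤ ∫ x, hh (Iw T t) (fun n => σ n - m0) (yy T) L x ^ 2) := by
  obtain ⟨K, e, w, he, hw0, hw1, hmin, hsum⟩ := minor (δ / 2) (by positivity)
  obtain ⟨L1, hL1⟩ : ∃ L1 : ℕ, (K + 2) * e / (δ ^ 2 / 2) ≤ L1 := ⟨_, Nat.le_ceil _⟩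
  refine ⟨max 8 L1, le_max_left _ _, fun L hL => ?_⟩
  have hL8 : 8 ≤ L := (le_max_left _ _).trans hL
  have hLL1 : (L1 : ℝ) ≤ L := by exact_mod_cast (le_max_right _ _).trans hL
  have hL8r : (8 : ℝ) ≤ L := by exact_mod_cast hL8
  have hL0 : (0 : ℝ) < L := by linarith
  set e' : ℝ := e / L with he'
  have he'0 : 0 < e' := by positivity
  set τm : ℝ := (K + 2) * e' with hτm
  have hτ1 : τm ≤ δ ^ 2 / 2 := by
    rw [div_le_iff₀ (by positivity)] at hL1
    have : τm = (K + 2) * e / L := by rw [hτm, he']; ring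
    rw [this, div_le_iff₀ hL0]
    have h2 : (L1 : ℝ) * (δ ^ 2 / 2) ≤ L * (δ ^ 2 / 2) :=
      mul_le_mul_of_nonneg_right hLL1 (by positivity)
    linarith
  have hδ2 : δ ^ 2 / 2 ≤ 1 / 200 := by nlinarith
  set ε : ℝ := δ ^ 2 / 2 * e' with hε
  have hε0 : 0 < ε := by positivity
  obtain ⟨c, εb, T1, hc, hεb, hss⟩ := ss_small hRH e' (δ / 2) he'0 (by positivity)
  refine ⟨c, εb, hc, hεb, ?_⟩
  have hτk : ∀ k ∈ Finset.range K, 2 * e' ≤ (k + 2) * e' ∧ (k + 2) * e' + e' ≤ τm := by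
    intro k hk
    have hk1 : ((k : ℝ) + 1) ≤ K := by exact_mod_cast Finset.mem_range.1 hk
    have hk0 : (0 : ℝ) ≤ k := Nat.cast_nonneg k
    constructor
    · nlinarith
    · rw [hτm]; nlinarith
  have a1 : AA (fun T t => ∀ k ∈ Finset.range K, |KS (Iw T t) (fun _ => 1) (yy T) e'
      (1 - (k + 2) * e') - (1 - (k + 2) * e') * e' * Mw T| ≤ ε * Mw T) := by
    apply AA.fin
    intro k hk
    obtain ⟨g1, g2⟩ := hτk k hk
    exact mt hRH e' (1 - (k + 2) * e') ε he'0 (by linarith) (by linarith) hε0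
  have a2 : AA (fun T t => ∀ k ∈ Finset.range K, |KS (Iw T t) (fun _ => 1) (yy T) e'
      ((k + 2) * e') - (k + 2) * e' * e' * Mw T| ≤ ε * Mw T) := by
    apply AA.fin
    intro k hk
    obtain ⟨g1, g2⟩ := hτk k hk
    exact mt hRH e' ((k + 2) * e') ε he'0 (by linarith) (by linarith) hε0
  refine (a1.and a2).mono T1 fun T t hT hT100 ht1 ht2 h σ hσ m0 hm => ?_
  obtain ⟨h1, h2⟩ := h
  rcases hss T t hT hT100 ht1 ht2 σ with hbad | hgood
  · exact Or.inl hbad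
  right
  have hM := Mw_pos hT100
  set M := Mw T with hMdef
  have key := low2 (Iw T t) hσ (yy T) m0 hm L hL0 K e w he hw0 hmin δ hδ (by linarith)
    (((1 - τm) * e' - ε) * M) ((τm * e' + ε) * M) (δ / 2 * e' * M)
    (by
      intro k hk
      obtain ⟨g1, g2⟩ := hτk k hk
      have g3 := (abs_le.1 (h1 k hk)).1
      have g4 : (1 - τm) * e' * M ≤ (1 - (k + 2) * e') * e' * M := by
        apply mul_le_mul_of_nonneg_right _ hM.le
        apply mul_le_mul_of_nonneg_right _ he'0.le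
        linarith
      linarith)
    (by
      intro k hk
      obtain ⟨g1, g2⟩ := hτk k hk
      have g3 := (abs_le.1 (h2 k hk)).2
      have g4 : (k + 2) * e' * e' * M ≤ τm * e' * M := by
        apply mul_le_mul_of_nonneg_right _ hM.le
        apply mul_le_mul_of_nonneg_right _ he'0.le
        linarith
      linarith)
    hgood
  refine le_trans ?_ key
  -- the bracket
  have hbr : (1 - 4 * δ) * (e' * M) ≤ (1 - δ) * (((1 - τm) * e' - ε) * M - 2 * (δ / 2 * e' * M)) -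
      1 / δ * ((τm * e' + ε) * M) := by
    have q1 : ((1 - τm) * e' - ε) * M - 2 * (δ / 2 * e' * M) = (1 - τm - δ ^ 2 / 2 - δ) * (e' * M) := by
      rw [hε]; ring
    have q2 : (τm * e' + ε) * M = (τm + δ ^ 2 / 2) * (e' * M) := by rw [hε]; ring
    rw [q1, q2]
    have q3 : 0 < e' * M := by positivity
    have q4 : 1 / δ * ((τm + δ ^ 2 / 2) * (e' * M)) ≤ δ * (e' * M) := by
      have q5 : τm + δ ^ 2 / 2 ≤ δ ^ 2 := by linarith
      have q6 := mul_le_mul_of_nonneg_right q5 q3.le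
      have q7 := mul_le_mul_of_nonneg_left q6 (by positivity : (0 : ℝ) ≤ 1 / δ)
      refine q7.trans (le_of_eq ?_)
      field_simp
    have q5 : (1 - 3 * δ) * (e' * M) ≤ (1 - δ) * ((1 - τm - δ ^ 2 / 2 - δ) * (e' * M)) := by
      rw [← mul_assoc (1 - δ)]
      apply mul_le_mul_of_nonneg_right _ q3.le
      nlinarith
    linarith
  have hsum2 : ∑ k ∈ Finset.range K, w k * ((1 - 4 * δ) * (e' * M)) ≤
      ∑ k ∈ Finset.range K, w k * ((1 - δ) * (((1 - τm) * e' - ε) * M - 2 * (δ / 2 * e' * M)) -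
      1 / δ * ((τm * e' + ε) * M)) :=
    Finset.sum_le_sum fun k _ => mul_le_mul_of_nonneg_left hbr (hw0 k)
  have hsum3 : ∑ k ∈ Finset.range K, w k * ((1 - 4 * δ) * (e' * M)) =
      (1 - 4 * δ) * M / L * ∑ k ∈ Finset.range K, w k * e := by
    rw [Finset.mul_sum]
    refine Finset.sum_congr rfl fun k _ => ?_
    rw [he']
    field_simp
  have hsum4 : (1 - 4 * δ) * M / L * (1 / 2 - δ / 2) ≤
      (1 - 4 * δ) * M / L * ∑ k ∈ Finset.range K, w k * e := by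
    apply mul_le_mul_of_nonneg_left hsum
    have : 0 ≤ 1 - 4 * δ := by linarith
    positivity
  have hfin : (1 - 5 * δ) * L * M ≤ (L : ℝ) ^ 2 * (2 * ((1 - 4 * δ) * M / L * (1 / 2 - δ / 2))) := by
    have q1 : (L : ℝ) ^ 2 * (2 * ((1 - 4 * δ) * M / L * (1 / 2 - δ / 2))) =
        ((1 - 4 * δ) * (1 - δ)) * (L * M) := by
      field_simp
    rw [q1, mul_assoc]
    apply mul_le_mul_of_nonneg_right _ (by positivity)
    nlinarith
  refine hfin.trans ?_
  apply mul_le_mul_of_nonneg_left _ (by positivity)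
  apply mul_le_mul_of_nonneg_left _ (by norm_num)
  linarith

end Pool.Agent.TH800.AH
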