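import Pool.Agent.TH800.AH.Sm
import Pool.Agent.TH800.AH.Lw
import Pool.Agent.TH800.LD.Asm3

/-! From the gap weighted mean to the mean over the indices. -/

open Complex Filter Topology Set MeasureTheory

namespace Pool.Agent.TH800.AH

open H177.Lat hiding del
open H370.A2
open SG (ord NZ)
open LG.CU (del)

/-- parameters: the length of the smoothing -/
lemma params (δ c C : ℝ) (hδ : 0 < δ) (hc : 0 < c) (hC : 0 < C) (m1 : ℕ) :
    ∃ L0 : ℕ, 8 ≤ L0 ∧ ∀ L : ℕ, L0 ≤ L → ∃ h : ℕ, m1 ≤ h ∧ 3 ≤ h ∧ 3 ≤ c * h ∧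
      9 * (h : ℝ) ^ 2 ≤ δ ^ 2 * L ∧ C * L * Real.exp (-c * h) ≤ δ := by
  have h1 : Tendsto (fun x : ℝ => x ^ 2 * Real.exp (-x)) atTop (𝓝 0) :=
    Real.tendsto_pow_mul_exp_neg_atTop_nhds_zero 2
  set c' : ℝ := c * δ / 3 with hc'
  have hc'0 : 0 < c' := by positivity
  have hsq : Tendsto (fun L : ℕ => Real.sqrt (L : ℝ)) atTop atTop :=
    Real.tendsto_sqrt_atTop.comp tendsto_natCast_atTop_atTop
  have hsq2 : Tendsto (fun L : ℕ => c' * Real.sqrt (L : ℝ)) atTop atTop :=
    hsq.const_mul_atTop hc'0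
  have e1 := hsq2.eventually (h1.eventually (gt_mem_nhds
    (show (0 : ℝ) < δ * c' ^ 2 / (C * Real.exp c) by positivity)))
  have e2 := hsq.eventually_ge_atTop ((m1 + 3 + 3 / c + 1) * 3 / δ)
  obtain ⟨L0, hL0⟩ := (e1.and e2).exists_forall_of_atTop
  refine ⟨max 8 L0, le_max_left _ _, fun L hL => ?_⟩
  obtain ⟨g1, g2⟩ := hL0 L ((le_max_right _ _).trans hL)
  set r : ℝ := Real.sqrt (L : ℝ) with hr
  have hr2 : r ^ 2 = L := Real.sq_sqrt (Nat.cast_nonneg L)
  have hr0 : 0 ≤ r := Real.sqrt_nonneg _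
  set h : ℕ := ⌊δ * r / 3⌋₊ with hh
  have hf1 : (h : ℝ) ≤ δ * r / 3 := Nat.floor_le (by positivity)
  have hf2 : δ * r / 3 < h + 1 := Nat.lt_floor_add_one _
  rw [div_le_iff₀ hδ] at g2
  have hbig : (m1 : ℝ) + 3 + 3 / c ≤ h := by nlinarith
  have hc3 : 0 < 3 / c := by positivity
  refine ⟨h, ?_, ?_, ?_, ?_, ?_⟩
  · have : (m1 : ℝ) ≤ h := by linarith
    exact_mod_cast this
  · have h2 : (0 : ℝ) ≤ m1 := Nat.cast_nonneg m1
    have : (3 : ℝ) ≤ h := by linarith
    exact_mod_cast this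
  · have h2 : (0 : ℝ) ≤ m1 := Nat.cast_nonneg m1
    have h3 : 3 / c ≤ h := by linarith
    rw [div_le_iff₀ hc] at h3
    linarith
  · have h2 : (h : ℝ) ^ 2 ≤ (δ * r / 3) ^ 2 := pow_le_pow_left₀ (Nat.cast_nonneg _) hf1 2
    have h3 : (δ * r / 3) ^ 2 = δ ^ 2 * L / 9 := by rw [← hr2]; ring
    rw [h3] at h2
    linarith
  · have h2 : Real.exp (-c * h) ≤ Real.exp c * Real.exp (-(c' * r)) := by
      rw [← Real.exp_add]
      apply Real.exp_le_exp.2
      rw [hc']
      nlinarith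
    have h3 : (c' * r) ^ 2 * Real.exp (-(c' * r)) * (C * Real.exp c) ≤ δ * c' ^ 2 := by
      have := g1.le
      rw [le_div_iff₀ (by positivity)] at this
      exact this
    have h4 : C * L * Real.exp (-c * h) ≤ C * L * (Real.exp c * Real.exp (-(c' * r))) :=
      mul_le_mul_of_nonneg_left h2 (by positivity)
    refine h4.trans ?_
    have h5 : c' ^ 2 * (C * L * (Real.exp c * Real.exp (-(c' * r)))) ≤ c' ^ 2 * δ := by
      rw [← hr2]
      have : c' ^ 2 * (C * r ^ 2 * (Real.exp c * Real.exp (-(c' * r)))) =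
        (c' * r) ^ 2 * Real.exp (-(c' * r)) * (C * Real.exp c) := by ring
      rw [this]
      linarith
    exact le_of_mul_le_mul_left h5 (by positivity)

/-- comparison of the two normalisations of a gap -/
lemma gap_cmp (η : ℝ) (hη : 0 < η) : ∃ T1 : ℝ, 100 ≤ T1 ∧ ∀ T : ℝ, T1 ≤ T → ∀ n : ℕ, 1 ≤ n →
    T / 2 ≤ ord n → 0 ≤ del n ∧ yy T (n + 1) - yy T n ≤ (1 + η) * del n := by
  have hev : ∀ᶠ T : ℝ in atTop, 4 * (1 + η) / η ≤ Real.log T :=
    Real.tendsto_log_atTop.eventually_ge_atTop _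
  obtain ⟨T0, hT0⟩ := hev.exists_forall_of_atTop
  refine ⟨max 100 T0, le_max_left _ _, fun T hT n hn hord => ?_⟩
  have hT100 : 100 ≤ T := (le_max_left _ _).trans hT
  have h1 := hT0 T ((le_max_right _ _).trans hT)
  rw [div_le_iff₀ hη] at h1
  have hpi := Real.pi_pos
  have hpi4 := Real.pi_lt_four
  have hTpos : 0 < T := by linarith
  have h2 := SG.ord_mono hn (Nat.le_succ n)
  have h2' : 0 ≤ ord (n + 1) - ord n := sub_nonneg.2 h2
  have h3 : Real.log T - 4 ≤ Real.log (ord n / (2 * Real.pi)) := by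
    have h4 : Real.log (T / 16) ≤ Real.log (ord n / (2 * Real.pi)) := by
      apply Real.log_le_log (by positivity)
      rw [le_div_iff₀ (by positivity)]
      nlinarith
    rw [Real.log_div hTpos.ne' (by norm_num)] at h4
    have h5 : Real.log 16 ≤ 4 := by
      have h6 : Real.log 16 = 4 * Real.log 2 := by
        rw [show (16 : ℝ) = 2 ^ 4 by norm_num, Real.log_pow]
        norm_num
      have h7 : Real.log 2 ≤ 1 := by
        have := Real.log_le_sub_one_of_pos (show (0 : ℝ) < 2 by norm_num)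
        linarith
      linarith
    linarith
  have h4 : Real.log T ≤ (1 + η) * Real.log (ord n / (2 * Real.pi)) := by
    have h5 : (1 + η) * (Real.log T - 4) ≤ (1 + η) * Real.log (ord n / (2 * Real.pi)) :=
      mul_le_mul_of_nonneg_left h3 (by linarith)
    nlinarith
  have hlT : 0 < Real.log T := Real.log_pos (by linarith)
  have h5 : 0 ≤ Real.log (ord n / (2 * Real.pi)) := by
    by_contra hcon
    push Not at hcon
    nlinarith
  unfold LG.CU.del yy
  constructor
  · positivity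
  · have e1 : ord (n + 1) * Real.log T / (2 * Real.pi) - ord n * Real.log T / (2 * Real.pi) =
        (ord (n + 1) - ord n) / (2 * Real.pi) * Real.log T := by ring
    have e2 : (1 + η) * ((ord (n + 1) - ord n) / (2 * Real.pi) * Real.log (ord n / (2 * Real.pi))) =
        (ord (n + 1) - ord n) / (2 * Real.pi) *
          ((1 + η) * Real.log (ord n / (2 * Real.pi))) := by ring
    rw [e1, e2]
    exact mul_le_mul_of_nonneg_left h4 (by positivity)

/-- geometric sum -/
lemma geo (r : ℝ) (hr0 : 0 ≤ r) (hr : r ≤ 1 / 2) (J : ℕ) :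
    ∑ j ∈ Finset.Icc 4 J, r ^ j ≤ 2 * r ^ 3 := by
  have h := geom_sum_Ico_le_of_lt_one (m := 4) (n := J + 1) hr0 (by linarith : r < 1)
  have e : Finset.Ico 4 (J + 1) = Finset.Icc 4 J := by
    ext j; rw [Finset.mem_Ico, Finset.mem_Icc]; omega
  rw [e] at h
  refine h.trans ?_
  rw [div_le_iff₀ (by linarith)]
  have h3 : 0 ≤ r ^ 3 := by positivity
  have : r ^ 4 = r ^ 3 * r := by ring
  rw [this]
  nlinarith

/-- counting through a shift -/
lemma count_map (S : Finset ℕ) (h N : ℕ) (P Q : ℕ → Prop) [DecidablePred Q]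
    (hS : ∀ m ∈ S, Q m → h ≤ m ∧ 1 ≤ m - h ∧ m - h ≤ N ∧ P (m - h)) :
    ((S.filter Q).card : ℝ) ≤ ({n : ℕ | 1 ≤ n ∧ n ≤ N ∧ P n}.ncard : ℝ) := by
  classical
  have hfin : {n : ℕ | 1 ≤ n ∧ n ≤ N ∧ P n}.Finite :=
    (Set.finite_Iic N).subset fun n hn => hn.2.1
  have h1 : (((S.filter Q).image fun m => m - h : Finset ℕ) : Set ℕ) ⊆
      {n : ℕ | 1 ≤ n ∧ n ≤ N ∧ P n} := by
    intro n hn
    rw [Finset.mem_coe, Finset.mem_image] at hn
    obtain ⟨m, hm, rfl⟩ := hn
    rw [Finset.mem_filter] at hm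
    exact (hS m hm.1 hm.2).2
  have h2 := Set.ncard_le_ncard h1 hfin
  rw [Set.ncard_coe_finset, Finset.card_image_of_injOn] at h2
  · exact_mod_cast h2
  · intro m hm m' hm' hmm
    rw [Finset.mem_coe, Finset.mem_filter] at hm hm'
    have g1 := (hS m hm.1 hm.2).1
    have g2 := (hS m' hm'.1 hm'.2).1
    simp only at hmm
    omega

/-- the mean over the indices -/
theorem ix (hRH : RiemannHypothesis) (δ : ℝ) (hδ : 0 < δ) (hδ1 : δ ≤ 1 / 10) :
    ∃ L0 : ℕ, 8 ≤ L0 ∧ ∀ L : ℕ, L0 ≤ L → ∃ T1 : ℝ, 100 ≤ T1 ∧ ∀ T t : ℝ, T1 ≤ T → T ≤ t →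
      t ≤ 2 * T → ∀ s : ℕ → ℝ, (∀ n m, |s n - s m| ≤ 2) → (∀ n, |s n| ≤ 2) →
      ∑ n ∈ Finset.Ico (NZ t + 1) (NZ (t + T / 8)),
          (yy T (n + 1) - yy T n) * BB s L (n + 1) ^ 2 ≤
        (1 + δ) ^ 2 * ∑ m ∈ Finset.Ioc (NZ t) (NZ (t + T / 8)), BB s L m ^ 2 +
          3 * δ * L * Mw T := by
  have hRHs := rhs_of hRH
  obtain ⟨c1, hc1, m1, hm1, H1⟩ := Pool.Agent.TH800.LD.main hRHs (δ / 4) (by positivity)
    (by linarith)
  obtain ⟨c2, hc2, m2, hm2, H2⟩ := Pool.Agent.TH800.LD.main hRHs (1 / 2) (by norm_num)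
    (by norm_num)
  set c : ℝ := min c1 c2 with hcdef
  have hc : 0 < c := lt_min hc1 hc2
  obtain ⟨C, hC, hup⟩ := NZ_three
  obtain ⟨T2, hT2, hgc⟩ := gap_cmp (δ / 4) (by positivity)
  obtain ⟨L0, hL08, hpar⟩ := params δ c (3072 * C) hδ hc (by positivity) (max m1 m2)
  refine ⟨L0, hL08, fun L hL => ?_⟩
  obtain ⟨h, hm, hh3, hch, hh2, hexp⟩ := hpar L hL
  have hL8 : (8 : ℝ) ≤ L := by exact_mod_cast hL08.trans hL
  have hL0 : (0 : ℝ) < L := by linarith
  have hh0 : (0 : ℝ) < h := by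
    have : 0 < h := by omega
    exact_mod_cast this
  obtain ⟨T3, hT3, hcnt⟩ := cnt_low (1 / 2) (1 / 2) (by norm_num) (by norm_num) (by norm_num)
  have hev : ∀ᶠ T : ℝ in atTop, 64 * (64 * h * L / δ + h) + 2000 ≤ T := eventually_ge_atTop _
  obtain ⟨T4, hT4⟩ := hev.exists_forall_of_atTop
  refine ⟨max T2 (max (2 * T3) T4), hT2.trans (le_max_left _ _),
    fun T t hT ht1 ht2 s hs1 hs2 => ?_⟩
  have hTT2 : T2 ≤ T := (le_max_left _ _).trans hT
  have hTT3 : 2 * T3 ≤ T := ((le_max_left _ _).trans (le_max_right _ _)).trans hT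
  have hTT4 := hT4 T (((le_max_right _ _).trans (le_max_right _ _)).trans hT)
  have hT100 : 100 ≤ T := hT2.trans hTT2
  have hTpos : 0 < T := by linarith
  have hM := Mw_pos hT100
  have hpi := Real.pi_pos
  have hpi4 := Real.pi_lt_four
  have hlT : 0 < Real.log T := Real.log_pos (by linarith)
  have hlT1 : 1 ≤ Real.log T := by
    rw [Real.le_log_iff_exp_le (by linarith)]
    have := Real.exp_one_lt_d9
    linarith
  have hMT : T / 64 ≤ Mw T := by
    unfold Mw
    rw [le_div_iff₀ (by positivity)]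
    have g2 : T / 8 * 1 ≤ T / 8 * Real.log T := mul_le_mul_of_nonneg_left hlT1 (by linarith)
    nlinarith
  have hTM : T * Real.log T ≤ 64 * Mw T := by
    unfold Mw
    rw [← mul_div_assoc, le_div_iff₀ (by positivity)]
    have : 0 < T * Real.log T := by positivity
    nlinarith
  set a := NZ t with ha
  set b := NZ (t + T / 8) with hb
  have hab : a ≤ b := SG.NZ_mono (by linarith)
  -- many zeros below `t`
  have hhalf : (NZ (T / 2) : ℝ) + h ≤ a := by
    have g1 := hcnt (T / 2) (T / 2) (by linarith) le_rfl (by linarith)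
    have e1 : T / 2 + 1 / 2 * (T / 2) = 3 * T / 4 := by ring
    rw [e1] at g1
    have g2 : (NZ (3 * T / 4) : ℝ) ≤ a := by exact_mod_cast SG.NZ_mono (by linarith)
    have g3 : (h : ℝ) ≤ (1 - 1 / 2) * (1 / 2 * (T / 2) * Real.log (T / 2) / (2 * Real.pi)) := by
      have g4 : 1 ≤ Real.log (T / 2) := by
        rw [Real.le_log_iff_exp_le (by linarith)]
        have := Real.exp_one_lt_d9
        linarith
      have g5 : T / 64 ≤ (1 - 1 / 2) * (1 / 2 * (T / 2) * Real.log (T / 2) / (2 * Real.pi)) := by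
        have g6 : (1 - 1 / 2) * (1 / 2 * (T / 2) * Real.log (T / 2) / (2 * Real.pi)) =
            T / 8 * Real.log (T / 2) / (2 * Real.pi) := by ring
        rw [g6, le_div_iff₀ (by positivity)]
        have g7 : T / 8 * 1 ≤ T / 8 * Real.log (T / 2) :=
          mul_le_mul_of_nonneg_left g4 (by linarith)
        nlinarith
      have g8 : 0 ≤ 64 * (h : ℝ) * L / δ := by positivity
      linarith
    linarith
  have hhalf' : NZ (T / 2) + h ≤ a := by exact_mod_cast hhalf
  have hord : ∀ n, a + 1 - h ≤ n → 1 ≤ n ∧ T / 2 ≤ ord n := by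
    intro n hn
    have hn1 : 1 ≤ n := by omega
    refine ⟨hn1, ?_⟩
    by_contra hcon
    push Not at hcon
    have := (SG.ord_le_iff hn1 (T / 2)).mp hcon.le
    omega
  set g : ℕ → ℝ := fun n => yy T (n + 1) - yy T n with hg
  have hg0 : ∀ n, 1 ≤ n → 0 ≤ g n := fun n hn => sub_nonneg.2 (yy_mono hT100 hn (Nat.le_succ n))
  -- forward sums
  have hDD : ∀ n, a + 1 - h ≤ n → DD g h n ≤ (1 + δ / 4) * ∑ i ∈ Finset.range h, del (n + i) := by
    intro n hn
    unfold DD
    rw [Finset.mul_sum]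
    refine Finset.sum_le_sum fun i _ => ?_
    obtain ⟨q1, q2⟩ := hord (n + i) (by omega)
    exact (hgc T hTT2 (n + i) q1 q2).2
  have hdel0 : ∀ n, a + 1 - h ≤ n → 0 ≤ del n := by
    intro n hn
    obtain ⟨q1, q2⟩ := hord n hn
    exact (hgc T hTT2 n q1 q2).1
  -- smoothing
  have hsm := smooth s g hs1 hg0 L h a b (by omega) (by omega) δ hδ
  set S := Finset.Ico (a + 2) (b + h) with hS
  set x : ℕ → ℝ := fun m => DD g h (m - h) / h with hx
  set J : ℕ := ∑ m ∈ S, ⌈x m⌉₊ with hJ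
  have hJx : ∀ m ∈ S, x m ≤ J + 1 := by
    intro m hm
    have q1 : ⌈x m⌉₊ ≤ J := Finset.single_le_sum (f := fun m => ⌈x m⌉₊) (fun _ _ => Nat.zero_le _) hm
    have q2 : (⌈x m⌉₊ : ℝ) ≤ J := by exact_mod_cast q1
    linarith [Nat.le_ceil (x m)]
  have hex := excess S x (BB s L) δ (4 * (L : ℝ) ^ 2) hδ (by positivity) (BB_bound s hs2 L) J hJx
  set N := NZ (3 * T) with hN
  have hbN : b ≤ N := SG.NZ_mono (by linarith)
  have hN1 : 1 ≤ N := by
    have : h ≤ a := by omega
    omega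
  have hNup : (N : ℝ) ≤ 64 * C * Mw T := by
    refine (hup T (by linarith)).trans ?_
    have := mul_le_mul_of_nonneg_left hTM hC.le
    linarith
  have hlogh : 1 ≤ Real.log h := by
    rw [Real.le_log_iff_exp_le hh0]
    have h3 : (3 : ℝ) ≤ h := by exact_mod_cast hh3
    have := Real.exp_one_lt_d9
    linarith
  -- the first exceptional set
  have hE1 : ((S.filter (fun m => 1 + δ < x m)).card : ℝ) ≤ N * Real.exp (-c * h) := by
    refine (count_map S h N (fun n => δ / 4 * h ≤ |∑ i ∈ Finset.range h, del (n + i) - h|)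
      (fun m => 1 + δ < x m) ?_).trans ((H1 N hN1 h ((le_max_left _ _).trans hm)).trans ?_)
    · intro m hmS hxm
      rw [hS, Finset.mem_Ico] at hmS
      refine ⟨by omega, by omega, by omega, ?_⟩
      have q1 := hDD (m - h) (by omega)
      simp only [hx] at hxm
      rw [lt_div_iff₀ hh0] at hxm
      have q2 : (1 + δ / 4) * ((1 + δ / 4) * h) ≤ (1 + δ / 4) * ∑ i ∈ Finset.range h, del (m - h + i) := by
        refine le_trans ?_ (hxm.le.trans q1)
        rw [← mul_assoc]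
        apply mul_le_mul_of_nonneg_right _ hh0.le
        nlinarith
      have q3 := le_of_mul_le_mul_left q2 (by positivity)
      refine le_trans ?_ (le_abs_self _)
      linarith
    · apply mul_le_mul_of_nonneg_left _ (Nat.cast_nonneg _)
      apply Real.exp_le_exp.2
      have q1 : c ≤ c1 := min_le_left _ _
      have q2 : c * h ≤ c1 * (h * Real.log h) := by
        apply mul_le_mul q1 _ hh0.le hc1.le
        nlinarith
      linarith
  -- the other exceptional sets
  have hE2 : ∀ j ∈ Finset.Icc 4 J, ((S.filter (fun m => (j : ℝ) < x m)).card : ℝ) ≤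
      N * Real.exp (-c * h / 3) ^ j := by
    intro j hj
    rw [Finset.mem_Icc] at hj
    set p := j / 2 with hp
    have hp2 : 2 ≤ p := by omega
    have hpj : 2 * p ≤ j := by omega
    have hpj3 : j ≤ 3 * p := by omega
    have hph : 1 ≤ p * h := by
      have : 0 < p * h := Nat.mul_pos (by omega) (by omega)
      omega
    refine (count_map S h N (fun n => 1 / 2 * ((p * h : ℕ) : ℝ) ≤
      |∑ i ∈ Finset.range (p * h), del (n + i) - ((p * h : ℕ) : ℝ)|)
      (fun m => (j : ℝ) < x m) ?_).trans ((H2 N hN1 (p * h) (by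
        have q1 : m2 ≤ h := (le_max_right _ _).trans hm
        exact q1.trans (Nat.le_mul_of_pos_left h (by omega)))).trans ?_)
    · intro m hmS hxm
      rw [hS, Finset.mem_Ico] at hmS
      refine ⟨by omega, by omega, by omega, ?_⟩
      have q1 := hDD (m - h) (by omega)
      simp only [hx] at hxm
      rw [lt_div_iff₀ hh0] at hxm
      have q2 : ∑ i ∈ Finset.range h, del (m - h + i) ≤
          ∑ i ∈ Finset.range (p * h), del (m - h + i) := by
        apply Finset.sum_le_sum_of_subset_of_nonneg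
        · apply Finset.range_mono
          exact Nat.le_mul_of_pos_left h (by omega)
        · intro i _ _
          exact hdel0 _ (by omega)
      have q3 : (2 * p : ℝ) * h ≤ (j : ℝ) * h := by
        apply mul_le_mul_of_nonneg_right _ hh0.le
        exact_mod_cast hpj
      have q4 : (2 * p : ℝ) * h ≤ (1 + δ / 4) * ∑ i ∈ Finset.range (p * h), del (m - h + i) :=
        q3.trans (hxm.le.trans (q1.trans (mul_le_mul_of_nonneg_left q2 (by positivity))))
      refine le_trans ?_ (le_abs_self _)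
      push_cast
      set V := ∑ i ∈ Finset.range (p * h), del (m - h + i)
      have hV0 : 0 ≤ V := Finset.sum_nonneg fun i _ => hdel0 _ (by omega)
      have q5 : (1 + δ / 4) * V ≤ 11 / 10 * V := by nlinarith
      have q6 : (0 : ℝ) ≤ p * h := by positivity
      nlinarith
    · apply mul_le_mul_of_nonneg_left _ (Nat.cast_nonneg _)
      rw [← Real.exp_nat_mul]
      apply Real.exp_le_exp.2
      have q1 : c ≤ c2 := min_le_right _ _
      have q0 : (1 : ℝ) ≤ ((p * h : ℕ) : ℝ) := by exact_mod_cast hph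
      have q2 : Real.log h ≤ Real.log ((p * h : ℕ) : ℝ) := by
        apply Real.log_le_log hh0
        exact_mod_cast Nat.le_mul_of_pos_left h (by omega)
      have q3 : c * ((p * h : ℕ) : ℝ) ≤ c2 * (((p * h : ℕ) : ℝ) * Real.log ((p * h : ℕ) : ℝ)) := by
        apply mul_le_mul q1 _ (by positivity) hc2.le
        nlinarith
      have q4 : (j : ℝ) * h ≤ 3 * ((p * h : ℕ) : ℝ) := by
        push_cast
        have : (j : ℝ) ≤ 3 * p := by exact_mod_cast hpj3
        nlinarith
      have q5 : c * ((j : ℝ) * h) ≤ c * (3 * ((p * h : ℕ) : ℝ)) :=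
        mul_le_mul_of_nonneg_left q4 hc.le
      have q6 : (j : ℝ) * (-c * h / 3) = -(c * ((j : ℝ) * h)) / 3 := by ring
      rw [q6]
      linarith
  have hE3 : ∑ j ∈ Finset.Icc 4 J, ((S.filter (fun m => (j : ℝ) < x m)).card : ℝ) ≤
      N * (2 * Real.exp (-c * h)) := by
    refine (Finset.sum_le_sum hE2).trans ?_
    rw [← Finset.mul_sum]
    apply mul_le_mul_of_nonneg_left _ (Nat.cast_nonneg _)
    have q1 : Real.exp (-c * h / 3) ≤ 1 / 2 := by
      have q2 : -c * h / 3 ≤ -1 := by linarith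
      have q3 : Real.exp (-c * h / 3) ≤ Real.exp (-1) := Real.exp_le_exp.2 q2
      have q4 := Real.exp_neg_one_lt_d9
      linarith
    have q2 := geo (Real.exp (-c * h / 3)) (Real.exp_nonneg _) q1 J
    refine q2.trans (le_of_eq ?_)
    rw [← Real.exp_nat_mul]
    congr 2
    push_cast
    ring
  -- total of the exceptional part
  have htot : 4 * (L : ℝ) ^ 2 * (4 * ((S.filter (fun m => 1 + δ < x m)).card : ℝ) +
      ∑ j ∈ Finset.Icc 4 J, ((S.filter (fun m => (j : ℝ) < x m)).card : ℝ)) ≤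
      δ / 2 * L * Mw T := by
    have q1 : 4 * ((S.filter (fun m => 1 + δ < x m)).card : ℝ) +
        ∑ j ∈ Finset.Icc 4 J, ((S.filter (fun m => (j : ℝ) < x m)).card : ℝ) ≤
        6 * N * Real.exp (-c * h) := by linarith
    have q2 := mul_le_mul_of_nonneg_left q1 (by positivity : (0 : ℝ) ≤ 4 * (L : ℝ) ^ 2)
    refine q2.trans ?_
    have q3 : 6 * (N : ℝ) * Real.exp (-c * h) ≤ 6 * (64 * C * Mw T) * Real.exp (-c * h) := by
      apply mul_le_mul_of_nonneg_right _ (Real.exp_nonneg _)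
      linarith
    have q4 := mul_le_mul_of_nonneg_left q3 (by positivity : (0 : ℝ) ≤ 4 * (L : ℝ) ^ 2)
    refine q4.trans ?_
    have q5 : 4 * (L : ℝ) ^ 2 * (6 * (64 * C * Mw T) * Real.exp (-c * h)) =
        (3072 * C * L * Real.exp (-c * h)) * (L / 2 * Mw T) := by ring
    rw [q5]
    have q6 := mul_le_mul_of_nonneg_right hexp (by positivity : (0 : ℝ) ≤ L / 2 * Mw T)
    refine q6.trans (le_of_eq ?_)
    ring
  -- the edge
  have hedge : ∑ m ∈ S, BB s L m ^ 2 ≤ ∑ m ∈ Finset.Ioc a b, BB s L m ^ 2 +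
      h * (4 * (L : ℝ) ^ 2) := by
    have q1 : S ⊆ Finset.Ioc a b ∪ Finset.Ioo b (b + h) := by
      intro m hm
      rw [hS, Finset.mem_Ico] at hm
      rw [Finset.mem_union, Finset.mem_Ioc, Finset.mem_Ioo]
      omega
    have q2 := Finset.sum_le_sum_of_subset_of_nonneg (f := fun m => BB s L m ^ 2) q1
      (fun m _ _ => sq_nonneg _)
    refine q2.trans ?_
    rw [Finset.sum_union (by
      rw [Finset.disjoint_left]
      intro m hm1 hm2
      rw [Finset.mem_Ioc] at hm1
      rw [Finset.mem_Ioo] at hm2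
      omega)]
    apply add_le_add le_rfl
    refine (Finset.sum_le_sum fun m _ => BB_bound s hs2 L m).trans ?_
    rw [Finset.sum_const, Nat.card_Ioo, nsmul_eq_mul]
    apply mul_le_mul_of_nonneg_right _ (by positivity)
    have : b + h - b - 1 ≤ h := by omega
    exact_mod_cast this
  -- the sum of the gaps
  have hgs : ∑ n ∈ Finset.Ico (a + 1) b, g n ≤ Mw T := by
    rcases Nat.lt_or_ge a b with hlt | hge
    · have q1 : ∑ n ∈ Finset.Ico (a + 1) b, g n = yy T b - yy T (a + 1) :=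
        sum_gaps a b (yy T) (by omega)
      rw [q1]
      have q2 : ord b ≤ t + T / 8 := (SG.ord_le_iff (by omega) _).mpr le_rfl
      have q3 : t < ord (a + 1) := by
        by_contra hcon
        push Not at hcon
        have := (SG.ord_le_iff (by omega : 1 ≤ a + 1) t).mp hcon
        omega
      have q4 : yy T b - yy T (a + 1) = (ord b - ord (a + 1)) * (Real.log T / (2 * Real.pi)) := by
        simp only [yy]; ring
      have q5 : Mw T = T / 8 * (Real.log T / (2 * Real.pi)) := by unfold Mw; ring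
      rw [q4, q5]
      apply mul_le_mul_of_nonneg_right _ (by positivity)
      linarith
    · rw [Finset.Ico_eq_empty (by omega), Finset.sum_empty]
      exact hM.le
  clear hE1 hE2 hE3 hDD hdel0 hord hhalf hhalf' hJx H1 H2 hgc hcnt hT4 hpar hup hexp
  have f1 : (1 + 1 / δ) * (4 * (h : ℝ) ^ 2) * ∑ n ∈ Finset.Ico (a + 1) b, g n ≤
      8 / 9 * δ * L * Mw T := by
    have q1 : (1 + 1 / δ) * (4 * (h : ℝ) ^ 2) ≤ 8 / 9 * δ * L := by
      have q2 : 1 + 1 / δ ≤ 2 / δ := by
        rw [le_div_iff₀ hδ]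
        have : (1 + 1 / δ) * δ = δ + 1 := by field_simp
        rw [this]
        linarith
      have q3 : (1 + 1 / δ) * (4 * (h : ℝ) ^ 2) ≤ 2 / δ * (4 * (δ ^ 2 * L / 9)) := by
        apply mul_le_mul q2 (by linarith) (by positivity) (by positivity)
      refine q3.trans (le_of_eq ?_)
      field_simp
      ring
    exact mul_le_mul q1 hgs (Finset.sum_nonneg fun n hn => by
      rw [Finset.mem_Ico] at hn
      exact hg0 n (by omega)) (by positivity)
  have f2 : (h : ℝ) * (4 * (L : ℝ) ^ 2) ≤ δ / 16 * L * Mw T := by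
    have q1 : 64 * (h : ℝ) * L / δ ≤ Mw T := by
      have : (0 : ℝ) ≤ h := hh0.le
      linarith
    rw [div_le_iff₀ hδ] at q1
    have q2 := mul_le_mul_of_nonneg_left q1 (by positivity : (0 : ℝ) ≤ L / 16)
    refine le_trans (le_of_eq ?_) (q2.trans (le_of_eq ?_))
    · ring
    · ring
  have f3 := mul_le_mul_of_nonneg_left (hex.trans (add_le_add
    (mul_le_mul_of_nonneg_left hedge (by linarith : (0 : ℝ) ≤ 1 + δ)) htot))
    (by linarith : (0 : ℝ) ≤ 1 + δ)
  refine hsm.trans ((add_le_add f3 f1).trans ?_)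
  set V := ∑ m ∈ Finset.Ioc a b, BB s L m ^ 2
  have e1 : (1 + δ) * ((1 + δ) * (V + h * (4 * (L : ℝ) ^ 2)) + δ / 2 * L * Mw T) +
      8 / 9 * δ * L * Mw T = (1 + δ) ^ 2 * V + ((1 + δ) ^ 2 * (h * (4 * (L : ℝ) ^ 2)) +
      ((1 + δ) / 2 + 8 / 9) * (δ * L * Mw T)) := by ring
  rw [e1]
  have f4 : (1 + δ) ^ 2 * (h * (4 * (L : ℝ) ^ 2)) ≤ 2 * (δ / 16 * L * Mw T) := by
    have q1 : (1 + δ) ^ 2 ≤ 2 := by nlinarith
    exact mul_le_mul q1 f2 (by positivity) (by norm_num)
  have f5 : 0 ≤ δ * L * Mw T := by positivity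
  have f6 : ((1 + δ) / 2 + 8 / 9) * (δ * L * Mw T) ≤ 2 * (δ * L * Mw T) :=
    mul_le_mul_of_nonneg_right (by linarith) f5
  linarith

end Pool.Agent.TH800.AH
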