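import Pool.Agent.H177R3.CosA2

/-! Plancherel's theorem for block sums over a finite set of points. -/

open Complex Filter Topology Set MeasureTheory
open scoped FourierTransform

namespace Pool.Agent.TH800.AH

open H177.Lat

/-- block sum over the points in `(x, x + X]` -/
noncomputable def hh (I : Finset ℕ) (s y : ℕ → ℝ) (X x : ℝ) : ℝ :=
  ∑ n ∈ I, (Set.Ico (y n - X) (y n)).indicator (fun _ => s n) x

/-- the exponential sum -/
noncomputable def GG (I : Finset ℕ) (s y : ℕ → ℝ) (w : ℝ) : ℂ :=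
  ∑ n ∈ I, (s n : ℂ) * ee (w * y n)

lemma GG_cont (I : Finset ℕ) (s y : ℕ → ℝ) : Continuous (GG I s y) := by
  unfold GG
  exact continuous_finsetSum _ fun n _ => continuous_const.mul (ee_cont (by fun_prop))

lemma hh_meas (I : Finset ℕ) (s y : ℕ → ℝ) (X : ℝ) : Measurable (hh I s y X) := by
  unfold hh
  refine Finset.measurable_sum _ fun i _ => ?_
  exact measurable_const.indicator measurableSet_Ico

lemma ind_ico_int (a b c : ℝ) : Integrable ((Set.Ico a b).indicator (fun _ => c)) := by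
  rw [integrable_indicator_iff measurableSet_Ico]
  exact (continuous_const.integrableOn_Icc (a := a) (b := b)).mono_set Set.Ico_subset_Icc_self

lemma hh_int (I : Finset ℕ) (s y : ℕ → ℝ) (X : ℝ) : Integrable (hh I s y X) := by
  unfold hh
  exact integrable_finsetSum _ fun n _ => ind_ico_int _ _ _

lemma hhc_memLp (I : Finset ℕ) (s y : ℕ → ℝ) (X : ℝ) :
    MemLp (fun x => (hh I s y X x : ℂ)) 2 := by
  have h1 : (fun x => (hh I s y X x : ℂ)) =
      fun x => ∑ n ∈ I, (Set.Ico (y n - X) (y n)).indicator (fun _ => (s n : ℂ)) x := by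
    funext x
    unfold hh
    push_cast
    refine Finset.sum_congr rfl fun n _ => ?_
    by_cases h : x ∈ Set.Ico (y n - X) (y n)
    · rw [Set.indicator_of_mem h, Set.indicator_of_mem h]
    · rw [Set.indicator_of_notMem h, Set.indicator_of_notMem h]; simp
  rw [h1]
  exact memLp_finsetSum _ fun n _ =>
    memLp_indicator_const 2 measurableSet_Ico (s n : ℂ) (Or.inr measure_Ico_lt_top.ne)

lemma hh_four (I : Finset ℕ) (s y : ℕ → ℝ) {X : ℝ} (hX : 0 < X) (w : ℝ) :
    (((2 * Real.pi * w : ℝ) : ℂ) * Complex.I) * 𝓕 (fun x => (hh I s y X x : ℂ)) (-w) =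
      GG I s y w * (1 - ee (-(w * X))) := by
  have h1 : 𝓕 (fun x => (hh I s y X x : ℂ)) (-w) = ∑ n ∈ I,
      (s n : ℂ) * ∫ v in (y n - X)..(y n), ee (w * v) := by
    rw [Real.fourier_real_eq_integral_exp_smul]
    have h2 : ∀ v : ℝ, Complex.exp (↑(-2 * Real.pi * v * -w) * Complex.I) • (hh I s y X v : ℂ) =
        ∑ n ∈ I, (Set.Ico (y n - X) (y n)).indicator (fun v => (s n : ℂ) * ee (w * v)) v := by
      intro v
      have e1 : Complex.exp (↑(-2 * Real.pi * v * -w) * Complex.I) = ee (w * v) := by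
        unfold ee
        congr 2
        push_cast; ring
      rw [e1, smul_eq_mul]
      unfold hh
      push_cast
      rw [Finset.mul_sum]
      refine Finset.sum_congr rfl fun n _ => ?_
      by_cases h : v ∈ Set.Ico (y n - X) (y n)
      · rw [Set.indicator_of_mem h, Set.indicator_of_mem h]; ring
      · rw [Set.indicator_of_notMem h, Set.indicator_of_notMem h]; simp
    simp_rw [h2]
    have hc : Continuous fun v : ℝ => ee (w * v) := ee_cont (by fun_prop)
    rw [integral_finsetSum]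
    · refine Finset.sum_congr rfl fun n _ => ?_
      rw [integral_indicator measurableSet_Ico, integral_const_mul,
        intervalIntegral.integral_of_le (by linarith), integral_Ico_eq_integral_Ioc]
    · intro n _
      rw [integrable_indicator_iff measurableSet_Ico]
      exact ((continuous_const.mul hc).integrableOn_Icc (a := y n - X) (b := y n)).mono_set
        Set.Ico_subset_Icc_self
  rw [h1, Finset.mul_sum]
  unfold GG
  rw [Finset.sum_mul]
  refine Finset.sum_congr rfl fun n _ => ?_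
  have h3 := ee_ftc w (y n - X) (y n)
  have h4 : ee (w * (y n - X)) = ee (w * y n) * ee (-(w * X)) := by
    rw [← ee_add]; congr 1; ring
  rw [h4] at h3
  linear_combination (s n : ℂ) * h3

/-- the kernel `(sin (π X w) / (π X w)) ^ 2` -/
noncomputable def sk (X w : ℝ) : ℝ := Real.sinc (Real.pi * X * w) ^ 2

lemma sk_nonneg (X w : ℝ) : 0 ≤ sk X w := sq_nonneg _

lemma sk_cont (X : ℝ) : Continuous (sk X) := by
  unfold sk
  exact (Real.continuous_sinc.comp (by fun_prop)).pow 2

lemma sk_le_one (X w : ℝ) : sk X w ≤ 1 := by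
  unfold sk
  have h := Real.abs_sinc_le_one (Real.pi * X * w)
  rw [← sq_abs]
  exact pow_le_one₀ (abs_nonneg _) h

lemma sk_le (X w : ℝ) (hX : 0 < X) (hw : w ≠ 0) : sk X w ≤ 1 / (X * w) ^ 2 / 9 := by
  unfold sk
  have h0 : Real.pi * X * w ≠ 0 := by
    have := Real.pi_pos
    positivity
  rw [Real.sinc_of_ne_zero h0, div_pow]
  have h1 : Real.sin (Real.pi * X * w) ^ 2 ≤ 1 := by
    have := Real.sin_sq_add_cos_sq (Real.pi * X * w)
    nlinarith [sq_nonneg (Real.cos (Real.pi * X * w))]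
  have hpi := Real.pi_gt_three
  have h2 : 0 < (X * w) ^ 2 := by positivity
  rw [div_div, div_le_div_iff₀ (by positivity) (by positivity)]
  have h3 : (Real.pi * X * w) ^ 2 = Real.pi ^ 2 * (X * w) ^ 2 := by ring
  rw [h3]
  have h4 : 9 ≤ Real.pi ^ 2 := by nlinarith
  nlinarith

lemma one_sub_ee (z : ℝ) : ‖1 - ee (-z)‖ ^ 2 = 4 * Real.sin (Real.pi * z) ^ 2 := by
  unfold ee
  rw [← Complex.normSq_eq_norm_sq]
  have h1 : Complex.exp (((2 * Real.pi * -z : ℝ) : ℂ) * Complex.I) =
      ⟨Real.cos (2 * Real.pi * -z), Real.sin (2 * Real.pi * -z)⟩ := by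
    apply Complex.ext
    · rw [Complex.exp_ofReal_mul_I_re]
    · rw [Complex.exp_ofReal_mul_I_im]
  rw [h1, Complex.normSq_apply]
  simp only [Complex.sub_re, Complex.one_re, Complex.sub_im, Complex.one_im]
  have h2 : 2 * Real.pi * -z = -(2 * (Real.pi * z)) := by ring
  rw [h2, Real.cos_neg, Real.sin_neg, Real.cos_two_mul, Real.sin_two_mul]
  have h3 := Real.sin_sq_add_cos_sq (Real.pi * z)
  set a := Real.sin (Real.pi * z)
  set b := Real.cos (Real.pi * z)
  have h4 : b ^ 2 = 1 - a ^ 2 := by linarith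
  have : (1 - (2 * b ^ 2 - 1)) * (1 - (2 * b ^ 2 - 1)) + (0 - -(2 * a * b)) * (0 - -(2 * a * b)) =
      4 * (1 - b ^ 2) ^ 2 + 4 * a ^ 2 * b ^ 2 := by ring
  rw [this, h4]
  ring

lemma hh_four_sq (I : Finset ℕ) (s y : ℕ → ℝ) {X : ℝ} (hX : 0 < X) (w : ℝ) (hw : w ≠ 0) :
    ‖𝓕 (fun x => (hh I s y X x : ℂ)) (-w)‖ ^ 2 = X ^ 2 * (sk X w * ‖GG I s y w‖ ^ 2) := by
  have h := congrArg norm (hh_four I s y hX w)
  rw [norm_mul, norm_mul, norm_mul, Complex.norm_I, mul_one, Complex.norm_real,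
    Real.norm_eq_abs] at h
  have h1 : (2 * Real.pi * w) ^ 2 * ‖𝓕 (fun x => (hh I s y X x : ℂ)) (-w)‖ ^ 2 =
      ‖GG I s y w‖ ^ 2 * (4 * Real.sin (Real.pi * (w * X)) ^ 2) := by
    rw [← one_sub_ee, ← mul_pow ‖GG I s y w‖, ← h, mul_pow |2 * Real.pi * w|, sq_abs]
  have hpi := Real.pi_pos
  have h0 : Real.pi * X * w ≠ 0 := by positivity
  unfold sk
  rw [Real.sinc_of_ne_zero h0, div_pow]
  have e1 : Real.pi * (w * X) = Real.pi * X * w := by ring
  rw [e1] at h1
  have h3 : (2 * Real.pi * w) ^ 2 ≠ 0 := by positivity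
  apply mul_left_cancel₀ h3
  rw [h1]
  generalize Real.sin (Real.pi * X * w) = S
  generalize ‖GG I s y w‖ = B
  field_simp
  ring

/-- Plancherel's theorem for the block sums -/
theorem planch (I : Finset ℕ) (s y : ℕ → ℝ) {X : ℝ} (hX : 0 < X) :
    Integrable (fun w => sk X w * ‖GG I s y w‖ ^ 2) ∧
    ∫ x, hh I s y X x ^ 2 = X ^ 2 * ∫ w, sk X w * ‖GG I s y w‖ ^ 2 := by
  set f : ℝ → ℂ := fun x => (hh I s y X x : ℂ) with hf
  have hfi : Integrable f := (hh_int I s y X).ofReal
  have hpl := Pool.Agent.Helper76.NormalHP.plancherel_lintegral f hfi (hhc_memLp I s y X)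
  have hcont : Continuous (𝓕 f) := by
    exact VectorFourier.fourierIntegral_continuous Real.continuous_fourierChar
      continuous_inner hfi
  -- the right side is finite
  have hsq : Integrable (fun x => hh I s y X x ^ 2) := by
    have h1 : ∀ x, ‖hh I s y X x‖ ≤ ∑ n ∈ I, |s n| := by
      intro x
      unfold hh
      refine (norm_sum_le _ _).trans (Finset.sum_le_sum fun n _ => ?_)
      by_cases h : x ∈ Set.Ico (y n - X) (y n)
      · rw [Set.indicator_of_mem h, Real.norm_eq_abs]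
      · rw [Set.indicator_of_notMem h, norm_zero]; exact abs_nonneg _
    have h2 := (hh_int I s y X).bdd_mul (hh_meas I s y X).aestronglyMeasurable
      (Filter.Eventually.of_forall h1)
    refine h2.congr (Filter.Eventually.of_forall fun x => ?_)
    simp only [sq]
  have hR : ∫⁻ t, ‖f t‖ₑ ^ 2 = ENNReal.ofReal (∫ x, hh I s y X x ^ 2) := by
    rw [ofReal_integral_eq_lintegral_ofReal hsq (Filter.Eventually.of_forall fun x => sq_nonneg _)]
    refine lintegral_congr fun x => ?_
    rw [hf]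
    simp only
    rw [← ofReal_norm, ← ENNReal.ofReal_pow (norm_nonneg _), Complex.norm_real, Real.norm_eq_abs,
      sq_abs]
  have hL0 : ∫⁻ ξ, ‖𝓕 f ξ‖ₑ ^ 2 = ∫⁻ w, ‖𝓕 f (-w)‖ₑ ^ 2 := by
    have := (Measure.measurePreserving_neg (volume : Measure ℝ)).lintegral_comp
      (f := fun ξ => ‖𝓕 f ξ‖ₑ ^ 2) (by
        exact hcont.measurable.enorm.pow_const 2)
    rw [← this]
  have hae : ∀ᵐ w : ℝ, ‖𝓕 f (-w)‖ₑ ^ 2 =
      ENNReal.ofReal (X ^ 2 * (sk X w * ‖GG I s y w‖ ^ 2)) := by
    have h0 : ∀ᵐ w : ℝ, w ≠ 0 := by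
      simp [ae_iff]
    filter_upwards [h0] with w hw
    rw [← ofReal_norm, ← ENNReal.ofReal_pow (norm_nonneg _), hh_four_sq I s y hX w hw]
  rw [hL0, lintegral_congr_ae hae, hR] at hpl
  have hcont2 : Continuous fun w => X ^ 2 * (sk X w * ‖GG I s y w‖ ^ 2) :=
    continuous_const.mul ((sk_cont X).mul ((GG_cont I s y).norm.pow 2))
  have hpos : ∀ w, 0 ≤ X ^ 2 * (sk X w * ‖GG I s y w‖ ^ 2) := by
    intro w
    have := sk_nonneg X w
    positivity
  have hI2 : Integrable fun w => X ^ 2 * (sk X w * ‖GG I s y w‖ ^ 2) := by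
    refine ⟨hcont2.aestronglyMeasurable, ?_⟩
    rw [hasFiniteIntegral_iff_ofReal (Filter.Eventually.of_forall hpos), hpl]
    exact ENNReal.ofReal_lt_top
  have hI1 : Integrable fun w => sk X w * ‖GG I s y w‖ ^ 2 := by
    have h2 := hI2.const_mul ((X ^ 2)⁻¹)
    refine h2.congr (Filter.Eventually.of_forall fun w => ?_)
    simp only
    field_simp
  refine ⟨hI1, ?_⟩
  rw [← ofReal_integral_eq_lintegral_ofReal hI2 (Filter.Eventually.of_forall hpos)] at hpl
  have h3 : 0 ≤ ∫ w, X ^ 2 * (sk X w * ‖GG I s y w‖ ^ 2) := integral_nonneg hpos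
  have h4 : 0 ≤ ∫ x, hh I s y X x ^ 2 := integral_nonneg fun x => sq_nonneg _
  have h5 := (ENNReal.ofReal_eq_ofReal_iff h3 h4).1 hpl
  rw [← h5, integral_const_mul]

lemma sq_integrable (I : Finset ℕ) (s y : ℕ → ℝ) (X : ℝ) :
    Integrable (fun x => hh I s y X x ^ 2) := by
  have h1 : ∀ x, ‖hh I s y X x‖ ≤ ∑ n ∈ I, |s n| := by
    intro x
    unfold hh
    refine (norm_sum_le _ _).trans (Finset.sum_le_sum fun n _ => ?_)
    by_cases h : x ∈ Set.Ico (y n - X) (y n)
    · rw [Set.indicator_of_mem h, Real.norm_eq_abs]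
    · rw [Set.indicator_of_notMem h, norm_zero]; exact abs_nonneg _
  have h2 := (hh_int I s y X).bdd_mul (hh_meas I s y X).aestronglyMeasurable
    (Filter.Eventually.of_forall h1)
  refine h2.congr (Filter.Eventually.of_forall fun x => ?_)
  simp only [sq]

end Pool.Agent.TH800.AH
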