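import Pool.Agent.TH800.AH.Aa
import Pool.Agent.TH800.AH.Pl

/-! Pair sums over almost all windows with triangular test functions. -/

open Complex Filter Topology Set MeasureTheory

namespace Pool.Agent.TH800.AH

open H177.Lat H370.A2
open SG (ord NZ)

/-- the indices of the zeros in the window -/
noncomputable def Iw (T t : ℝ) : Finset ℕ := Finset.Ioc (NZ t) (NZ (t + T / 8))

/-- the length of the window at the scale of the mean spacing -/
noncomputable def Mw (T : ℝ) : ℝ := T / 8 * Real.log T / (2 * Real.pi)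

/-- pair sum with the triangular weight at the frequency `τ` -/
noncomputable def KS (I : Finset ℕ) (s y : ℕ → ℝ) (e τ : ℝ) : ℝ :=
  ∑ n ∈ I, ∑ n' ∈ I, s n * s n' * (KK e (y n - y n') * Real.cos (2 * Real.pi * τ * (y n - y n')))

lemma GG_sq (I : Finset ℕ) (s y : ℕ → ℝ) (w : ℝ) :
    ‖GG I s y w‖ ^ 2 = ∑ n ∈ I, ∑ n' ∈ I, s n * s n' * Real.cos (2 * Real.pi * w * (y n - y n')) := by
  have h1 : ((‖GG I s y w‖ ^ 2 : ℝ) : ℂ) =
      ∑ n ∈ I, ∑ n' ∈ I, (s n : ℂ) * (s n' : ℂ) * ee (w * y n - w * y n') := by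
    unfold GG
    push_cast
    rw [← Complex.mul_conj', map_sum, Finset.sum_mul_sum]
    refine Finset.sum_congr rfl fun n _ => Finset.sum_congr rfl fun n' _ => ?_
    rw [map_mul, Complex.conj_ofReal, ee_conj]
    have : w * y n - w * y n' = w * y n + -(w * y n') := by ring
    rw [this, ee_add]
    ring
  have h2 := congrArg Complex.re h1
  rw [Complex.ofReal_re] at h2
  rw [h2, Complex.re_sum]
  refine Finset.sum_congr rfl fun n _ => ?_
  rw [Complex.re_sum]
  refine Finset.sum_congr rfl fun n' _ => ?_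
  rw [← Complex.ofReal_mul, Complex.re_ofReal_mul, ee_re]
  congr 2
  ring

lemma tri_shift2 {e : ℝ} (he : 0 < e) (τ x : ℝ) :
    Integrable (fun w => tri e (w + τ) * Real.cos (2 * Real.pi * w * x)) ∧
    ∫ w, tri e (w + τ) * Real.cos (2 * Real.pi * w * x) =
      KK e x * Real.cos (2 * Real.pi * τ * x) := by
  have hi : Integrable (fun u => tri e u * Real.cos (2 * Real.pi * (u - τ) * x)) :=
    tri_integrable he (by fun_prop)
  have e1 : (fun w => tri e (w + τ) * Real.cos (2 * Real.pi * w * x)) =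
      fun w => (fun u => tri e u * Real.cos (2 * Real.pi * (u - τ) * x)) (w + τ) := by
    funext w
    simp
  rw [e1]
  refine ⟨hi.comp_add_right τ, ?_⟩
  rw [integral_add_right_eq_self (fun u => tri e u * Real.cos (2 * Real.pi * (u - τ) * x)) τ]
  have e2 : ∀ u, tri e u * Real.cos (2 * Real.pi * (u - τ) * x) =
      Real.cos (2 * Real.pi * τ * x) * (tri e u * Real.cos (2 * Real.pi * u * x)) +
      Real.sin (2 * Real.pi * τ * x) * (tri e u * Real.sin (2 * Real.pi * u * x)) := by
    intro u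
    have : 2 * Real.pi * (u - τ) * x = 2 * Real.pi * u * x - 2 * Real.pi * τ * x := by ring
    rw [this, Real.cos_sub]
    ring
  simp_rw [e2]
  rw [integral_add ((tri_integrable he (by fun_prop)).const_mul _)
    ((tri_integrable he (by fun_prop)).const_mul _), integral_const_mul, integral_const_mul,
    tri_sin, mul_zero, add_zero]
  unfold KK
  ring

lemma kernelG (I : Finset ℕ) (s y : ℕ → ℝ) {e : ℝ} (he : 0 < e) (τ : ℝ) :
    Integrable (fun w => tri e (w + τ) * ‖GG I s y w‖ ^ 2) ∧
    ∫ w, tri e (w + τ) * ‖GG I s y w‖ ^ 2 = KS I s y e τ := by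
  have e1 : (fun w => tri e (w + τ) * ‖GG I s y w‖ ^ 2) = fun w => ∑ n ∈ I, ∑ n' ∈ I,
      s n * s n' * (tri e (w + τ) * Real.cos (2 * Real.pi * w * (y n - y n'))) := by
    funext w
    rw [GG_sq, Finset.mul_sum]
    refine Finset.sum_congr rfl fun n _ => ?_
    rw [Finset.mul_sum]
    exact Finset.sum_congr rfl fun n' _ => by ring
  rw [e1]
  have hi : ∀ n ∈ I, Integrable (fun w => ∑ n' ∈ I,
      s n * s n' * (tri e (w + τ) * Real.cos (2 * Real.pi * w * (y n - y n')))) := fun n _ =>
    integrable_finsetSum _ fun n' _ => ((tri_shift2 he τ (y n - y n')).1).const_mul _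
  refine ⟨integrable_finsetSum _ hi, ?_⟩
  rw [integral_finsetSum _ hi]
  unfold KS
  refine Finset.sum_congr rfl fun n _ => ?_
  rw [integral_finsetSum _ fun n' _ => ((tri_shift2 he τ (y n - y n')).1).const_mul _]
  refine Finset.sum_congr rfl fun n' _ => ?_
  rw [integral_const_mul, (tri_shift2 he τ (y n - y n')).2]

/-- Montgomery's theorem for the triangle at the frequency `τ` -/
theorem mt (hRH : RiemannHypothesis) (e τ ε : ℝ) (he : 0 < e) (heτ : e ≤ τ) (hτ : τ + e < 1)
    (hε : 0 < ε) :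
    AA (fun T t => |KS (Iw T t) (fun _ => 1) (yy T) e τ - τ * e * Mw T| ≤ ε * Mw T) := by
  set μ := τ + e with hμ
  have hμ0 : 0 < μ := by linarith
  obtain ⟨δ, hδ, T1, hT1, hP⟩ := almost_smooth hRH μ μ ε hμ0 hτ hμ0 (by linarith) hε
    (fun x => tri e (x - τ)) (1 / e)
    (fun x y => by
      have h1 := tri_lip he (x - τ) (y - τ)
      have e1 : x - τ - (y - τ) = x - y := by ring
      rw [e1] at h1
      exact h1)
    (tri1_zero he heτ le_rfl) (1 / e) (fun x => by
      rw [RR_tri1 he heτ le_rfl, abs_mul, abs_of_nonneg (KK_nonneg he x)]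
      have h1 := KK_sq he x
      have h2 := Real.abs_cos_le_one (2 * Real.pi * τ * x)
      have h3 : 0 ≤ KK e x * x ^ 2 := mul_nonneg (KK_nonneg he x) (sq_nonneg _)
      calc |Real.cos (2 * Real.pi * τ * x)| * KK e x * x ^ 2 =
            |Real.cos (2 * Real.pi * τ * x)| * (KK e x * x ^ 2) := by ring
        _ ≤ 1 * (KK e x * x ^ 2) := mul_le_mul_of_nonneg_right h2 h3
        _ ≤ 1 / e := by linarith)
  obtain ⟨T4, hT4⟩ := (ev_pow μ hτ).exists_forall_of_atTop
  refine ⟨δ, hδ, max 100 (max T1 T4), le_max_left _ _, fun T hT => ?_⟩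
  have hT100 : 100 ≤ T := (le_max_left _ _).trans hT
  have hTT1 : T1 ≤ T := ((le_max_left _ _).trans (le_max_right _ _)).trans hT
  have hTT4 : T4 ≤ T := ((le_max_right _ _).trans (le_max_right _ _)).trans hT
  refine (measure_mono ?_).trans (hP T hTT1 (T / 8) (hT4 T hTT4) le_rfl)
  rintro t ⟨ht, hn⟩
  refine ⟨ht, fun h => hn ?_⟩
  have hA1 : 1 ≤ t := by linarith [ht.1]
  rw [tri1_main he heτ le_rfl, PP_conv hRH hA1] at h
  have e1 : ∑ n ∈ Finset.Ioc (NZ t) (NZ (t + T / 8)), ∑ n' ∈ Finset.Ioc (NZ t) (NZ (t + T / 8)),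
      RR (fun α => tri e (α - τ)) μ (ord n * Real.log T / (2 * Real.pi) -
        ord n' * Real.log T / (2 * Real.pi)) = KS (Iw T t) (fun _ => 1) (yy T) e τ := by
    unfold KS Iw
    refine Finset.sum_congr rfl fun n _ => Finset.sum_congr rfl fun n' _ => ?_
    rw [RR_tri1 he heτ le_rfl]
    unfold yy
    ring
  rw [e1] at h
  have e2 : T / 8 * Real.log T / (2 * Real.pi) = Mw T := rfl
  rw [e2] at h
  have e3 : τ * e * Mw T = Mw T * (τ * e) := by ring
  show |KS (Iw T t) (fun _ => 1) (yy T) e τ - τ * e * Mw T| ≤ ε * Mw T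
  rw [e3]
  exact h

/-- Montgomery's theorem for the triangle at the frequency `0` -/
theorem mt0 (hRH : RiemannHypothesis) (e ε : ℝ) (he : 0 < e) (he1 : e < 1) (hε : 0 < ε) :
    AA (fun T t => KS (Iw T t) (fun _ => 1) (yy T) e 0 ≤ (1 + 2 * e ^ 2 + ε) * Mw T) := by
  have hint : ∀ g : ℝ → ℝ, ∫ α in (-e)..e, tri e α * g α = ∫ α, tri e α * g α := by
    intro g
    apply intervalIntegral.integral_eq_integral_of_support_subset
    intro α hα
    by_contra h
    apply hα
    have : e ≤ |α| := by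
      by_contra h2
      push Not at h2
      obtain ⟨h3, h4⟩ := abs_lt.1 h2
      exact h ⟨h3, h4.le⟩
    show tri e α * g α = 0
    rw [tri_zero he this, zero_mul]
  have hRR : ∀ x, RR (tri e) e x = KK e x := by
    intro x
    unfold RR
    rw [hint]
    rfl
  obtain ⟨δ, hδ, T1, hT1, hP⟩ := almost_smooth hRH e e ε he he1 he (by linarith) hε
    (tri e) (1 / e) (tri_lip he) (fun x hx => tri_zero he hx) (1 / e) (fun x => by
      rw [hRR, abs_of_nonneg (KK_nonneg he x)]
      exact KK_sq he x)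
  obtain ⟨T4, hT4⟩ := (ev_pow e he1).exists_forall_of_atTop
  refine ⟨δ, hδ, max 100 (max T1 T4), le_max_left _ _, fun T hT => ?_⟩
  have hT100 : 100 ≤ T := (le_max_left _ _).trans hT
  have hTT1 : T1 ≤ T := ((le_max_left _ _).trans (le_max_right _ _)).trans hT
  have hTT4 : T4 ≤ T := ((le_max_right _ _).trans (le_max_right _ _)).trans hT
  refine (measure_mono ?_).trans (hP T hTT1 (T / 8) (hT4 T hTT4) le_rfl)
  rintro t ⟨ht, hn⟩
  refine ⟨ht, fun h => hn ?_⟩
  have hA1 : 1 ≤ t := by linarith [ht.1]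
  rw [PP_conv hRH hA1] at h
  have e1 : ∑ n ∈ Finset.Ioc (NZ t) (NZ (t + T / 8)), ∑ n' ∈ Finset.Ioc (NZ t) (NZ (t + T / 8)),
      RR (tri e) e (ord n * Real.log T / (2 * Real.pi) -
        ord n' * Real.log T / (2 * Real.pi)) = KS (Iw T t) (fun _ => 1) (yy T) e 0 := by
    unfold KS Iw
    refine Finset.sum_congr rfl fun n _ => Finset.sum_congr rfl fun n' _ => ?_
    rw [hRR]
    unfold yy
    simp
  rw [e1] at h
  have e2 : T / 8 * Real.log T / (2 * Real.pi) = Mw T := rfl
  rw [e2] at h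
  have hM : 0 ≤ Mw T := by
    unfold Mw
    have := Real.log_nonneg (by linarith : (1 : ℝ) ≤ T)
    have := Real.pi_pos
    positivity
  have h3 : tri e 0 ≤ 1 := by
    rw [tri_in he (by rw [abs_zero]; exact he.le)]
    simp
  have h4 : ∫ α in (-e)..e, |α| * tri e α ≤ 2 * e ^ 2 := by
    have h5 : ∫ α in (-e)..e, |α| * tri e α ≤ ∫ _ in (-e)..e, e := by
      apply intervalIntegral.integral_mono_on (by linarith)
      · exact (continuous_abs.mul (tri_cont e)).intervalIntegrable _ _
      · exact continuous_const.intervalIntegrable _ _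
      · intro α hα
        have h6 : |α| ≤ e := abs_le.2 hα
        have h7 : tri e α ≤ 1 := by
          unfold tri
          apply max_le zero_le_one
          have : 0 ≤ |α| / e := by positivity
          linarith
        have h8 := tri_nonneg e α
        nlinarith [abs_nonneg α]
    rw [intervalIntegral.integral_const, smul_eq_mul] at h5
    nlinarith
  have h5 := (abs_le.1 h).2
  have h6 : Mw T * (tri e 0 + ∫ α in (-e)..e, |α| * tri e α) ≤ Mw T * (1 + 2 * e ^ 2) :=
    mul_le_mul_of_nonneg_left (by linarith) hM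
  linarith

end Pool.Agent.TH800.AH
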