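import Pool.Agent.TH800.AH.Tr
import Pool.Agent.TH800.AH.Mt

/-! Lower bound for the mean square of block sums. -/

open Complex Filter Topology Set MeasureTheory

namespace Pool.Agent.TH800.AH

open H177.Lat H370.A2

/-- the phase of a sign -/
noncomputable def ph (σ : ℕ → ℝ) (n : ℕ) : ℝ := (1 - σ n) / 4

/-- the shifted points -/
noncomputable def vs (σ y : ℕ → ℝ) (n : ℕ) : ℝ := y n - ph σ n

/-- sequences of signs -/
def Sg (σ : ℕ → ℝ) : Prop := ∀ n, σ n = 1 ∨ σ n = -1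

lemma sign_cos {σ : ℕ → ℝ} (hσ : Sg σ) (n n' : ℕ) (z : ℝ) :
    Real.cos (2 * Real.pi * (ph σ n - ph σ n') - z) = σ n * σ n' * Real.cos z := by
  unfold ph
  rcases hσ n with h | h <;> rcases hσ n' with h' | h' <;> rw [h, h']
  · norm_num
  · have : 2 * Real.pi * ((1 - 1) / 4 - (1 - -1) / 4) - z = -(z + Real.pi) := by ring
    rw [this, Real.cos_neg, Real.cos_add_pi]
    ring
  · have : 2 * Real.pi * ((1 - -1) / 4 - (1 - 1) / 4) - z = Real.pi - z := by ring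
    rw [this, Real.cos_pi_sub]
    ring
  · norm_num

/-- the sum of the defects -/
noncomputable def SS (I : Finset ℕ) (σ y : ℕ → ℝ) (e : ℝ) : ℝ :=
  ∑ n ∈ I, ∑ n' ∈ I, KK e (y n - y n') * |Real.sin (Real.pi * 1 * (vs σ y n - vs σ y n'))|

lemma KS_sign (I : Finset ℕ) {σ : ℕ → ℝ} (hσ : Sg σ) (y : ℕ → ℝ) {e : ℝ} (he : 0 < e) (τ : ℝ) :
    KS I (fun _ => 1) y e (1 - τ) - 2 * SS I σ y e ≤ KS I σ y e τ := by
  have h : KS I (fun _ => 1) y e (1 - τ) ≤ KS I σ y e τ + 2 * SS I σ y e := by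
    unfold KS SS
    rw [Finset.mul_sum, ← Finset.sum_add_distrib]
    refine Finset.sum_le_sum fun n _ => ?_
    rw [Finset.mul_sum, ← Finset.sum_add_distrib]
    refine Finset.sum_le_sum fun n' _ => ?_
    have h1 := cos_cmp (2 * Real.pi * (1 - τ) * (y n - y n'))
      (2 * Real.pi * (ph σ n - ph σ n') - 2 * Real.pi * τ * (y n - y n'))
    rw [sign_cos hσ] at h1
    have h2 : (2 * Real.pi * (1 - τ) * (y n - y n') -
        (2 * Real.pi * (ph σ n - ph σ n') - 2 * Real.pi * τ * (y n - y n'))) / 2 =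
        Real.pi * 1 * (vs σ y n - vs σ y n') := by
      unfold vs
      ring
    rw [h2] at h1
    have h3 := mul_le_mul_of_nonneg_left h1 (KK_nonneg he (y n - y n'))
    simp only [one_mul]
    linarith
  linarith

lemma norm_sub_sq_low (A B : ℂ) {δ : ℝ} (hδ : 0 < δ) :
    (1 - δ) * ‖A‖ ^ 2 - 1 / δ * ‖B‖ ^ 2 ≤ ‖A - B‖ ^ 2 := by
  have h1 : (‖A‖ - ‖B‖) ^ 2 ≤ ‖A - B‖ ^ 2 := by
    rw [← sq_abs (‖A‖ - ‖B‖)]
    exact pow_le_pow_left₀ (abs_nonneg _) (abs_norm_sub_norm_le A B) 2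
  have h2 : 2 * (‖A‖ * ‖B‖) ≤ δ * ‖A‖ ^ 2 + 1 / δ * ‖B‖ ^ 2 := by
    have h3 : 0 ≤ (δ * ‖A‖ - ‖B‖) ^ 2 / δ := by positivity
    have h4 : (δ * ‖A‖ - ‖B‖) ^ 2 / δ = δ * ‖A‖ ^ 2 - 2 * (‖A‖ * ‖B‖) + 1 / δ * ‖B‖ ^ 2 := by
      field_simp
      ring
    linarith
  nlinarith [sq_nonneg ‖B‖]

lemma GG_sub (I : Finset ℕ) (σ y : ℕ → ℝ) (m0 w : ℝ) :
    GG I (fun n => σ n - m0) y w = GG I σ y w - m0 * GG I (fun _ => 1) y w := by
  unfold GG
  rw [Finset.mul_sum, ← Finset.sum_sub_distrib]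
  refine Finset.sum_congr rfl fun n _ => ?_
  push_cast
  ring

lemma KS_sub (I : Finset ℕ) (σ y : ℕ → ℝ) (m0 : ℝ) (hm : |m0| ≤ 1) {e δ : ℝ} (he : 0 < e)
    (hδ : 0 < δ) (τ : ℝ) :
    (1 - δ) * KS I σ y e τ - 1 / δ * KS I (fun _ => 1) y e τ ≤
      KS I (fun n => σ n - m0) y e τ := by
  obtain ⟨i1, v1⟩ := kernelG I σ y he τ
  obtain ⟨i2, v2⟩ := kernelG I (fun _ => 1) y he τ
  obtain ⟨i3, v3⟩ := kernelG I (fun n => σ n - m0) y he τ
  rw [← v1, ← v2, ← v3, ← integral_const_mul, ← integral_const_mul,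
    ← integral_sub (i1.const_mul _) (i2.const_mul _)]
  refine integral_mono ((i1.const_mul _).sub (i2.const_mul _)) i3 fun w => ?_
  show (1 - δ) * (tri e (w + τ) * ‖GG I σ y w‖ ^ 2) -
    1 / δ * (tri e (w + τ) * ‖GG I (fun _ => 1) y w‖ ^ 2) ≤
    tri e (w + τ) * ‖GG I (fun n => σ n - m0) y w‖ ^ 2
  have h1 := norm_sub_sq_low (GG I σ y w) (m0 * GG I (fun _ => 1) y w) hδ
  rw [← GG_sub] at h1
  have h2 : ‖(m0 : ℂ) * GG I (fun _ => 1) y w‖ ^ 2 ≤ ‖GG I (fun _ => 1) y w‖ ^ 2 := by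
    rw [norm_mul, Complex.norm_real, Real.norm_eq_abs, mul_pow]
    have h3 : |m0| ^ 2 ≤ 1 := pow_le_one₀ (abs_nonneg _) hm
    have h4 := sq_nonneg ‖GG I (fun _ => 1) y w‖
    nlinarith
  have h3 : 0 ≤ 1 / δ := by positivity
  have h4 := mul_le_mul_of_nonneg_left h2 h3
  have h5 : (1 - δ) * ‖GG I σ y w‖ ^ 2 - 1 / δ * ‖GG I (fun _ => 1) y w‖ ^ 2 ≤
      ‖GG I (fun n => σ n - m0) y w‖ ^ 2 := by linarith
  have h6 := mul_le_mul_of_nonneg_left h5 (tri_nonneg e (w + τ))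
  refine le_trans (le_of_eq ?_) h6
  ring

lemma KS_neg' (I : Finset ℕ) (s y : ℕ → ℝ) (e τ : ℝ) : KS I s y e (-τ) = KS I s y e τ := by
  unfold KS
  refine Finset.sum_congr rfl fun n _ => Finset.sum_congr rfl fun n' _ => ?_
  have : 2 * Real.pi * -τ * (y n - y n') = -(2 * Real.pi * τ * (y n - y n')) := by ring
  rw [this, Real.cos_neg]

lemma sk_scale {X : ℝ} (u : ℝ) : sk X u = sk 1 (X * u) := by
  unfold sk
  congr 2
  ring

/-- lower bound by pair sums -/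
theorem low1 (I : Finset ℕ) (s y : ℕ → ℝ) (X : ℝ) (hX : 0 < X) (K : ℕ) (e : ℝ) (w : ℕ → ℝ)
    (he : 0 < e)
    (hmin : ∀ u, ∑ k ∈ Finset.range K, w k * tri e (u + (k + 2) * e) ≤ sk 1 u) :
    X ^ 2 * (2 * ∑ k ∈ Finset.range K, w k * KS I s y (e / X) ((k + 2) * (e / X))) ≤
      ∫ x, hh I s y X x ^ 2 := by
  obtain ⟨hint, hpl⟩ := planch I s y hX
  rw [hpl]
  apply mul_le_mul_of_nonneg_left _ (by positivity)
  have he' : 0 < e / X := by positivity
  have hpt : ∀ u : ℝ, ∑ k ∈ Finset.range K, w k * (tri (e / X) (u + (k + 2) * (e / X)) +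
      tri (e / X) (u + -((k + 2) * (e / X)))) ≤ sk X u := by
    have hsc : ∀ u : ℝ, ∀ k : ℕ, tri e (X * u + (k + 2) * e) =
        tri (e / X) (u + (k + 2) * (e / X)) := by
      intro u k
      unfold tri
      congr 2
      have : X * u + (k + 2) * e = X * (u + (k + 2) * (e / X)) := by field_simp
      rw [this, abs_mul, abs_of_pos hX]
      field_simp
    have hneg : ∀ u : ℝ, u ≤ 0 → ∑ k ∈ Finset.range K, w k * (tri (e / X) (u + (k + 2) * (e / X)) +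
        tri (e / X) (u + -((k + 2) * (e / X)))) ≤ sk X u := by
      intro u hu
      have h1 := hmin (X * u)
      rw [← sk_scale] at h1
      refine le_trans (Finset.sum_le_sum fun k _ => ?_) h1
      rw [hsc]
      have hk : (0 : ℝ) ≤ k := Nat.cast_nonneg k
      have h2 : tri (e / X) (u + -((k + 2) * (e / X))) = 0 := by
        apply tri_zero he'
        rw [abs_of_nonpos (by nlinarith)]
        nlinarith
      rw [h2, add_zero]
    intro u
    rcases le_total u 0 with h | h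
    · exact hneg u h
    · have h1 := hneg (-u) (by linarith)
      rw [sk_even] at h1
      refine le_trans (le_of_eq ?_) h1
      refine Finset.sum_congr rfl fun k _ => ?_
      have e1 : -u + (k + 2) * (e / X) = -(u + -((k + 2) * (e / X))) := by ring
      have e2 : -u + -((k + 2) * (e / X)) = -(u + (k + 2) * (e / X)) := by ring
      rw [e1, e2, tri_even, tri_even]
      ring
  have hi : ∀ k ∈ Finset.range K, Integrable (fun u => w k *
      (tri (e / X) (u + (k + 2) * (e / X)) * ‖GG I s y u‖ ^ 2 +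
      tri (e / X) (u + -((k + 2) * (e / X))) * ‖GG I s y u‖ ^ 2)) := fun k _ =>
    (((kernelG I s y he' ((k + 2) * (e / X))).1).add
      ((kernelG I s y he' (-((k + 2) * (e / X)))).1)).const_mul _
  have hval : 2 * ∑ k ∈ Finset.range K, w k * KS I s y (e / X) ((k + 2) * (e / X)) =
      ∫ u, ∑ k ∈ Finset.range K, w k *
      (tri (e / X) (u + (k + 2) * (e / X)) * ‖GG I s y u‖ ^ 2 +
      tri (e / X) (u + -((k + 2) * (e / X))) * ‖GG I s y u‖ ^ 2) := by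
    rw [integral_finsetSum _ hi, Finset.mul_sum]
    refine Finset.sum_congr rfl fun k _ => ?_
    rw [integral_const_mul, integral_add ((kernelG I s y he' ((k + 2) * (e / X))).1)
      ((kernelG I s y he' (-((k + 2) * (e / X)))).1),
      (kernelG I s y he' ((k + 2) * (e / X))).2, (kernelG I s y he' (-((k + 2) * (e / X)))).2,
      KS_neg']
    ring
  rw [hval]
  refine integral_mono (integrable_finsetSum _ hi) hint fun u => ?_
  show ∑ k ∈ Finset.range K, w k *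
      (tri (e / X) (u + (k + 2) * (e / X)) * ‖GG I s y u‖ ^ 2 +
      tri (e / X) (u + -((k + 2) * (e / X))) * ‖GG I s y u‖ ^ 2) ≤ sk X u * ‖GG I s y u‖ ^ 2
  refine le_trans (le_of_eq ?_) (mul_le_mul_of_nonneg_right (hpt u) (sq_nonneg _))
  rw [Finset.sum_mul]
  exact Finset.sum_congr rfl fun k _ => by ring

/-- lower bound for signs -/
theorem low2 (I : Finset ℕ) {σ : ℕ → ℝ} (hσ : Sg σ) (y : ℕ → ℝ) (m0 : ℝ) (hm : |m0| ≤ 1)
    (X : ℝ) (hX : 0 < X) (K : ℕ) (e : ℝ) (w : ℕ → ℝ)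
    (he : 0 < e) (hw : ∀ k, 0 ≤ w k)
    (hmin : ∀ u, ∑ k ∈ Finset.range K, w k * tri e (u + (k + 2) * e) ≤ sk 1 u)
    (δ : ℝ) (hδ : 0 < δ) (hδ1 : δ < 1) (A B S : ℝ)
    (hA : ∀ k ∈ Finset.range K, A ≤ KS I (fun _ => 1) y (e / X) (1 - (k + 2) * (e / X)))
    (hB : ∀ k ∈ Finset.range K, KS I (fun _ => 1) y (e / X) ((k + 2) * (e / X)) ≤ B)
    (hS : SS I σ y (e / X) ≤ S) :
    X ^ 2 * (2 * ∑ k ∈ Finset.range K, w k * ((1 - δ) * (A - 2 * S) - 1 / δ * B)) ≤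
      ∫ x, hh I (fun n => σ n - m0) y X x ^ 2 := by
  refine le_trans ?_ (low1 I (fun n => σ n - m0) y X hX K e w he hmin)
  apply mul_le_mul_of_nonneg_left _ (by positivity)
  apply mul_le_mul_of_nonneg_left _ (by norm_num)
  refine Finset.sum_le_sum fun k hk => ?_
  apply mul_le_mul_of_nonneg_left _ (hw k)
  have he' : 0 < e / X := by positivity
  have h1 := KS_sub I σ y m0 hm he' hδ ((k + 2) * (e / X))
  have h2 := KS_sign I hσ y he' ((k + 2) * (e / X))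
  have h3 := hA k hk
  have h4 := hB k hk
  have h5 : 0 ≤ 1 / δ := by positivity
  have h6 : (1 - δ) * (A - 2 * S) ≤ (1 - δ) * KS I σ y (e / X) ((k + 2) * (e / X)) :=
    mul_le_mul_of_nonneg_left (by linarith) (by linarith)
  have h7 := mul_le_mul_of_nonneg_left h4 h5
  linarith

end Pool.Agent.TH800.AH
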