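import Pool.Agent.TH800.AH.Lw
import Pool.Agent.H177R3.LatE

/-! From bad indices to spacings. -/

open Complex Filter Topology Set MeasureTheory

namespace Pool.Agent.TH800.AH

open H177.Lat H370.A2 H370.A3
open SG (ord NZ)

/-- the half-integer shift between consecutive signs -/
noncomputable def al (σ : ℕ → ℝ) (n : ℕ) : ℝ := (σ n - σ (n + 1)) / 4

/-- bad indices give spacings away from the pattern -/
theorem transfer (c ε : ℝ) (hc : 0 < c) (hε : 0 < ε) : ∃ c' T1 : ℝ, 0 < c' ∧ 100 ≤ T1 ∧
    ∀ T t : ℝ, T1 ≤ T → T ≤ t → t ≤ 2 * T → ∀ σ : ℕ → ℝ,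
      c * Mw T ≤ ((Bad (NZ t) (NZ (t + T / 8)) 1 ε (vs σ (yy T))).card : ℝ) →
      c' * (T * Real.log T) ≤ ({n : ℕ | 1 ≤ n ∧ t < ord n ∧ ord n ≤ t + T / 8 ∧
          ∀ k : ℤ, c' ≤ |del n - al σ n - k|}.ncard : ℝ) := by
  have hpi := Real.pi_pos
  have hpi3 := Real.pi_gt_three
  set U : ℝ := 2 / c with hU
  have hU0 : 0 < U := by positivity
  set ε' : ℝ := ε / (2 * Real.pi) with hε'
  have hε'0 : 0 < ε' := by positivity
  obtain ⟨T1, hT1⟩ := (Real.tendsto_log_atTop.eventually_ge_atTop
    (3 * U / ε')).exists_forall_of_atTop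
  set c' : ℝ := min ε' (c / (32 * Real.pi)) with hc'
  have hc'0 : 0 < c' := lt_min hε'0 (by positivity)
  refine ⟨c', max 100 T1, hc'0, le_max_left _ _, fun T t hT ht1 ht2 σ hcon => ?_⟩
  set H : ℝ := T / 8 with hHdef
  have hT100 : 100 ≤ T := (le_max_left _ _).trans hT
  have hL1 := hT1 T ((le_max_right _ _).trans hT)
  have hTpos : 0 < T := by linarith
  have hLpos : 0 < Real.log T := Real.log_pos (by linarith)
  have hHpos : 0 < H := by rw [hHdef]; linarith
  have hM0 := Mw_pos hT100
  have hMeq : Mw T = H * Real.log T / (2 * Real.pi) := rfl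
  set M : ℝ := Mw T with hM
  set a := NZ t with ha
  set b := NZ (t + H) with hb
  set y := yy T with hy
  set Bd := Bad a b 1 ε (vs σ y) with hBd
  have hBdmem : ∀ j ∈ Bd, a < j ∧ j + 1 ≤ b ∧
      ε < |Real.sin (Real.pi * 1 * (y (j + 1) - y j - al σ j))| := by
    intro j hj
    rw [hBd, Bad, Finset.mem_filter, Finset.mem_Ioc] at hj
    have e1 : vs σ y (j + 1) - vs σ y j = y (j + 1) - y j - al σ j := by
      simp only [vs, ph, al]
      ring
    rw [e1] at hj
    exact ⟨hj.1.1, hj.2.1, hj.2.2⟩
  have hne : 0 < Bd.card := by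
    have h1 : (0 : ℝ) < (Bd.card : ℝ) := lt_of_lt_of_le (by positivity) hcon
    exact_mod_cast h1
  obtain ⟨j0, hj0⟩ := Finset.card_pos.1 hne
  have hab : a + 1 ≤ b := by
    have := hBdmem j0 hj0
    omega
  have hgap0 : ∀ j, 1 ≤ j → 0 ≤ y (j + 1) - y j := by
    intro j hj
    exact sub_nonneg.2 (yy_mono hT100 hj (Nat.le_succ j))
  -- total length
  have htot : ∑ j ∈ Bd, (y (j + 1) - y j) ≤ M := by
    have h1 : ∑ j ∈ Bd, (y (j + 1) - y j) ≤ ∑ j ∈ Finset.Ico (a + 1) b, (y (j + 1) - y j) := by
      apply Finset.sum_le_sum_of_subset_of_nonneg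
      · intro j hj
        have := hBdmem j hj
        rw [Finset.mem_Ico]
        omega
      · intro j hj _
        rw [Finset.mem_Ico] at hj
        exact hgap0 j (by omega)
    rw [sum_gaps a b y hab] at h1
    refine h1.trans ?_
    have h2 : ord b ≤ t + H := (SG.ord_le_iff (by omega) _).mpr le_rfl
    have h3 : t < ord (a + 1) := by
      by_contra hcon2
      push Not at hcon2
      have := (SG.ord_le_iff (by omega : 1 ≤ a + 1) t).mp hcon2
      omega
    have h4 : y b - y (a + 1) = (ord b - ord (a + 1)) * (Real.log T / (2 * Real.pi)) := by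
      simp only [hy, yy]; ring
    rw [h4, hMeq, mul_div_assoc]
    apply mul_le_mul_of_nonneg_right _ (by positivity)
    linarith
  set Bs := Bd.filter (fun j => y (j + 1) - y j ≤ U) with hBs
  have hbig : ((Bd.filter (fun j => ¬ (y (j + 1) - y j ≤ U))).card : ℝ) * U ≤ M := by
    refine le_trans ?_ htot
    have h1 : ∑ j ∈ Bd.filter (fun j => ¬ (y (j + 1) - y j ≤ U)), U ≤
        ∑ j ∈ Bd.filter (fun j => ¬ (y (j + 1) - y j ≤ U)), (y (j + 1) - y j) := by
      refine Finset.sum_le_sum fun j hj => ?_
      have := (Finset.mem_filter.1 hj).2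
      push Not at this
      exact this.le
    rw [Finset.sum_const, nsmul_eq_mul] at h1
    refine h1.trans ?_
    apply Finset.sum_le_sum_of_subset_of_nonneg (Finset.filter_subset _ _)
    intro j hj _
    exact hgap0 j (by have := hBdmem j hj; omega)
  have hBscard : c / 2 * M ≤ (Bs.card : ℝ) := by
    have h1 : (Bd.card : ℝ) = Bs.card + (Bd.filter (fun j => ¬ (y (j + 1) - y j ≤ U))).card := by
      rw [hBs]
      exact_mod_cast (Finset.card_filter_add_card_filter_not
        (s := Bd) (fun j => y (j + 1) - y j ≤ U)).symm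
    have h2 : ((Bd.filter (fun j => ¬ (y (j + 1) - y j ≤ U))).card : ℝ) ≤ M / U := by
      rw [le_div_iff₀ hU0]; exact hbig
    have h3 : M / U = c / 2 * M := by rw [hU]; field_simp
    rw [h3] at h2
    linarith
  -- transfer
  set S : Set ℕ := {n : ℕ | 1 ≤ n ∧ t < ord n ∧ ord n ≤ t + H ∧ ∀ k : ℤ, c' ≤ |del n - al σ n - k|}
    with hS
  have hSfin : S.Finite := by
    refine (Set.finite_Iic (NZ (t + H))).subset ?_
    rintro n ⟨h1, h2, h3, h4⟩
    exact (SG.ord_le_iff h1 _).mp h3
  have hsub : (Bs : Set ℕ) ⊆ S := by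
    intro j hj
    rw [Finset.mem_coe, hBs, Finset.mem_filter] at hj
    obtain ⟨hj1, hj2⟩ := hj
    obtain ⟨g1, g2, g3⟩ := hBdmem j hj1
    have hj0' : 1 ≤ j := by omega
    have q1 : t < ord j := by
      by_contra hcon2
      push Not at hcon2
      have := (SG.ord_le_iff hj0' t).mp hcon2
      omega
    have q2 : ord (j + 1) ≤ t + H := (SG.ord_le_iff (by omega) _).mpr g2
    have q3 := SG.ord_mono hj0' (Nat.le_succ j)
    have hx0 : 0 < ord j := by linarith
    have q3' : ord j ≤ ord (j + 1) := q3
    refine ⟨hj0', q1, q3'.trans q2, fun k => ?_⟩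
    set u := y (j + 1) - y j with hu
    have hu0 : 0 ≤ u := hgap0 j hj0'
    have hu1 : u = (ord (j + 1) - ord j) * Real.log T / (2 * Real.pi) := by
      simp only [hu, hy, yy]; ring
    -- comparison of the two normalisations
    have hlogx : Real.log T ≤ Real.log (ord j) := Real.log_le_log hTpos (by linarith)
    have hlogy : Real.log (ord (j + 1)) + 1 ≤ Real.log T + 3 := by
      have h6 : Real.log (ord (j + 1)) ≤ Real.log (3 * T) :=
        Real.log_le_log (hx0.trans_le q3') (by linarith)
      rw [Real.log_mul (by norm_num) hTpos.ne'] at h6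
      have h7 : Real.log 3 ≤ 2 := by
        have := Real.log_le_sub_one_of_pos (show (0 : ℝ) < 3 by norm_num)
        linarith
      linarith
    have hd0 : 0 ≤ ord (j + 1) - ord j := by linarith
    have hlow : u ≤ del j := by
      rw [hu1]
      unfold del
      apply div_le_div_of_nonneg_right _ (by positivity)
      refine le_trans ?_ (xlog_low hx0 q3')
      exact mul_le_mul_of_nonneg_left (by linarith) hd0
    have hup : del j ≤ u + 3 * U / Real.log T := by
      have h5 : del j ≤ (ord (j + 1) - ord j) * (Real.log T + 3) / (2 * Real.pi) := by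
        unfold del
        apply div_le_div_of_nonneg_right _ (by positivity)
        exact (xlog_aux hx0 q3').trans (mul_le_mul_of_nonneg_left hlogy hd0)
      have h6 : (ord (j + 1) - ord j) * (Real.log T + 3) / (2 * Real.pi) =
          u + 3 * u / Real.log T := by
        rw [hu1]
        field_simp
      rw [h6] at h5
      refine h5.trans ?_
      have h7 : 3 * u / Real.log T ≤ 3 * U / Real.log T :=
        div_le_div_of_nonneg_right (by linarith) hLpos.le
      linarith
    have hsmall : 3 * U / Real.log T ≤ ε' := by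
      rw [div_le_iff₀ hε'0] at hL1
      rw [div_le_iff₀ hLpos]
      linarith
    -- distance to the lattice
    have hdist : 2 * ε' ≤ |u - al σ j - k| := by
      rw [mul_one] at g3
      have h5 : |Real.sin (Real.pi * (u - al σ j))| ≤
          |Real.pi * (u - al σ j) - k * Real.pi| := by
        have h6 := Real.abs_sin_le_abs (x := Real.pi * (u - al σ j) - k * Real.pi)
        rw [Real.sin_sub_int_mul_pi] at h6
        rw [abs_mul] at h6
        have h7 : |((-1 : ℝ) ^ k)| = 1 := by
          rw [abs_zpow, abs_neg, abs_one, one_zpow]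
        rw [h7, one_mul] at h6
        exact h6
      have h8 : Real.pi * (u - al σ j) - k * Real.pi = Real.pi * (u - al σ j - k) := by
        ring
      rw [h8, abs_mul, abs_of_pos hpi] at h5
      have h9 := g3.le.trans h5
      have h10 : 2 * ε' = ε / Real.pi := by
        rw [hε']
        field_simp
      rw [h10, div_le_iff₀ (by positivity)]
      linarith
    have hfin : ε' ≤ |del j - al σ j - k| := by
      have h5 : |u - al σ j - k| ≤ |del j - al σ j - k| + |del j - u| := by
        have h6 := abs_sub_le (u - al σ j - k) (del j - al σ j - k) 0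
        have h7 : u - al σ j - k - (del j - al σ j - k) = -(del j - u) := by ring
        rw [sub_zero, sub_zero, h7, abs_neg] at h6
        linarith
      have h7 : |del j - u| ≤ ε' := by
        rw [abs_of_nonneg (by linarith)]
        linarith
      linarith
    exact (min_le_left _ _).trans hfin
  have hle := Set.ncard_le_ncard hsub hSfin
  rw [Set.ncard_coe_finset] at hle
  have hle' : (Bs.card : ℝ) ≤ (S.ncard : ℝ) := by exact_mod_cast hle
  have hfinal : c' * (T * Real.log T) ≤ c / 2 * M := by
    have h5 : c / 2 * M = c / (32 * Real.pi) * (T * Real.log T) := by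
      rw [hMeq, hHdef]; field_simp; ring
    rw [h5]
    exact mul_le_mul_of_nonneg_right (min_le_right _ _) (by positivity)
  linarith

end Pool.Agent.TH800.AH
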