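import Pool.Agent.TH800.AH.Gw
import Pool.Agent.TH800.AH.Ix
import Pool.Agent.TH800.AH.Tf

/-! The dichotomy in almost all windows. -/

open Complex Filter Topology Set MeasureTheory

namespace Pool.Agent.TH800.AH

open H177.Lat H370.A2
open SG (ord NZ)

/-- the exceptional spacings -/
def Ex (σ : ℕ → ℝ) (ε : ℝ) (n : ℕ) : Prop := ∀ k : ℤ, ε ≤ |del n - al σ n - k|

/-- either many exceptional spacings or a large variance of the block sums -/
theorem loc (hRH : RiemannHypothesis) (δ : ℝ) (hδ : 0 < δ) (hδ1 : δ ≤ 1 / 20) :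
    ∃ L0 : ℕ, 8 ≤ L0 ∧ ∀ L : ℕ, L0 ≤ L → ∃ c : ℝ, 0 < c ∧
      AA (fun T t => ∀ σ : ℕ → ℝ, Sg σ → ∀ m0 : ℝ, |m0| ≤ 1 →
        c * (T * Real.log T) ≤ ({n : ℕ | 1 ≤ n ∧ t < ord n ∧ ord n ≤ t + T / 8 ∧
          Ex σ c n}.ncard : ℝ) ∨
        (1 - 13 * δ) * L * Mw T ≤ ∑ n ∈ Finset.Ioc (NZ t) (NZ (t + T / 8)),
          BB (fun n => σ n - m0) L n ^ 2) := by
  obtain ⟨L1, hL1, h1⟩ := gw hRH δ hδ (by linarith)
  obtain ⟨L2, hL2, h2⟩ := ix hRH δ hδ (by linarith)
  refine ⟨max L1 L2, hL1.trans (le_max_left _ _), fun L hL => ?_⟩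
  obtain ⟨c, εb, hc, hεb, hAA⟩ := h1 L ((le_max_left _ _).trans hL)
  obtain ⟨T1, hT1, hix⟩ := h2 L ((le_max_right _ _).trans hL)
  obtain ⟨c', T2, hc', hT2, htr⟩ := transfer c εb hc hεb
  refine ⟨c', hc', hAA.mono (max T1 T2) fun T t hT hT100 ht1 ht2 h σ hσ m0 hm => ?_⟩
  rcases h σ hσ m0 hm with hb | hb
  · left
    exact htr T t ((le_max_right _ _).trans hT) ht1 ht2 σ hb
  · right
    have hs1 : ∀ n, |σ n| = 1 := fun n => by rcases hσ n with h | h <;> rw [h] <;> norm_num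
    have hi := hix T t ((le_max_left _ _).trans hT) ht1 ht2 (fun n => σ n - m0)
      (fun n m => by
        show |σ n - m0 - (σ m - m0)| ≤ 2
        have : σ n - m0 - (σ m - m0) = σ n - σ m := by ring
        rw [this]
        refine (abs_sub _ _).trans ?_
        rw [hs1, hs1]
        norm_num)
      (fun n => by
        refine (abs_sub _ _).trans ?_
        rw [hs1]
        linarith)
    set V := ∑ n ∈ Finset.Ioc (NZ t) (NZ (t + T / 8)), BB (fun n => σ n - m0) L n ^ 2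
    have hV := hb.trans hi
    have hM := Mw_pos hT100
    have hL8 : (8 : ℝ) ≤ L := by exact_mod_cast (hL1.trans ((le_max_left _ _).trans hL))
    have hLM : 0 < L * Mw T := by positivity
    have e1 : (1 + δ) ^ 2 * ((1 - 13 * δ) * L * Mw T) ≤ (1 + δ) ^ 2 * V := by
      have e2 : (1 + δ) ^ 2 * ((1 - 13 * δ) * L * Mw T) =
          ((1 + δ) ^ 2 * (1 - 13 * δ)) * (L * Mw T) := by ring
      have e3 : (1 - 10 * δ) * (L * Mw T) ≤ (1 + δ) ^ 2 * V := by linarith
      rw [e2]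
      refine le_trans ?_ e3
      apply mul_le_mul_of_nonneg_right _ hLM.le
      nlinarith [pow_pos hδ 2, pow_pos hδ 3]
    exact le_of_mul_le_mul_left e1 (by positivity)

end Pool.Agent.TH800.AH
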