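import Pool.Agent.TH800.AH.Pl

/-! Triangular minorants of the square of the sinc function on the negative half line. -/

open Complex Filter Topology Set MeasureTheory

namespace Pool.Agent.TH800.AH

open H177.Lat

lemma tri_sum_aux (K : ℕ) : ∀ a : ℝ, ∑ k ∈ Finset.range K, max 0 (1 - |a + k|) ≤
    min 1 (max 0 (1 - a)) := by
  induction K with
  | zero => intro a; simp
  | succ K ih =>
    intro a
    rw [Finset.sum_range_succ']
    have h1 : ∑ k ∈ Finset.range K, max 0 (1 - |a + ((k + 1 : ℕ) : ℝ)|) =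
        ∑ k ∈ Finset.range K, max 0 (1 - |a + 1 + (k : ℝ)|) := by
      refine Finset.sum_congr rfl fun k _ => ?_
      push_cast
      congr 3
      ring
    rw [h1]
    have h2 := ih (a + 1)
    simp only [Nat.cast_zero, add_zero]
    have h3 : 1 - (a + 1) = -a := by ring
    rw [h3] at h2
    refine (add_le_add_left h2 _).trans ?_
    rcases le_total 0 a with h | h
    · rw [abs_of_nonneg h, max_eq_left (by linarith : -a ≤ 0), min_eq_right (zero_le_one)]
      rw [zero_add]
      exact le_min (max_le zero_le_one (by linarith)) le_rfl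
    · have hR : min 1 (max 0 (1 - a)) = 1 := min_eq_left (le_max_of_le_right (by linarith))
      rw [hR, abs_of_nonpos h, max_eq_right (by linarith : (0 : ℝ) ≤ -a)]
      rcases le_total (-1) a with h' | h'
      · rw [min_eq_right (by linarith : -a ≤ 1), max_eq_right (by linarith : (0 : ℝ) ≤ 1 - -a)]
        linarith
      · rw [min_eq_left (by linarith : (1 : ℝ) ≤ -a), max_eq_left (by linarith : 1 - -a ≤ (0 : ℝ))]
        linarith

lemma tri_sum (K : ℕ) {e : ℝ} (he : 0 < e) (u : ℝ) :
    ∑ k ∈ Finset.range K, tri e (u + (k + 2) * e) ≤ 1 := by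
  have h1 : ∀ k ∈ Finset.range K, tri e (u + (k + 2) * e) = max 0 (1 - |(u / e + 2) + k|) := by
    intro k _
    unfold tri
    congr 2
    rw [← abs_of_pos he, ← abs_div, abs_of_pos he]
    congr 1
    field_simp
    ring
  rw [Finset.sum_congr rfl h1]
  exact (tri_sum_aux K _).trans (min_le_left _ _)

lemma sk_even (X w : ℝ) : sk X (-w) = sk X w := by
  unfold sk
  rw [mul_neg, Real.sinc_neg]

lemma sk_total : Integrable (sk 1) ∧ ∫ w, sk 1 w = 1 := by
  obtain ⟨h1, h2⟩ := planch {0} (fun _ => 1) (fun _ => 0) one_pos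
  have h3 : ∀ w, ‖GG {0} (fun _ => 1) (fun _ => 0) w‖ ^ 2 = 1 := by
    intro w
    unfold GG
    simp [ee]
  simp_rw [h3, mul_one] at h1 h2
  refine ⟨h1, ?_⟩
  have h4 : ∫ x, hh {0} (fun _ => 1) (fun _ => 0) 1 x ^ 2 = 1 := by
    have h5 : ∀ x, hh {0} (fun _ => 1) (fun _ => 0) 1 x ^ 2 =
        (Set.Ico (-1 : ℝ) 0).indicator (fun _ => (1 : ℝ)) x := by
      intro x
      unfold hh
      rw [Finset.sum_singleton, zero_sub]
      by_cases h : x ∈ Set.Ico (-1 : ℝ) 0
      · rw [Set.indicator_of_mem h]; norm_num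
      · rw [Set.indicator_of_notMem h]; norm_num
    simp_rw [h5]
    rw [integral_indicator measurableSet_Ico]
    simp
  rw [h4] at h2
  linarith

lemma sk_half : ∫ w in Set.Ioi (0 : ℝ), sk 1 w = 1 / 2 := by
  obtain ⟨h1, h2⟩ := sk_total
  have h3 := integral_add_compl (measurableSet_Ioi (a := (0 : ℝ))) h1
  have h4 : ∫ w in (Set.Ioi (0 : ℝ))ᶜ, sk 1 w = ∫ w in Set.Ioi (0 : ℝ), sk 1 w := by
    rw [Set.compl_Ioi]
    have h5 := integral_comp_neg_Iic (0 : ℝ) (sk 1)
    rw [neg_zero] at h5
    rw [← h5]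
    exact integral_congr_ae (Filter.Eventually.of_forall fun w => (sk_even 1 w).symm)
  rw [h4, h2] at h3
  linarith

/-- triangular minorants -/
theorem minor (δ : ℝ) (hδ : 0 < δ) : ∃ (K : ℕ) (e : ℝ) (w : ℕ → ℝ), 0 < e ∧
    (∀ k, 0 ≤ w k) ∧ (∀ k, w k ≤ 1) ∧
    (∀ u, ∑ k ∈ Finset.range K, w k * tri e (u + (k + 2) * e) ≤ sk 1 u) ∧
    1 / 2 - δ ≤ ∑ k ∈ Finset.range K, w k * e := by
  have ht : Tendsto (fun A : ℝ => ∫ x in (0 : ℝ)..A, sk 1 x) atTop (𝓝 (1 / 2)) := by
    rw [← sk_half]
    exact intervalIntegral_tendsto_integral_Ioi 0 sk_total.1.integrableOn tendsto_id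
  obtain ⟨A, hA1, hA2⟩ := ((ht.eventually (lt_mem_nhds
    (show (1 / 2 - δ / 4 : ℝ) < 1 / 2 by linarith))).and (eventually_ge_atTop 1)).exists
  have hA0 : 0 < A := by linarith
  set δ1 : ℝ := δ / (8 * (A + 1)) with hδ1
  have hδ10 : 0 < δ1 := by positivity
  have huc := (isCompact_Icc (a := (0 : ℝ)) (b := A + 10)).uniformContinuousOn_of_continuous
    (sk_cont 1).continuousOn
  rw [Metric.uniformContinuousOn_iff] at huc
  obtain ⟨ρ, hρ, huc⟩ := huc δ1 hδ10
  set e : ℝ := min (ρ / 2) (min 1 (δ / 16)) with he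
  have he0 : 0 < e := lt_min (by positivity) (lt_min one_pos (by positivity))
  have he1 : e ≤ ρ / 2 := min_le_left _ _
  have he2 : e ≤ 1 := (min_le_right _ _).trans (min_le_left _ _)
  have he3 : e ≤ δ / 16 := (min_le_right _ _).trans (min_le_right _ _)
  set K : ℕ := ⌈A / e⌉₊ with hK
  have hK1 : A ≤ K * e := by
    have := Nat.le_ceil (A / e)
    rwa [div_le_iff₀ he0] at this
  have hK2 : K * e ≤ A + 1 := by
    have := (Nat.ceil_lt_add_one (by positivity : 0 ≤ A / e)).le
    have h2 : (K : ℝ) * e ≤ (A / e + 1) * e := mul_le_mul_of_nonneg_right this he0.le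
    have h3 : (A / e + 1) * e = A + e := by field_simp
    linarith
  -- comparison on one step
  have hcmp : ∀ k < K, ∀ v : ℝ, |v - (k + 2) * e| ≤ e → |sk 1 v - sk 1 ((k + 2) * e)| ≤ δ1 := by
    intro k hk v hv
    have hk' : ((k : ℝ) + 1) ≤ K := by exact_mod_cast hk
    obtain ⟨h1, h2⟩ := abs_le.1 hv
    have hk0 : (0 : ℝ) ≤ k := Nat.cast_nonneg k
    have h3 : (k + 1) * e ≤ K * e := mul_le_mul_of_nonneg_right hk' he0.le
    have h4 : 0 ≤ k * e := by positivity
    have := huc v ⟨by nlinarith, by nlinarith⟩ ((k + 2) * e) ⟨by nlinarith, by nlinarith⟩ (by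
      rw [Real.dist_eq]; linarith)
    rw [Real.dist_eq] at this
    exact this.le
  refine ⟨K, e, fun k => max 0 (sk 1 ((k + 2) * e) - δ1), he0, fun k => le_max_left _ _,
    fun k => max_le zero_le_one (by linarith [sk_le_one 1 ((k + 2) * e)]), fun u => ?_, ?_⟩
  · have h1 : ∀ k ∈ Finset.range K, max 0 (sk 1 ((k + 2) * e) - δ1) * tri e (u + (k + 2) * e) ≤
        sk 1 u * tri e (u + (k + 2) * e) := by
      intro k hk
      rcases le_or_gt e |u + (k + 2) * e| with h | h
      · rw [tri_zero he0 h, mul_zero, mul_zero]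
      · apply mul_le_mul_of_nonneg_right _ (tri_nonneg _ _)
        apply max_le (sk_nonneg _ _)
        have h2 := hcmp k (Finset.mem_range.1 hk) (-u) (by
          rw [← abs_neg]
          have : -(-u - (k + 2) * e) = u + (k + 2) * e := by ring
          rw [this]
          exact h.le)
        rw [sk_even] at h2
        linarith [(abs_le.1 h2).1]
    refine (Finset.sum_le_sum h1).trans ?_
    rw [← Finset.mul_sum]
    have h2 := tri_sum K he0 u
    have h3 := sk_nonneg 1 u
    nlinarith
  · have h1 : ∀ k ∈ Finset.range K, (∫ x in ((k + 2 : ℝ) * e)..((k + 3 : ℝ) * e), sk 1 x) -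
        2 * δ1 * e ≤ max 0 (sk 1 ((k + 2) * e) - δ1) * e := by
      intro k hk
      have hkK := Finset.mem_range.1 hk
      have hle : (k + 2 : ℝ) * e ≤ (k + 3 : ℝ) * e := by nlinarith
      have h2 : ∫ x in ((k + 2 : ℝ) * e)..((k + 3 : ℝ) * e), sk 1 x ≤
          ∫ _ in ((k + 2 : ℝ) * e)..((k + 3 : ℝ) * e), (sk 1 ((k + 2) * e) + δ1) := by
        apply intervalIntegral.integral_mono_on hle
        · exact (sk_cont 1).intervalIntegrable _ _
        · exact continuous_const.intervalIntegrable _ _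
        · intro x hx
          have h3 := hcmp k hkK x (by
            rw [abs_le]
            constructor
            · linarith [hx.1]
            · have := hx.2
              nlinarith)
          linarith [(abs_le.1 h3).2]
      rw [intervalIntegral.integral_const, smul_eq_mul] at h2
      have h3 : ((k + 3 : ℝ) * e - (k + 2) * e) = e := by ring
      rw [h3] at h2
      have h4 := le_max_right 0 (sk 1 ((k + 2) * e) - δ1)
      nlinarith
    have h2 := Finset.sum_le_sum h1
    rw [Finset.sum_sub_distrib] at h2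
    have h3 : ∑ k ∈ Finset.range K, ∫ x in ((k + 2 : ℝ) * e)..((k + 3 : ℝ) * e), sk 1 x =
        ∫ x in (2 * e)..((K + 2 : ℝ) * e), sk 1 x := by
      have h4 := intervalIntegral.sum_integral_adjacent_intervals (f := sk 1) (μ := volume)
        (a := fun k : ℕ => ((k : ℝ) + 2) * e) (n := K)
        (fun k _ => (sk_cont 1).intervalIntegrable _ _)
      simp only [Nat.cast_zero, zero_add] at h4
      rw [← h4]
      refine Finset.sum_congr rfl fun k _ => ?_
      push_cast
      congr 1
      ring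
    rw [h3, Finset.sum_const, Finset.card_range, nsmul_eq_mul] at h2
    have h5 : ∫ x in (0 : ℝ)..A, sk 1 x ≤ 2 * e + ∫ x in (2 * e)..((K + 2 : ℝ) * e), sk 1 x := by
      have h6 : ∫ x in (0 : ℝ)..(2 * e), sk 1 x ≤ ∫ _ in (0 : ℝ)..(2 * e), (1 : ℝ) := by
        apply intervalIntegral.integral_mono_on (by linarith)
        · exact (sk_cont 1).intervalIntegrable _ _
        · exact continuous_const.intervalIntegrable _ _
        · exact fun x _ => sk_le_one 1 x
      rw [intervalIntegral.integral_const, smul_eq_mul, mul_one, sub_zero] at h6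
      have h7 : ∫ x in (0 : ℝ)..A, sk 1 x ≤ ∫ x in (0 : ℝ)..((K + 2 : ℝ) * e), sk 1 x := by
        apply intervalIntegral.integral_mono_interval le_rfl (by linarith) (by nlinarith)
        · exact Filter.Eventually.of_forall fun x => sk_nonneg 1 x
        · exact (sk_cont 1).intervalIntegrable _ _
      have h8 := intervalIntegral.integral_add_adjacent_intervals (f := sk 1) (μ := volume)
        (a := 0) (b := 2 * e) (c := (K + 2 : ℝ) * e) ((sk_cont 1).intervalIntegrable _ _)
        ((sk_cont 1).intervalIntegrable _ _)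
      linarith
    have h6 : (K : ℝ) * (2 * δ1 * e) ≤ δ / 4 := by
      have h7 : (K : ℝ) * (2 * δ1 * e) = 2 * δ1 * (K * e) := by ring
      rw [h7]
      have h8 : 2 * δ1 * (K * e) ≤ 2 * δ1 * (A + 1) := mul_le_mul_of_nonneg_left hK2 (by positivity)
      have h9 : 2 * δ1 * (A + 1) = δ / 4 := by rw [hδ1]; field_simp; ring
      linarith
    linarith

end Pool.Agent.TH800.AH
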