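import Pool.Agent.TH800.AH.Mt
import Pool.Agent.TH800.AH.Tr

/-! Upper bound for the mean square of the counting function by pair sums. -/

open Complex Filter Topology Set MeasureTheory

namespace Pool.Agent.TH800.AH

open H177.Lat H370.A2
open SG (ord NZ)

lemma tri_pair {e w : ℝ} (he : 0 < e) (j : ℝ) (h1 : j * e ≤ w) (h2 : w ≤ (j + 1) * e) :
    tri e (w - j * e) + tri e (w - (j + 1) * e) = 1 := by
  rw [tri_in he (by rw [abs_of_nonneg (by linarith)]; linarith),
    tri_in he (by rw [abs_of_nonpos (by linarith)]; linarith),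
    abs_of_nonneg (by linarith), abs_of_nonpos (by linarith)]
  field_simp
  ring

/-- the majorant -/
noncomputable def Qm (L K N : ℕ) (w : ℝ) : ℝ :=
  tri (1 / L) (w + 0) + ∑ k ∈ Finset.Icc 1 K, 1 / (k : ℝ) ^ 2 *
    (tri (1 / L) (w + -(k * (1 / L))) + tri (1 / L) (w + k * (1 / L))) +
  ∑ j ∈ Finset.Icc 1 N, 32 / (9 * (L : ℝ) ^ 2) * (1 / (j : ℝ) ^ 2) *
    (tri (1 / 2) (w + -(j / 4)) + tri (1 / 2) (w + j / 4))

lemma Qm_even (L K N : ℕ) (w : ℝ) : Qm L K N (-w) = Qm L K N w := by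
  unfold Qm
  congr 1
  · congr 1
    · rw [add_zero, add_zero, tri_even]
    · refine Finset.sum_congr rfl fun k _ => ?_
      have e1 : -w + -(k * (1 / (L : ℝ))) = -(w + k * (1 / L)) := by ring
      have e2 : -w + k * (1 / (L : ℝ)) = -(w + -(k * (1 / L))) := by ring
      rw [e1, e2, tri_even, tri_even]
      ring
  · refine Finset.sum_congr rfl fun j _ => ?_
    have e1 : -w + -((j : ℝ) / 4) = -(w + j / 4) := by ring
    have e2 : -w + (j : ℝ) / 4 = -(w + -(j / 4)) := by ring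
    rw [e1, e2, tri_even, tri_even]
    ring

lemma Qm_maj0 (L K N : ℕ) (hL : 4 ≤ L) (hK : L ≤ 4 * K) (w : ℝ) (hw0 : 0 ≤ w)
    (hw : w ≤ N / 4) : sk L w ≤ Qm L K N w := by
  have hL0 : (0 : ℝ) < L := by
    have : (4 : ℝ) ≤ L := by exact_mod_cast hL
    linarith
  have hK4 : (L : ℝ) ≤ 4 * K := by exact_mod_cast hK
  have hA0 : 0 ≤ ∑ j ∈ Finset.Icc 1 N, 32 / (9 * (L : ℝ) ^ 2) * (1 / (j : ℝ) ^ 2) *
      (tri (1 / 2) (w + -(j / 4)) + tri (1 / 2) (w + j / 4)) := by
    refine Finset.sum_nonneg fun j _ => ?_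
    have := tri_nonneg (1 / 2) (w + -((j : ℝ) / 4))
    have := tri_nonneg (1 / 2) (w + (j : ℝ) / 4)
    positivity
  have hB1 : ∀ k : ℕ, 0 ≤ 1 / (k : ℝ) ^ 2 *
      (tri (1 / L) (w + -(k * (1 / L))) + tri (1 / L) (w + k * (1 / L))) := by
    intro k
    have := tri_nonneg (1 / L) (w + -((k : ℝ) * (1 / L)))
    have := tri_nonneg (1 / L) (w + (k : ℝ) * (1 / L))
    positivity
  have hB0 : 0 ≤ ∑ k ∈ Finset.Icc 1 K, 1 / (k : ℝ) ^ 2 *
      (tri (1 / L) (w + -(k * (1 / L))) + tri (1 / L) (w + k * (1 / L))) :=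
    Finset.sum_nonneg fun k _ => hB1 k
  have hC0 := tri_nonneg (1 / L) (w + 0)
  unfold Qm
  rcases lt_or_ge (L * w) K with h | h
  · -- central part
    set j := ⌊L * w⌋₊ with hj
    have hz0 : 0 ≤ L * w := by positivity
    have hj1 : (j : ℝ) ≤ L * w := Nat.floor_le hz0
    have hj2 : L * w ≤ j + 1 := (Nat.lt_floor_add_one _).le
    have hjK : j < K := by
      have : (j : ℝ) < K := lt_of_le_of_lt hj1 h
      exact_mod_cast this
    have h1 : (j : ℝ) * (1 / L) ≤ w := by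
      rw [mul_one_div, div_le_iff₀ hL0]; linarith
    have h2 : w ≤ ((j : ℝ) + 1) * (1 / L) := by
      rw [mul_one_div, le_div_iff₀ hL0]; linarith
    have hp := tri_pair (e := 1 / (L : ℝ)) (by positivity) j h1 h2
    have hstep : ∀ k : ℕ, tri (1 / L) (w - k * (1 / L)) ≤
        tri (1 / L) (w + -(k * (1 / L))) + tri (1 / L) (w + k * (1 / L)) := by
      intro k
      have := tri_nonneg (1 / L) (w + (k : ℝ) * (1 / L))
      have e1 : w + -((k : ℝ) * (1 / L)) = w - k * (1 / L) := by ring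
      rw [e1]
      linarith
    rcases Nat.eq_zero_or_pos j with hj0 | hj0
    · -- j = 0
      have h3 : (1 : ℝ) / ((1 : ℕ) : ℝ) ^ 2 *
          (tri (1 / L) (w + -(((1 : ℕ) : ℝ) * (1 / L))) + tri (1 / L) (w + ((1 : ℕ) : ℝ) * (1 / L))) ≤
          ∑ k ∈ Finset.Icc 1 K, 1 / (k : ℝ) ^ 2 *
          (tri (1 / L) (w + -(k * (1 / L))) + tri (1 / L) (w + k * (1 / L))) :=
        Finset.single_le_sum (f := fun k : ℕ => 1 / (k : ℝ) ^ 2 *
          (tri (1 / L) (w + -(k * (1 / L))) + tri (1 / L) (w + k * (1 / L))))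
          (fun k _ => hB1 k) (Finset.mem_Icc.2 ⟨le_rfl, by omega⟩)
      have h4 := hstep 1
      rw [hj0] at hp
      simp only [Nat.cast_zero, zero_mul, sub_zero, zero_add, one_mul] at hp
      simp only [Nat.cast_one, one_mul, one_pow, div_one, add_zero] at h3 h4 ⊢
      have h5 := sk_le_one L w
      linarith
    · have hjr : (1 : ℝ) ≤ j := by exact_mod_cast hj0
      have hw0' : w ≠ 0 := by
        intro h0
        rw [h0, mul_zero] at hj1
        linarith
      have h5 := sk_le L w hL0 hw0'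
      have hsj : sk L w ≤ 1 / (j : ℝ) ^ 2 / 9 := by
        refine h5.trans ?_
        have : 1 / (L * w) ^ 2 ≤ 1 / (j : ℝ) ^ 2 := by
          apply one_div_le_one_div_of_le (by positivity)
          exact pow_le_pow_left₀ (by positivity) hj1 2
        linarith
      have hs1 : sk L w ≤ 1 / (j : ℝ) ^ 2 := by
        have : 0 ≤ 1 / (j : ℝ) ^ 2 := by positivity
        linarith
      have hs2 : sk L w ≤ 1 / ((j + 1 : ℕ) : ℝ) ^ 2 := by
        refine hsj.trans ?_
        push_cast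
        rw [div_div, div_le_div_iff₀ (by positivity) (by positivity)]
        nlinarith
      have hsub : ({j, j + 1} : Finset ℕ) ⊆ Finset.Icc 1 K := by
        intro k hk
        rw [Finset.mem_insert, Finset.mem_singleton] at hk
        rw [Finset.mem_Icc]
        omega
      have h6 := Finset.sum_le_sum_of_subset_of_nonneg (f := fun k : ℕ => 1 / (k : ℝ) ^ 2 *
          (tri (1 / L) (w + -(k * (1 / L))) + tri (1 / L) (w + k * (1 / L)))) hsub
          (fun k _ _ => hB1 k)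
      rw [Finset.sum_pair (by omega)] at h6
      have h7 : sk L w * tri (1 / L) (w - j * (1 / L)) ≤ 1 / (j : ℝ) ^ 2 *
          (tri (1 / L) (w + -(j * (1 / L))) + tri (1 / L) (w + j * (1 / L))) :=
        mul_le_mul hs1 (hstep j) (tri_nonneg _ _) (by positivity)
      have h8 : sk L w * tri (1 / L) (w - (j + 1 : ℕ) * (1 / L)) ≤ 1 / ((j + 1 : ℕ) : ℝ) ^ 2 *
          (tri (1 / L) (w + -((j + 1 : ℕ) * (1 / L))) + tri (1 / L) (w + (j + 1 : ℕ) * (1 / L))) :=
        mul_le_mul hs2 (hstep (j + 1)) (tri_nonneg _ _) (by positivity)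
      have h9 : sk L w = sk L w * tri (1 / L) (w - j * (1 / L)) +
          sk L w * tri (1 / L) (w - (j + 1 : ℕ) * (1 / L)) := by
        rw [← mul_add]
        push_cast
        rw [hp, mul_one]
      linarith
  · -- tail
    have hw4 : 1 / 4 ≤ w := by
      have : (L : ℝ) * (1 / 4) ≤ L * w := by linarith
      exact le_of_mul_le_mul_left this hL0
    set j := ⌊4 * w⌋₊ with hj
    have hj1 : (j : ℝ) ≤ 4 * w := Nat.floor_le (by positivity)
    have hj2 : 4 * w ≤ j + 1 := (Nat.lt_floor_add_one _).le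
    have hjN : j ≤ N := by
      have : (j : ℝ) ≤ N := by linarith
      exact_mod_cast this
    have hj0 : 1 ≤ j := by
      rw [hj]
      apply Nat.le_floor
      push_cast
      linarith
    have hjr : (1 : ℝ) ≤ j := by exact_mod_cast hj0
    have h3 : 32 / (9 * (L : ℝ) ^ 2) * (1 / (j : ℝ) ^ 2) *
        (tri (1 / 2) (w + -(j / 4)) + tri (1 / 2) (w + j / 4)) ≤
        ∑ j ∈ Finset.Icc 1 N, 32 / (9 * (L : ℝ) ^ 2) * (1 / (j : ℝ) ^ 2) *
        (tri (1 / 2) (w + -(j / 4)) + tri (1 / 2) (w + j / 4)) :=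
      Finset.single_le_sum (f := fun j : ℕ => 32 / (9 * (L : ℝ) ^ 2) * (1 / (j : ℝ) ^ 2) *
        (tri (1 / 2) (w + -(j / 4)) + tri (1 / 2) (w + j / 4)))
        (fun k _ => by
          have := tri_nonneg (1 / 2) (w + -((k : ℝ) / 4))
          have := tri_nonneg (1 / 2) (w + (k : ℝ) / 4)
          positivity) (Finset.mem_Icc.2 ⟨hj0, hjN⟩)
    have h4 : 1 / 2 ≤ tri (1 / 2) (w + -(j / 4)) := by
      rw [tri_in (by norm_num) (by rw [abs_of_nonneg (by linarith)]; linarith),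
        abs_of_nonneg (by linarith)]
      linarith
    have h5 := tri_nonneg (1 / 2) (w + (j : ℝ) / 4)
    have h6 : 16 / (9 * (L : ℝ) ^ 2) * (1 / (j : ℝ) ^ 2) ≤ 32 / (9 * (L : ℝ) ^ 2) * (1 / (j : ℝ) ^ 2) *
        (tri (1 / 2) (w + -(j / 4)) + tri (1 / 2) (w + j / 4)) := by
      have h7 : 0 ≤ 32 / (9 * (L : ℝ) ^ 2) * (1 / (j : ℝ) ^ 2) := by positivity
      have h8 := mul_le_mul_of_nonneg_left (by linarith : (1 : ℝ) / 2 ≤
        tri (1 / 2) (w + -(j / 4)) + tri (1 / 2) (w + j / 4)) h7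
      have h9 : 32 / (9 * (L : ℝ) ^ 2) * (1 / (j : ℝ) ^ 2) * (1 / 2) =
        16 / (9 * (L : ℝ) ^ 2) * (1 / (j : ℝ) ^ 2) := by ring
      linarith
    have h7 := sk_le L w hL0 (by linarith)
    have h8 : 1 / (L * w) ^ 2 / 9 ≤ 16 / (9 * (L : ℝ) ^ 2) * (1 / (j : ℝ) ^ 2) := by
      have h9 : 16 / (9 * (L : ℝ) ^ 2) * (1 / (j : ℝ) ^ 2) = 1 / (L * (j / 4)) ^ 2 / 9 := by
        field_simp
        ring
      rw [h9]
      have h10 : 1 / ((L : ℝ) * w) ^ 2 ≤ 1 / (L * (j / 4)) ^ 2 := by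
        apply one_div_le_one_div_of_le (by positivity)
        apply pow_le_pow_left₀ (by positivity)
        apply mul_le_mul_of_nonneg_left (by linarith) hL0.le
      linarith
    linarith

lemma Qm_maj (L K N : ℕ) (hL : 4 ≤ L) (hK : L ≤ 4 * K) (w : ℝ) (hw : |w| ≤ N / 4) :
    sk L w ≤ Qm L K N w := by
  rcases le_total 0 w with h | h
  · rw [abs_of_nonneg h] at hw
    exact Qm_maj0 L K N hL hK w h hw
  · rw [abs_of_nonpos h] at hw
    have := Qm_maj0 L K N hL hK (-w) (by linarith) hw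
    rwa [sk_even, Qm_even] at this

end Pool.Agent.TH800.AH
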