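import Pool.Agent.TH800.AH.Fi

/-!
Assume the Riemann hypothesis.  If the spacings `d_n` of the zeta zeros are close to half-integers,
as the alternative hypothesis says, then the parities of the integers `2 d_n` define signs `σ_n`
with `σ_{n+1} = (-1) ^ (2 d_n) σ_n`.  We show that no sequence of signs whose sums over blocks of
length `L` have a variance of at most `(1 - δ) L`, for one large `L`, can be followed by almost all
spacings: a positive proportion of the spacings stays away from the half-integers of the prescribed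
parity.  In other words, on the alternative hypothesis the block sums of the parity signs fluctuate
at least as much as for independent fair coins.

Idea of the proof.  Along a pattern `e(y_n) = σ_n` up to a slowly varying phase, so that Montgomery's
theorem at the frequencies `1 - u`, `u` small, gives from below the mean square of
`∑ σ_n e(u y_n)`, with the sharp constant; the frequencies on the other side of `1` follow since the
signs are real.  A finite family of triangular minorants of the square of the sinc function and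
Plancherel's theorem turn this into a lower bound for the mean square of the sums of `σ_n` over the
zeros in windows of `L` mean spacings.  The number of zeros in such windows has variance `O(log L)`
(Montgomery's theorem at low frequencies and a majorant), and large deviations for sums of
consecutive gaps allow to pass from the mean over the window to the mean over the index.
-/

open Filter

namespace Pool.Agent.TH800.AH.ParityVarianceOld

/-- multiplicity of `s` as a zero of the Riemann zeta function (order of vanishing at `s`) -/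
noncomputable def zmult (s : ℂ) : ℕ := analyticOrderNatAt riemannZeta s

/-- the number of nontrivial zeros of `ζ` with ordinate in `(0, t]`, with multiplicity -/
noncomputable def NZ (t : ℝ) : ℕ :=
  ∑ᶠ s ∈ {s : ℂ | riemannZeta s = 0 ∧ 0 < s.re ∧ s.re < 1 ∧ 0 < s.im ∧ s.im ≤ t}, zmult s

/-- for `j ≥ 1`: the `j`-th positive ordinate `γ j` of a nontrivial zero of `ζ`, the ordinates being
listed in nondecreasing order and repeated according to multiplicity -/
noncomputable def γ (j : ℕ) : ℝ := sInf {t : ℝ | j ≤ NZ t}

/-- the normalised spacings `d_j = γ_{j+1} log γ_{j+1} / 2π - γ_j log γ_j / 2π` -/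
noncomputable def d (j : ℕ) : ℝ :=
  (γ (j + 1) * Real.log (γ (j + 1)) - γ j * Real.log (γ j)) / (2 * Real.pi)

open Pool.Agent.TH800.AH in
/-- On the Riemann hypothesis: for every `δ > 0` and every `L ≥ L0(δ)` there are `ε > 0` and `N0`
such that for all `N ≥ N0`, all sequences `σ` of signs and all real `μ` the following holds.  If
`∑_{n ≤ N} (σ_n + … + σ_{n+L-1} - μ)² ≤ (1 - δ) L N`, then for at least `ε N` of the `n ≤ N` the
spacing `d_n` has distance at least `ε` from every `k / 2`, `k` an integer which is even if
`σ_{n+1} = σ_n` and odd if `σ_{n+1} ≠ σ_n`. -/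
theorem result (RH : RiemannHypothesis) (δ : ℝ) (hδ : 0 < δ) :
    ∃ L0 : ℕ, ∀ L : ℕ, L0 ≤ L → ∃ ε : ℝ, 0 < ε ∧ ∃ N0 : ℕ, ∀ N : ℕ, N0 ≤ N →
      ∀ σ : ℕ → ℝ, (∀ n, σ n = 1 ∨ σ n = -1) → ∀ μ : ℝ,
        ∑ n ∈ Finset.Icc 1 N, (∑ j ∈ Finset.range L, σ (n + j) - μ) ^ 2 ≤ (1 - δ) * L * N →
        ε * N ≤ ({n : ℕ | 1 ≤ n ∧ n ≤ N ∧
          ∀ k : ℤ, (Even k ↔ σ (n + 1) = σ n) → ε ≤ |d n - k / 2|}.ncard : ℝ) := by
  have hdel : ∀ n, H177.Lat.del n = d n := fun n => rfl
  obtain ⟨L0, h⟩ := main0 RH (min δ 1) (lt_min hδ one_pos) (min_le_right _ _)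
  refine ⟨max L0 1, fun L hL => ?_⟩
  have hL1 : 1 ≤ L := (le_max_right _ _).trans hL
  have hL0 : (0 : ℝ) < L := by exact_mod_cast hL1
  obtain ⟨ε, hε, N0, hN0⟩ := h L ((le_max_left _ _).trans hL)
  refine ⟨ε, hε, N0, fun N hN σ hσ μ hvar => ?_⟩
  -- the clamped mean
  set m0 : ℝ := max (-1) (min 1 (μ / L)) with hm0
  have hm1 : |m0| ≤ 1 := abs_le.2 ⟨le_max_left _ _, max_le (by norm_num) (min_le_left _ _)⟩
  have hcmp : ∀ n, BB (fun n => σ n - m0) L n ^ 2 ≤ (∑ j ∈ Finset.range L, σ (n + j) - μ) ^ 2 := by
    intro n
    have e1 : BB (fun n => σ n - m0) L n = ∑ j ∈ Finset.range L, σ (n + j) - L * m0 := by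
      unfold BB
      rw [Finset.sum_sub_distrib, Finset.sum_const, Finset.card_range, nsmul_eq_mul]
    rw [e1]
    set b : ℝ := ∑ j ∈ Finset.range L, σ (n + j) with hb
    have hb1 : |b| ≤ L := by
      rw [hb]
      refine (Finset.abs_sum_le_sum_abs _ _).trans ?_
      refine (Finset.sum_le_sum (g := fun _ => (1 : ℝ)) fun j _ => ?_).trans (by simp)
      rcases hσ (n + j) with h | h <;> rw [h] <;> norm_num
    obtain ⟨hb2, hb3⟩ := abs_le.1 hb1
    have hμ : μ = L * (μ / L) := by field_simp
    rcases le_total (μ / L) 1 with h1 | h1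
    · rcases le_total (-1) (μ / L) with h2 | h2
      · have : m0 = μ / L := by rw [hm0, min_eq_right h1, max_eq_right h2]
        rw [this, ← hμ]
      · have : m0 = -1 := by rw [hm0, min_eq_right h1, max_eq_left h2]
        rw [this]
        have h3 : μ ≤ -L := by rw [hμ]; nlinarith
        nlinarith
    · have : m0 = 1 := by rw [hm0, min_eq_left h1, max_eq_right (by norm_num)]
      rw [this]
      have h3 : L ≤ μ := by rw [hμ]; nlinarith
      nlinarith
  have hvar' : ∑ n ∈ Finset.Icc 1 N, BB (fun n => σ n - m0) L n ^ 2 ≤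
      (1 - min δ 1) * L * N := by
    refine (Finset.sum_le_sum fun n _ => hcmp n).trans (hvar.trans ?_)
    have h1 : 1 - δ ≤ 1 - min δ 1 := by linarith [min_le_left δ 1]
    have h2 : (0 : ℝ) ≤ N := Nat.cast_nonneg N
    gcongr
  have hres := hN0 N hN σ hσ m0 hm1 hvar'
  refine hres.trans ?_
  have hsub : {n : ℕ | 1 ≤ n ∧ n ≤ N ∧ Ex σ ε n} ⊆ {n : ℕ | 1 ≤ n ∧ n ≤ N ∧
      ∀ k : ℤ, (Even k ↔ σ (n + 1) = σ n) → ε ≤ |d n - k / 2|} := by
    rintro n ⟨g1, g2, g3⟩
    refine ⟨g1, g2, fun k hk => ?_⟩
    unfold Ex al at g3
    rw [hdel] at g3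
    rcases hσ n with h1 | h1 <;> rcases hσ (n + 1) with h2 | h2
    · obtain ⟨m, rfl⟩ := hk.2 (by rw [h1, h2])
      have := g3 m
      rw [h1, h2] at this
      push_cast
      convert this using 2
      ring
    · have hodd : ¬ Even k := fun h => by
        have := hk.1 h
        rw [h1, h2] at this
        norm_num at this
      rw [Int.not_even_iff_odd] at hodd
      obtain ⟨m, rfl⟩ := hodd
      have := g3 m
      rw [h1, h2] at this
      push_cast
      convert this using 2
      ring
    · have hodd : ¬ Even k := fun h => by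
        have := hk.1 h
        rw [h1, h2] at this
        norm_num at this
      rw [Int.not_even_iff_odd] at hodd
      obtain ⟨m, rfl⟩ := hodd
      have := g3 (m + 1)
      rw [h1, h2] at this
      push_cast at this ⊢
      convert this using 2
      ring
    · obtain ⟨m, rfl⟩ := hk.2 (by rw [h1, h2])
      have := g3 m
      rw [h1, h2] at this
      push_cast
      convert this using 2
      ring
  have hfin : {n : ℕ | 1 ≤ n ∧ n ≤ N ∧
      ∀ k : ℤ, (Even k ↔ σ (n + 1) = σ n) → ε ≤ |d n - k / 2|}.Finite :=
    (Set.finite_Iic N).subset fun n hn => hn.2.1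
  exact_mod_cast Set.ncard_le_ncard hsub hfin

end Pool.Agent.TH800.AH.ParityVarianceOld
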