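import Pool.Agent.TH800.AH.Loc
import Pool.Agent.W54.TCF.NT

/-! From almost all windows to all zeros up to a height. -/

open Complex Filter Topology Set MeasureTheory

namespace Pool.Agent.TH800.AH

open H177.Lat H370.A2
open SG (ord NZ)

/-- sum of the squares of the block sums over the zeros up to `Y` -/
noncomputable def SY (σ : ℕ → ℝ) (m0 : ℝ) (L : ℕ) (Y : ℝ) : ℝ :=
  ∑ n ∈ Finset.Icc 1 (NZ Y), BB (fun n => σ n - m0) L n ^ 2

/-- the number of exceptional spacings up to `Y` -/
noncomputable def EY (σ : ℕ → ℝ) (ε Y : ℝ) : ℝ :=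
  ({n : ℕ | 1 ≤ n ∧ ord n ≤ Y ∧ Ex σ ε n}.ncard : ℝ)

lemma Ex_anti {σ : ℕ → ℝ} {ε ε' : ℝ} (h : ε ≤ ε') {n : ℕ} (hn : Ex σ ε' n) : Ex σ ε n :=
  fun k => h.trans (hn k)

lemma EY_fin (σ : ℕ → ℝ) (ε Y : ℝ) : {n : ℕ | 1 ≤ n ∧ ord n ≤ Y ∧ Ex σ ε n}.Finite := by
  refine (Set.finite_Iic (NZ Y)).subset ?_
  rintro n ⟨h1, h2, h3⟩
  exact (SG.ord_le_iff h1 _).mp h2

lemma EY_mono {σ : ℕ → ℝ} {ε ε' Y Y' : ℝ} (h : ε ≤ ε') (hY : Y ≤ Y') :
    EY σ ε' Y ≤ EY σ ε Y' := by
  unfold EY
  have hsub : {n : ℕ | 1 ≤ n ∧ ord n ≤ Y ∧ Ex σ ε' n} ⊆ {n : ℕ | 1 ≤ n ∧ ord n ≤ Y' ∧ Ex σ ε n} := by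
    rintro n ⟨h1, h2, h3⟩
    exact ⟨h1, h2.trans hY, Ex_anti h h3⟩
  exact_mod_cast Set.ncard_le_ncard hsub (EY_fin σ ε Y')

lemma SY_nonneg (σ : ℕ → ℝ) (m0 : ℝ) (L : ℕ) (Y : ℝ) : 0 ≤ SY σ m0 L Y :=
  Finset.sum_nonneg fun _ _ => sq_nonneg _

lemma SY_add (σ : ℕ → ℝ) (m0 : ℝ) (L : ℕ) {t u Y : ℝ} (htu : t ≤ u) (huY : u ≤ Y) :
    SY σ m0 L t + ∑ n ∈ Finset.Ioc (NZ t) (NZ u), BB (fun n => σ n - m0) L n ^ 2 ≤
      SY σ m0 L Y := by
  unfold SY
  have h1 : NZ t ≤ NZ u := SG.NZ_mono htu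
  have h2 : NZ u ≤ NZ Y := SG.NZ_mono huY
  rw [← Finset.sum_union (by
    rw [Finset.disjoint_left]
    intro n hn1 hn2
    rw [Finset.mem_Icc] at hn1
    rw [Finset.mem_Ioc] at hn2
    omega)]
  apply Finset.sum_le_sum_of_subset_of_nonneg
  · intro n hn
    rw [Finset.mem_union, Finset.mem_Icc, Finset.mem_Ioc] at hn
    rw [Finset.mem_Icc]
    omega
  · intro n _ _
    exact sq_nonneg _

/-- a good window in every short interval -/
lemma AA.exists {P : ℝ → ℝ → Prop} (h : AA P) (ρ : ℝ) (hρ : 0 < ρ) (hρ1 : ρ ≤ 1) :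
    ∃ T0 : ℝ, 100 ≤ T0 ∧ ∀ T : ℝ, T0 ≤ T → ∃ t : ℝ, T ≤ t ∧ t ≤ (1 + ρ) * T ∧ P T t := by
  obtain ⟨δ, hδ, T1, hT1, h⟩ := h
  obtain ⟨T2, hT2⟩ := ((tendsto_rpow_atTop hδ).eventually_gt_atTop (1 / ρ)).exists_forall_of_atTop
  refine ⟨max T1 T2, hT1.trans (le_max_left _ _), fun T hT => ?_⟩
  have hTT1 : T1 ≤ T := (le_max_left _ _).trans hT
  have h2 := hT2 T ((le_max_right _ _).trans hT)
  have hTpos : 0 < T := by linarith
  by_contra hcon
  push Not at hcon
  have hsub : Set.Icc T ((1 + ρ) * T) ⊆ {t : ℝ | t ∈ Set.Icc T (2 * T) ∧ ¬ P T t} := by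
    rintro t ⟨g1, g2⟩
    refine ⟨⟨g1, ?_⟩, hcon t g1 g2⟩
    nlinarith
  have h3 := (measure_mono hsub).trans (h T hTT1)
  rw [Real.volume_Icc, ENNReal.ofReal_le_ofReal_iff (by positivity)] at h3
  have h4 : T ^ (1 - δ) * T ^ δ = T := by
    rw [← Real.rpow_add hTpos]
    have : 1 - δ + δ = 1 := by ring
    rw [this, Real.rpow_one]
  have h5 : 0 < T ^ (1 - δ) := Real.rpow_pos_of_pos hTpos _
  rw [div_lt_iff₀ hρ] at h2
  have h6 : (1 + ρ) * T - T = ρ * T := by ring
  rw [h6] at h3
  have h7 : T ^ (1 - δ) * 1 < T ^ (1 - δ) * (T ^ δ * ρ) := mul_lt_mul_of_pos_left h2 h5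
  have h8 : T ^ (1 - δ) * (T ^ δ * ρ) = ρ * T := by rw [← mul_assoc, h4]; ring
  linarith

/-- the constants of the recursion -/
noncomputable def th (δ A : ℝ) (k : ℕ) : ℝ := A / (1 + δ) * (1 - (8 / (9 + δ)) ^ k)

lemma th_succ (δ A : ℝ) (hδ : 0 < δ) (k : ℕ) :
    th δ A (k + 1) = (th δ A k + A / 8) * (8 / (9 + δ)) := by
  unfold th
  have h1 : (1 + δ) ≠ 0 := by positivity
  have h2 : (9 + δ) ≠ 0 := by positivity
  rw [pow_succ]
  field_simp
  ring

/-- the recursion -/
theorem rec_all (hRH : RiemannHypothesis) (δ : ℝ) (hδ : 0 < δ) (hδ1 : δ ≤ 1 / 20) :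
    ∃ L0 : ℕ, 8 ≤ L0 ∧ ∀ L : ℕ, L0 ≤ L → ∀ k : ℕ, ∃ c : ℝ, 0 < c ∧ ∃ Y0 : ℝ, 100 ≤ Y0 ∧
      ∀ Y : ℝ, Y0 ≤ Y → ∀ σ : ℕ → ℝ, Sg σ → ∀ m0 : ℝ, |m0| ≤ 1 →
        c * (Y * Real.log Y) ≤ EY σ c Y ∨
        th δ ((1 - 13 * δ) * L) k * (Y * Real.log Y / (2 * Real.pi)) ≤ SY σ m0 L Y := by
  obtain ⟨L0, hL0, hloc⟩ := loc hRH δ hδ hδ1
  refine ⟨L0, hL0, fun L hL => ?_⟩
  obtain ⟨c, hc, hAA⟩ := hloc L hL
  obtain ⟨T0, hT0, hex⟩ := hAA.exists (δ / 16) (by positivity) (by linarith)
  set A : ℝ := (1 - 13 * δ) * L with hA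
  have hA0 : 0 ≤ A := by
    have : (0 : ℝ) ≤ L := Nat.cast_nonneg L
    have : 0 ≤ 1 - 13 * δ := by linarith
    positivity
  intro k
  induction k with
  | zero =>
    refine ⟨1, one_pos, 100, le_rfl, fun Y _ σ _ m0 _ => Or.inr ?_⟩
    have : th δ A 0 = 0 := by unfold th; simp
    rw [this, zero_mul]
    exact SY_nonneg _ _ _ _
  | succ k ih =>
    obtain ⟨ck, hck, Yk, hYk, hk⟩ := ih
    have hev : ∀ᶠ T : ℝ in atTop, 32 / δ ≤ Real.log T :=
      Real.tendsto_log_atTop.eventually_ge_atTop _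
    obtain ⟨T2, hT2⟩ := hev.exists_forall_of_atTop
    set c' : ℝ := min ck c / 4 with hc'
    have hmin : 0 < min ck c := lt_min hck hc
    have hc'0 : 0 < c' := by positivity
    refine ⟨c', hc'0, 2 * (max T0 (max Yk T2)), by linarith [le_max_left T0 (max Yk T2)],
      fun Y hY σ hσ m0 hm => ?_⟩
    set r : ℝ := 9 / 8 + δ / 16 with hr
    have hr0 : 0 < r := by positivity
    have hr2 : r ≤ 2 := by rw [hr]; linarith
    set T : ℝ := Y / r with hT
    have hYT : Y = r * T := by rw [hT]; field_simp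
    have hY0 : 0 < Y := by
      have := le_max_left T0 (max Yk T2)
      linarith
    have hTge : max T0 (max Yk T2) ≤ T := by
      rw [hT, le_div_iff₀ hr0]
      have h0 : 0 ≤ max T0 (max Yk T2) := by
        have := le_max_left T0 (max Yk T2)
        linarith
      have : max T0 (max Yk T2) * r ≤ max T0 (max Yk T2) * 2 := mul_le_mul_of_nonneg_left hr2 h0
      linarith
    have hTT0 : T0 ≤ T := (le_max_left _ _).trans hTge
    have hTYk : Yk ≤ T := ((le_max_left _ _).trans (le_max_right _ _)).trans hTge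
    have hlog := hT2 T (((le_max_right _ _).trans (le_max_right _ _)).trans hTge)
    have hT100 : 100 ≤ T := hT0.trans hTT0
    have hTpos : 0 < T := by linarith
    have hlT : 0 < Real.log T := Real.log_pos (by linarith)
    have hpi := Real.pi_pos
    obtain ⟨t, ht1, ht2, hP⟩ := hex T hTT0
    have htY : t + T / 8 ≤ Y := by
      rw [hYT, hr]
      linarith
    have ht0 : 0 < t := by linarith
    have hlt : Real.log T ≤ Real.log t := Real.log_le_log hTpos ht1
    have hlogY : Real.log Y ≤ Real.log T + 1 := by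
      rw [hYT, Real.log_mul hr0.ne' hTpos.ne']
      have := Real.log_le_sub_one_of_pos hr0
      linarith
    have hYlog : Y * Real.log Y ≤ 4 * (T * Real.log T) := by
      have h1 : Real.log Y ≤ 2 * Real.log T := by
        have : 32 ≤ 32 / δ := by
          rw [le_div_iff₀ hδ]
          linarith
        linarith
      have h2 : Y ≤ 2 * T := by rw [hYT]; exact mul_le_mul_of_nonneg_right hr2 hTpos.le
      have h3 : Y * Real.log Y ≤ (2 * T) * (2 * Real.log T) := by
        apply mul_le_mul h2 h1 _ (by positivity)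
        apply Real.log_nonneg
        rw [hYT]
        have : 1 * 1 ≤ r * T := mul_le_mul (by rw [hr]; linarith) (by linarith) zero_le_one hr0.le
        linarith
      linarith
    have hTlt : T * Real.log T ≤ t * Real.log t := mul_le_mul ht1 hlt hlT.le ht0.le
    rcases hP σ hσ m0 hm with hb | hb
    · -- many exceptional spacings in the window
      left
      have h1 : (({n : ℕ | 1 ≤ n ∧ t < ord n ∧ ord n ≤ t + T / 8 ∧ Ex σ c n}.ncard : ℕ) : ℝ) ≤
          EY σ c' Y := by
        unfold EY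
        have hsub : {n : ℕ | 1 ≤ n ∧ t < ord n ∧ ord n ≤ t + T / 8 ∧ Ex σ c n} ⊆
            {n : ℕ | 1 ≤ n ∧ ord n ≤ Y ∧ Ex σ c' n} := by
          rintro n ⟨g1, g2, g3, g4⟩
          refine ⟨g1, g3.trans htY, Ex_anti ?_ g4⟩
          have := min_le_right ck c
          rw [hc']
          linarith
        exact_mod_cast Set.ncard_le_ncard hsub (EY_fin σ c' Y)
      refine le_trans ?_ (hb.trans h1)
      have h2 : c' * (Y * Real.log Y) ≤ c' * (4 * (T * Real.log T)) :=
        mul_le_mul_of_nonneg_left hYlog hc'0.le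
      have h3 : c' * (4 * (T * Real.log T)) = min ck c * (T * Real.log T) := by rw [hc']; ring
      have h4 : min ck c * (T * Real.log T) ≤ c * (T * Real.log T) :=
        mul_le_mul_of_nonneg_right (min_le_right _ _) (by positivity)
      linarith
    · rcases hk t (hTYk.trans ht1) σ hσ m0 hm with hb2 | hb2
      · left
        have h1 : EY σ ck t ≤ EY σ c' Y := by
          apply EY_mono _ (by linarith)
          have := min_le_left ck c
          rw [hc']
          linarith
        refine le_trans ?_ (hb2.trans h1)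
        have h2 : c' * (Y * Real.log Y) ≤ c' * (4 * (T * Real.log T)) :=
          mul_le_mul_of_nonneg_left hYlog hc'0.le
        have h3 : c' * (4 * (T * Real.log T)) = min ck c * (T * Real.log T) := by rw [hc']; ring
        have h4 : min ck c * (T * Real.log T) ≤ ck * (T * Real.log T) :=
          mul_le_mul_of_nonneg_right (min_le_left _ _) (by positivity)
        have h5 := mul_le_mul_of_nonneg_left hTlt hck.le
        linarith
      · right
        have hadd := SY_add σ m0 L (show t ≤ t + T / 8 by linarith) htY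
        have hth0 : 0 ≤ th δ A k := by
          unfold th
          have h1 : (8 / (9 + δ)) ^ k ≤ 1 := by
            apply pow_le_one₀ (by positivity)
            rw [div_le_one (by positivity)]
            linarith
          have h2 : 0 ≤ A / (1 + δ) := by positivity
          exact mul_nonneg h2 (by linarith)
        have h1 : th δ A k * (T * Real.log T / (2 * Real.pi)) ≤
            th δ A k * (t * Real.log t / (2 * Real.pi)) := by
          apply mul_le_mul_of_nonneg_left _ hth0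
          exact div_le_div_of_nonneg_right hTlt (by positivity)
        have h2 : A * Mw T = A / 8 * (T * Real.log T / (2 * Real.pi)) := by unfold Mw; ring
        have h3 : (th δ A k + A / 8) * (T * Real.log T / (2 * Real.pi)) ≤ SY σ m0 L Y := by
          have h4 : (1 - 13 * δ) * L * Mw T = A * Mw T := by rw [hA]
          rw [h4, h2] at hb
          have h5 : (th δ A k + A / 8) * (T * Real.log T / (2 * Real.pi)) =
              th δ A k * (T * Real.log T / (2 * Real.pi)) +
              A / 8 * (T * Real.log T / (2 * Real.pi)) := by ring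
          linarith
        refine le_trans ?_ h3
        rw [th_succ δ A hδ, mul_assoc]
        apply mul_le_mul_of_nonneg_left _ (by positivity)
        -- comparison of the lengths
        have h6 : Y * Real.log Y ≤ (9 / 8 + δ / 8) * (T * Real.log T) := by
          have h7 : Y * Real.log Y ≤ (r * T) * (Real.log T + 1) := by
            rw [← hYT]
            exact mul_le_mul_of_nonneg_left hlogY hY0.le
          have h8 : r ≤ δ / 16 * Real.log T := by
            have h9 : δ / 16 * (32 / δ) ≤ δ / 16 * Real.log T :=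
              mul_le_mul_of_nonneg_left hlog (by positivity)
            have h10 : δ / 16 * (32 / δ) = 2 := by field_simp; norm_num
            linarith
          have h9 : r * T ≤ δ / 16 * Real.log T * T := mul_le_mul_of_nonneg_right h8 hTpos.le
          have h10 : (r * T) * (Real.log T + 1) = r * (T * Real.log T) + r * T := by ring
          rw [h10] at h7
          have h11 : r * (T * Real.log T) = 9 / 8 * (T * Real.log T) + δ / 16 * (T * Real.log T) := by
            rw [hr]; ring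
          linarith
        have h7 : 8 / (9 + δ) * (Y * Real.log Y / (2 * Real.pi)) ≤
            8 / (9 + δ) * ((9 / 8 + δ / 8) * (T * Real.log T) / (2 * Real.pi)) := by
          apply mul_le_mul_of_nonneg_left _ (by positivity)
          exact div_le_div_of_nonneg_right h6 (by positivity)
        refine h7.trans (le_of_eq ?_)
        field_simp
        try ring

end Pool.Agent.TH800.AH
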