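import Pool.Agent.TH800.AH.Cm

/-! From the gap weighted mean to the mean over the indices: the deterministic part. -/

open Finset

namespace Pool.Agent.TH800.AH

/-- one step of the block sums -/
lemma BB_step (s : ℕ → ℝ) (hs : ∀ n m, |s n - s m| ≤ 2) (L n : ℕ) :
    |BB s L (n + 1) - BB s L n| ≤ 2 := by
  unfold BB
  have h1 := Finset.sum_range_succ (fun j => s (n + j)) L
  have h2 := Finset.sum_range_succ' (fun j => s (n + j)) L
  have h3 : ∑ j ∈ Finset.range L, s (n + (j + 1)) = ∑ j ∈ Finset.range L, s (n + 1 + j) :=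
    Finset.sum_congr rfl fun j _ => by congr 1; omega
  rw [h3, h1] at h2
  simp only [add_zero] at h2
  have h4 : ∑ j ∈ Finset.range L, s (n + 1 + j) - ∑ j ∈ Finset.range L, s (n + j) =
      s (n + L) - s n := by linarith
  rw [h4]
  exact hs _ _

lemma BB_steps (s : ℕ → ℝ) (hs : ∀ n m, |s n - s m| ≤ 2) (L n i : ℕ) :
    |BB s L (n + i) - BB s L n| ≤ 2 * i := by
  induction i with
  | zero => simp
  | succ i ih =>
    have h1 := BB_step s hs L (n + i)
    have h2 : BB s L (n + (i + 1)) - BB s L n =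
      (BB s L (n + i + 1) - BB s L (n + i)) + (BB s L (n + i) - BB s L n) := by
      have : n + (i + 1) = n + i + 1 := by omega
      rw [this]
      ring
    rw [h2]
    refine (abs_add_le _ _).trans ?_
    push_cast
    linarith

lemma BB_bound (s : ℕ → ℝ) (hs : ∀ n, |s n| ≤ 2) (L n : ℕ) : BB s L n ^ 2 ≤ 4 * (L : ℝ) ^ 2 := by
  have h : |BB s L n| ≤ 2 * L := by
    unfold BB
    refine (Finset.abs_sum_le_sum_abs _ _).trans ?_
    refine (Finset.sum_le_sum fun j _ => hs (n + j)).trans ?_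
    rw [Finset.sum_const, Finset.card_range, nsmul_eq_mul]
    linarith
  rw [← sq_abs]
  have := pow_le_pow_left₀ (abs_nonneg _) h 2
  linarith

/-- forward sums of gaps -/
noncomputable def DD (g : ℕ → ℝ) (h k : ℕ) : ℝ := ∑ i ∈ Finset.range h, g (k + i)

/-- smoothing -/
theorem smooth (s g : ℕ → ℝ) (hs : ∀ n m, |s n - s m| ≤ 2) (hg : ∀ n, 1 ≤ n → 0 ≤ g n)
    (L h a b : ℕ) (hh : 1 ≤ h) (hah : h ≤ a) (δ : ℝ) (hδ : 0 < δ) :
    ∑ n ∈ Finset.Ico (a + 1) b, g n * BB s L (n + 1) ^ 2 ≤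
      (1 + δ) * ∑ m ∈ Finset.Ico (a + 2) (b + h), BB s L m ^ 2 * (DD g h (m - h) / h) +
      (1 + 1 / δ) * (4 * (h : ℝ) ^ 2) * ∑ n ∈ Finset.Ico (a + 1) b, g n := by
  have hh0 : (0 : ℝ) < h := by exact_mod_cast hh
  -- pointwise averaging
  have h1 : ∀ n : ℕ, BB s L (n + 1) ^ 2 ≤ (1 + δ) * ((∑ i ∈ Finset.range h,
      BB s L (n + 1 + i) ^ 2) / h) + (1 + 1 / δ) * (4 * (h : ℝ) ^ 2) := by
    intro n
    have h2 : ∀ i ∈ Finset.range h, BB s L (n + 1) ^ 2 ≤ (1 + δ) * BB s L (n + 1 + i) ^ 2 +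
        (1 + 1 / δ) * (4 * (h : ℝ) ^ 2) := by
      intro i hi
      have h3 := BB_steps s hs L (n + 1) i
      have h4 : (i : ℝ) ≤ h := by exact_mod_cast (Finset.mem_range.1 hi).le
      set A := BB s L (n + 1)
      set B := BB s L (n + 1 + i)
      have h5 : (B - A) ^ 2 ≤ 4 * (h : ℝ) ^ 2 := by
        rw [← sq_abs]
        have h6 := pow_le_pow_left₀ (abs_nonneg _) (h3.trans (by linarith : 2 * (i : ℝ) ≤ 2 * h)) 2
        linarith
      have h6 : 0 ≤ (δ * B + (B - A)) ^ 2 / δ := by positivity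
      have h7 : (δ * B + (B - A)) ^ 2 / δ = δ * B ^ 2 + 2 * (B * (B - A)) + 1 / δ * (B - A) ^ 2 := by
        field_simp
        ring
      have h8 : A ^ 2 = B ^ 2 - 2 * (B * (B - A)) + (B - A) ^ 2 := by ring
      have h9 : (0 : ℝ) ≤ 1 + 1 / δ := by positivity
      have h10 := mul_le_mul_of_nonneg_left h5 h9
      linarith
    have h3 := Finset.sum_le_sum h2
    rw [Finset.sum_const, Finset.card_range, nsmul_eq_mul, Finset.sum_add_distrib,
      ← Finset.mul_sum, Finset.sum_const, Finset.card_range, nsmul_eq_mul] at h3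
    rw [← mul_div_assoc, ← sub_le_iff_le_add, le_div_iff₀ hh0]
    linarith
  have h2 : ∑ n ∈ Finset.Ico (a + 1) b, g n * BB s L (n + 1) ^ 2 ≤
      ∑ n ∈ Finset.Ico (a + 1) b, ((1 + δ) / h * ∑ i ∈ Finset.range h,
        g n * BB s L (n + 1 + i) ^ 2 + (1 + 1 / δ) * (4 * (h : ℝ) ^ 2) * g n) := by
    refine Finset.sum_le_sum fun n hn => ?_
    rw [Finset.mem_Ico] at hn
    have h3 := mul_le_mul_of_nonneg_left (h1 n) (hg n (by omega))
    refine h3.trans (le_of_eq ?_)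
    rw [← Finset.mul_sum]
    ring
  rw [Finset.sum_add_distrib, ← Finset.mul_sum, ← Finset.mul_sum] at h2
  refine h2.trans (add_le_add ?_ le_rfl)
  -- exchange of the sums
  rw [Finset.sum_comm]
  have h3 : ∀ i ∈ Finset.range h, ∑ n ∈ Finset.Ico (a + 1) b, g n * BB s L (n + 1 + i) ^ 2 ≤
      ∑ m ∈ Finset.Ico (a + 2) (b + h), g (m - 1 - i) * BB s L m ^ 2 := by
    intro i hi
    have hi' := Finset.mem_range.1 hi
    have h4 : ∑ n ∈ Finset.Ico (a + 1) b, g n * BB s L (n + 1 + i) ^ 2 =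
        ∑ m ∈ Finset.Ico (a + 1 + (1 + i)) (b + (1 + i)), g (m - 1 - i) * BB s L m ^ 2 := by
      rw [← Finset.sum_Ico_add' (fun m => g (m - 1 - i) * BB s L m ^ 2) (a + 1) b (1 + i)]
      refine Finset.sum_congr rfl fun n _ => ?_
      have e1 : n + (1 + i) - 1 - i = n := by omega
      have e2 : n + (1 + i) = n + 1 + i := by omega
      rw [e1, e2]
    rw [h4]
    apply Finset.sum_le_sum_of_subset_of_nonneg
    · intro m hm
      rw [Finset.mem_Ico] at hm ⊢
      omega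
    · intro m hm _
      rw [Finset.mem_Ico] at hm
      exact mul_nonneg (hg _ (by omega)) (sq_nonneg _)
  have h4 := Finset.sum_le_sum h3
  have h4' : ∑ i ∈ Finset.range h, ∑ m ∈ Finset.Ico (a + 2) (b + h),
      g (m - 1 - i) * BB s L m ^ 2 = ∑ m ∈ Finset.Ico (a + 2) (b + h), ∑ i ∈ Finset.range h,
      g (m - 1 - i) * BB s L m ^ 2 := Finset.sum_comm
  have h5 : ∀ m ∈ Finset.Ico (a + 2) (b + h), ∑ i ∈ Finset.range h, g (m - 1 - i) * BB s L m ^ 2 =
      BB s L m ^ 2 * DD g h (m - h) := by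
    intro m hm
    rw [Finset.mem_Ico] at hm
    unfold DD
    rw [← Finset.sum_mul, mul_comm]
    congr 1
    rw [← Finset.sum_range_reflect (fun i => g (m - h + i)) h]
    refine Finset.sum_congr rfl fun i hi => ?_
    have hi' := Finset.mem_range.1 hi
    congr 1
    omega
  rw [h4', Finset.sum_congr rfl h5] at h4
  have h6 : (1 + δ) / h * ∑ m ∈ Finset.Ico (a + 2) (b + h), BB s L m ^ 2 * DD g h (m - h) =
      (1 + δ) * ∑ m ∈ Finset.Ico (a + 2) (b + h), BB s L m ^ 2 * (DD g h (m - h) / h) := by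
    rw [Finset.mul_sum, Finset.mul_sum]
    refine Finset.sum_congr rfl fun m _ => ?_
    ring
  rw [← h6]
  exact mul_le_mul_of_nonneg_left h4 (by positivity)

/-- a truncated value -/
lemma trunc (x : ℝ) (J : ℕ) (hx : x ≤ J + 1) :
    x ≤ 4 + ∑ j ∈ Finset.Icc 4 J, (if (j : ℝ) < x then (1 : ℝ) else 0) := by
  rcases le_or_gt x 4 with h | h
  · have : 0 ≤ ∑ j ∈ Finset.Icc 4 J, (if (j : ℝ) < x then (1 : ℝ) else 0) :=
      Finset.sum_nonneg fun j _ => by split_ifs <;> norm_num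
    linarith
  · set k := ⌈x⌉₊ with hk
    have hk1 : x ≤ k := Nat.le_ceil x
    have hk2 : (k : ℝ) < x + 1 := Nat.ceil_lt_add_one (by linarith)
    have hk5 : 5 ≤ k := by
      have : (4 : ℝ) < k := by linarith
      have : 4 < k := by exact_mod_cast this
      omega
    have hkJ : k ≤ J + 1 := by
      have : (k : ℝ) < ((J + 2 : ℕ) : ℝ) := by push_cast; linarith
      have : k < J + 2 := by exact_mod_cast this
      omega
    have h1 : ∑ j ∈ Finset.Ico 4 k, (1 : ℝ) ≤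
        ∑ j ∈ Finset.Icc 4 J, (if (j : ℝ) < x then (1 : ℝ) else 0) := by
      have h2 : ∑ j ∈ Finset.Ico 4 k, (1 : ℝ) = ∑ j ∈ Finset.Ico 4 k,
          (if (j : ℝ) < x then (1 : ℝ) else 0) := by
        refine Finset.sum_congr rfl fun j hj => ?_
        rw [Finset.mem_Ico] at hj
        have : ((j : ℝ) + 1) ≤ k := by exact_mod_cast hj.2
        rw [if_pos (by linarith)]
      rw [h2]
      apply Finset.sum_le_sum_of_subset_of_nonneg
      · intro j hj
        rw [Finset.mem_Ico] at hj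
        rw [Finset.mem_Icc]
        omega
      · intro j _ _
        split_ifs <;> norm_num
    rw [Finset.sum_const, Nat.card_Ico, nsmul_eq_mul, mul_one, Nat.cast_sub (by omega)] at h1
    push_cast at h1
    linarith

/-- the part of the weights above `1 + δ` -/
theorem excess (S : Finset ℕ) (x B : ℕ → ℝ) (δ Q : ℝ) (hδ : 0 < δ) (hQ : 0 ≤ Q)
    (hB : ∀ m, B m ^ 2 ≤ Q) (J : ℕ) (hJ : ∀ m ∈ S, x m ≤ J + 1) :
    ∑ m ∈ S, B m ^ 2 * x m ≤ (1 + δ) * ∑ m ∈ S, B m ^ 2 +
      Q * (4 * ((S.filter (fun m => 1 + δ < x m)).card : ℝ) +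
        ∑ j ∈ Finset.Icc 4 J, ((S.filter (fun m => (j : ℝ) < x m)).card : ℝ)) := by
  have h1 : ∀ m ∈ S, B m ^ 2 * x m ≤ (1 + δ) * B m ^ 2 + Q * (4 * (if 1 + δ < x m then (1 : ℝ) else 0) +
      ∑ j ∈ Finset.Icc 4 J, (if (j : ℝ) < x m then (1 : ℝ) else 0)) := by
    intro m hm
    have h0 : 0 ≤ ∑ j ∈ Finset.Icc 4 J, (if (j : ℝ) < x m then (1 : ℝ) else 0) :=
      Finset.sum_nonneg fun j _ => by split_ifs <;> norm_num
    rcases le_or_gt (x m) (1 + δ) with h | h
    · have h2 := mul_le_mul_of_nonneg_left h (sq_nonneg (B m))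
      rw [if_neg (not_lt.2 h)]
      have h3 := mul_nonneg hQ h0
      linarith
    · rw [if_pos h]
      have h2 := trunc (x m) J (hJ m hm)
      have h3 : B m ^ 2 * x m ≤ B m ^ 2 * (4 + ∑ j ∈ Finset.Icc 4 J,
          (if (j : ℝ) < x m then (1 : ℝ) else 0)) := mul_le_mul_of_nonneg_left h2 (sq_nonneg _)
      have h4 : B m ^ 2 * (4 + ∑ j ∈ Finset.Icc 4 J,
          (if (j : ℝ) < x m then (1 : ℝ) else 0)) ≤ Q * (4 + ∑ j ∈ Finset.Icc 4 J,
          (if (j : ℝ) < x m then (1 : ℝ) else 0)) :=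
        mul_le_mul_of_nonneg_right (hB m) (by linarith)
      have h5 : 0 ≤ (1 + δ) * B m ^ 2 := by positivity
      linarith
  refine (Finset.sum_le_sum h1).trans (le_of_eq ?_)
  rw [Finset.sum_add_distrib, ← Finset.mul_sum, ← Finset.mul_sum, Finset.sum_add_distrib,
    ← Finset.mul_sum, Finset.sum_comm]
  congr 2
  congr 1
  · rw [Finset.sum_boole]
  · refine Finset.sum_congr rfl fun j _ => ?_
    rw [Finset.sum_boole]

end Pool.Agent.TH800.AH
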